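import Mathlib

set_option autoImplicit false

/-!
Configurations (finite multisets) in a set with a weighted family of cuts: the matching metric
embeds in `ℓ₁` with distortion depending only on the number of points.
-/

namespace Pool.Agent.H799R2.Cuts

open Finset

/-- The `ℓ₁` norm of a finite family. -/
def l1 {ι : Type} [Fintype ι] (v : ι → ℝ) : ℝ := ∑ i, |v i|

section l1
variable {ι κ : Type} [Fintype ι] [Fintype κ]

theorem l1_nonneg (v : ι → ℝ) : 0 ≤ l1 v := Finset.sum_nonneg fun _ _ => abs_nonneg _

theorem l1_add_le (u v : ι → ℝ) : l1 (u + v) ≤ l1 u + l1 v := by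
  unfold l1
  rw [← Finset.sum_add_distrib]
  exact Finset.sum_le_sum fun i _ => abs_add_le _ _

theorem l1_smul (a : ℝ) (v : ι → ℝ) : l1 (a • v) = |a| * l1 v := by
  unfold l1
  rw [Finset.mul_sum]
  exact Finset.sum_congr rfl fun i _ => by rw [Pi.smul_apply, smul_eq_mul, abs_mul]

theorem l1_neg (v : ι → ℝ) : l1 (-v) = l1 v := by
  unfold l1
  exact Finset.sum_congr rfl fun i _ => by rw [Pi.neg_apply, abs_neg]

theorem l1_zero : l1 (0 : ι → ℝ) = 0 := by
  unfold l1; simp

theorem l1_sub_comm (u v : ι → ℝ) : l1 (u - v) = l1 (v - u) := by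
  rw [← neg_sub, l1_neg]

theorem l1_sub_le (u v : ι → ℝ) : l1 (u - v) ≤ l1 u + l1 v := by
  rw [sub_eq_add_neg]
  exact (l1_add_le _ _).trans_eq (by rw [l1_neg])

theorem l1_sumType (v : ι ⊕ κ → ℝ) : l1 v = l1 (fun i => v (Sum.inl i)) + l1 fun j => v (Sum.inr j) := by
  unfold l1
  exact Fintype.sum_sum_type _

end l1

variable {M K : Type} [Fintype K]

/-- Number of points of `X` on the `true` side of the cut `k`. -/
def N (c : K → M → Bool) (k : K) (X : Multiset M) : ℕ := (X.filter fun x => c k x = true).card

/-- The cut `k` separates `X`. -/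
def Sep (c : K → M → Bool) (k : K) (X : Multiset M) : Prop := 0 < N c k X ∧ N c k X < X.card

instance (c : K → M → Bool) (k : K) (X : Multiset M) : Decidable (Sep c k X) := by
  unfold Sep; infer_instance

/-- Total weight of the cuts separating `X`. -/
def R (c : K → M → Bool) (w : K → ℝ) (X : Multiset M) : ℝ := ∑ k, if Sep c k X then w k else 0

/-- Distance of the sums of `X` and `Y`. -/
def A (c : K → M → Bool) (w : K → ℝ) (X Y : Multiset M) : ℝ :=
  ∑ k, w k * |(N c k X : ℝ) - (N c k Y : ℝ)|

/-- The cut metric. -/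
def rho (c : K → M → Bool) (w : K → ℝ) (x y : M) : ℝ := ∑ k, if c k x ≠ c k y then w k else 0

/-- Cost of a matching. -/
def cost (c : K → M → Bool) (w : K → ℝ) (P : Multiset (M × M)) : ℝ :=
  (P.map fun p => rho c w p.1 p.2).sum

section basic
variable (c : K → M → Bool) (w : K → ℝ) (hw : ∀ k, 0 ≤ w k)
include hw

theorem R_nonneg (X : Multiset M) : 0 ≤ R c w X :=
  Finset.sum_nonneg fun k _ => by split_ifs <;> simp [hw k]

theorem A_nonneg (X Y : Multiset M) : 0 ≤ A c w X Y :=
  Finset.sum_nonneg fun k _ => mul_nonneg (hw k) (abs_nonneg _)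

theorem rho_nonneg (x y : M) : 0 ≤ rho c w x y :=
  Finset.sum_nonneg fun k _ => by split_ifs <;> simp [hw k]

theorem cost_nonneg (P : Multiset (M × M)) : 0 ≤ cost c w P := by
  unfold cost
  refine Multiset.sum_nonneg ?_
  intro x hx
  obtain ⟨p, -, rfl⟩ := Multiset.mem_map.1 hx
  exact rho_nonneg c w hw _ _

theorem R_mono {X Y : Multiset M} (h : X ≤ Y) : R c w X ≤ R c w Y := by
  unfold R
  refine Finset.sum_le_sum fun k _ => ?_
  by_cases h1 : Sep c k X
  · have h2 : Sep c k Y := by
      obtain ⟨h3, h4⟩ := h1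
      constructor
      · exact h3.trans_le (Multiset.card_le_card (Multiset.filter_le_filter _ h))
      · unfold N at h4 ⊢
        by_contra hcon
        push Not at hcon
        have h5 : (Y.filter fun x => c k x = true) = Y :=
          Multiset.eq_of_le_of_card_le (Multiset.filter_le _ _) hcon
        rw [Multiset.filter_eq_self] at h5
        have h6 : (X.filter fun x => c k x = true) = X :=
          Multiset.filter_eq_self.2 fun a ha => h5 a (Multiset.mem_of_le h ha)
        rw [h6] at h4
        exact lt_irrefl _ h4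
    rw [if_pos h1, if_pos h2]
  · rw [if_neg h1]
    split_ifs
    · exact hw k
    · exact le_rfl

end basic

theorem cost_add (c : K → M → Bool) (w : K → ℝ) (P Q : Multiset (M × M)) :
    cost c w (P + Q) = cost c w P + cost c w Q := by
  unfold cost
  rw [Multiset.map_add, Multiset.sum_add]

/-- the number of pairs separated by `k` -/
def S (c : K → M → Bool) (k : K) (P : Multiset (M × M)) : ℕ :=
  (P.filter fun p => c k p.1 ≠ c k p.2).card

theorem cost_eq (c : K → M → Bool) (w : K → ℝ) (P : Multiset (M × M)) :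
    cost c w P = ∑ k, w k * (S c k P : ℝ) := by
  unfold cost S
  induction P using Multiset.induction_on with
  | empty => simp
  | cons p P ih =>
    rw [Multiset.map_cons, Multiset.sum_cons, ih, rho, ← Finset.sum_add_distrib]
    refine Finset.sum_congr rfl fun k _ => ?_
    by_cases h : c k p.1 ≠ c k p.2
    · rw [if_pos h, Multiset.filter_cons_of_pos (p := fun q : M × M => c k q.1 ≠ c k q.2) _ h,
        Multiset.card_cons]
      push_cast; ring
    · rw [if_neg h, Multiset.filter_cons_of_neg (p := fun q : M × M => c k q.1 ≠ c k q.2) _ h]; ring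

/-- `N` along a matching. -/
theorem N_map_fst (c : K → M → Bool) (k : K) (P : Multiset (M × M)) :
    N c k (P.map Prod.fst) = (P.filter fun p => c k p.1 = true).card := by
  unfold N
  rw [Multiset.filter_map, Multiset.card_map]; rfl

theorem N_map_snd (c : K → M → Bool) (k : K) (P : Multiset (M × M)) :
    N c k (P.map Prod.snd) = (P.filter fun p => c k p.2 = true).card := by
  unfold N
  rw [Multiset.filter_map, Multiset.card_map]; rfl

theorem abs_N_sub_le (c : K → M → Bool) (k : K) (P : Multiset (M × M)) :
    |(N c k (P.map Prod.fst) : ℝ) - N c k (P.map Prod.snd)| ≤ S c k P := by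
  rw [N_map_fst, N_map_snd]
  unfold S
  induction P using Multiset.induction_on with
  | empty => simp
  | cons p P ih =>
    rw [abs_le] at ih ⊢
    cases h1 : c k p.1 <;> cases h2 : c k p.2 <;>
      simp [h1, h2, Multiset.filter_cons_of_pos, Multiset.filter_cons_of_neg] at ih ⊢ <;>
      constructor <;> linarith [ih.1, ih.2]

theorem A_le_cost (c : K → M → Bool) (w : K → ℝ) (hw : ∀ k, 0 ≤ w k) (P : Multiset (M × M)) :
    A c w (P.map Prod.fst) (P.map Prod.snd) ≤ cost c w P := by
  rw [cost_eq]
  exact Finset.sum_le_sum fun k _ => mul_le_mul_of_nonneg_left (abs_N_sub_le c k P) (hw k)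

end Pool.Agent.H799R2.Cuts
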