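import Pool.Agent.H799R2.CutStep

set_option autoImplicit false
set_option linter.unusedSectionVars false

namespace Pool.Agent.H799R2.Cuts

open Finset

variable {M K : Type} [Fintype K]

section step

variable {ι : Type} [Fintype ι] (c : K → M → Bool) (w : K → ℝ) (G : Multiset M → ι → ℝ)
variable (hw : ∀ k, 0 ≤ w k)
include hw

omit hw in
theorem S_zero_iff (k : K) (P : Multiset (M × M)) :
    S c k P = 0 ↔ ∀ p ∈ P, c k p.1 = c k p.2 := by
  unfold S
  rw [Multiset.card_eq_zero, Multiset.filter_eq_nil]
  simp

/-- The new function is Lipschitz. -/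
theorem G'_lip {s : ℕ} {C : ℝ} (hC : 0 ≤ C)
    (hG : ∀ X : Multiset M, X.card ≤ s → l1 (G X) ≤ C * R c w X)
    (hL : ∀ P : Multiset (M × M), P.card ≤ s →
      l1 (G (P.map Prod.fst) - G (P.map Prod.snd)) ≤ C * cost c w P)
    {P : Multiset (M × M)} (hP : P.card ≤ s + 1) :
    l1 (G' c w G (P.map Prod.fst) - G' c w G (P.map Prod.snd)) ≤
      ((((s + 1 : ℕ) : ℝ) + C) + 3 * (((s + 1 : ℕ) : ℝ) ^ 2 + 2 * C)) * cost c w P := by
  set X := P.map Prod.fst with hX
  set Y := P.map Prod.snd with hY
  set B : ℝ := ((s + 1 : ℕ) : ℝ) ^ 2 + 2 * C with hB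
  set B' : ℝ := ((s + 1 : ℕ) : ℝ) + C with hB'
  set t := cost c w P with ht
  have ht0 : 0 ≤ t := cost_nonneg c w hw P
  have hB0 : 0 ≤ B := by positivity
  have hB'0 : 0 ≤ B' := by positivity
  have hXc : X.card = P.card := Multiset.card_map _ _
  have hYc : Y.card = P.card := Multiset.card_map _ _
  have hXY : X.card = Y.card := by rw [hXc, hYc]
  have hR : |R c w X - R c w Y| ≤ t := (abs_R_sub_le c w hw hXY).trans (A_le_cost c w hw P)
  rw [l1_G'_sub]
  have key : ∀ k, l1 (a c w k X • T c w G k X - a c w k Y • T c w G k Y) ≤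
      a c w k X * ((B' + B) * t) + 2 * B * (w k * (S c k P : ℝ)) := by
    intro k
    by_cases hS : S c k P = 0
    · have hgood := (S_zero_iff c k P).1 hS
      have hN : N c k X = N c k Y := by
        have := abs_N_sub_le c k P
        rw [hS] at this
        have h0 : (N c k X : ℝ) - N c k Y = 0 := abs_nonpos_iff.1 (by simpa using this)
        have h1 : (N c k X : ℝ) = N c k Y := by linarith
        exact_mod_cast h1
      have hsep := sep_congr c hXY hN
      rw [hS]
      simp only [CharP.cast_eq_zero, mul_zero, add_zero]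
      by_cases hk : Sep c k X
      · have hk' : Sep c k Y := hsep.1 hk
        have hwX := w_le_R c w hw hk
        have hwY := w_le_R c w hw hk'
        rcases (hw k).eq_or_lt with h0 | hpos
        · have e1 : a c w k X = 0 := by unfold a; rw [← h0]; simp
          have e2 : a c w k Y = 0 := by unfold a; rw [← h0]; simp
          rw [e1, e2]; simp [l1_zero]
        · have hRX : 0 < R c w X := hpos.trans_le hwX
          have hRY : 0 < R c w Y := hpos.trans_le hwY
          have haX : a c w k X = w k / R c w X := by unfold a; rw [if_pos hk]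
          have haY : a c w k Y = w k / R c w Y := by unfold a; rw [if_pos hk']
          have hTY : l1 (T c w G k Y) ≤ B * R c w Y :=
            T_size c w G hw hC hG (by rw [hYc]; exact hP) hk'
          have hTXY : l1 (T c w G k X - T c w G k Y) ≤ B' * t :=
            T_lip c w G hw hC hL hP hk hgood
          have hdec : a c w k X • T c w G k X - a c w k Y • T c w G k Y =
              a c w k X • (T c w G k X - T c w G k Y) +
                (a c w k X - a c w k Y) • T c w G k Y := by
            rw [smul_sub, sub_smul]; abel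
          rw [hdec]
          refine (l1_add_le _ _).trans ?_
          rw [l1_smul, l1_smul, abs_of_nonneg (a_nonneg c w hw k X)]
          have h1 : a c w k X * l1 (T c w G k X - T c w G k Y) ≤ a c w k X * (B' * t) :=
            mul_le_mul_of_nonneg_left hTXY (a_nonneg c w hw k X)
          have h2 : |a c w k X - a c w k Y| * l1 (T c w G k Y) ≤ a c w k X * (B * t) := by
            have h3 : a c w k X - a c w k Y = (a c w k X / R c w Y) * (R c w Y - R c w X) := by
              rw [haX, haY]
              field_simp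
            have h4 : |a c w k X - a c w k Y| ≤ (a c w k X / R c w Y) * t := by
              rw [h3, abs_mul, abs_of_nonneg (div_nonneg (a_nonneg c w hw k X) hRY.le),
                abs_sub_comm]
              exact mul_le_mul_of_nonneg_left hR (div_nonneg (a_nonneg c w hw k X) hRY.le)
            calc |a c w k X - a c w k Y| * l1 (T c w G k Y)
                ≤ ((a c w k X / R c w Y) * t) * (B * R c w Y) :=
                  mul_le_mul h4 hTY (l1_nonneg _)
                    (mul_nonneg (div_nonneg (a_nonneg c w hw k X) hRY.le) ht0)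
              _ = a c w k X * (B * t) := by field_simp
          nlinarith
      · have hk' : ¬ Sep c k Y := fun h => hk (hsep.2 h)
        have e1 : a c w k X = 0 := by unfold a; rw [if_neg hk]
        have e2 : a c w k Y = 0 := by unfold a; rw [if_neg hk']
        rw [e1, e2]; simp [l1_zero]
    · have hS1 : (1 : ℝ) ≤ S c k P := by exact_mod_cast Nat.one_le_iff_ne_zero.2 hS
      have h1 := l1_a_T c w G hw hC hG k (X := X) (by rw [hXc]; exact hP)
      have h2 := l1_a_T c w G hw hC hG k (X := Y) (by rw [hYc]; exact hP)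
      have h3 : (if Sep c k X then w k else 0) ≤ w k := by
        split_ifs
        · exact le_rfl
        · exact hw k
      have h4 : (if Sep c k Y then w k else 0) ≤ w k := by
        split_ifs
        · exact le_rfl
        · exact hw k
      have h5 := mul_le_mul_of_nonneg_left h3 hB0
      have h6 := mul_le_mul_of_nonneg_left h4 hB0
      have h7 : 0 ≤ a c w k X * ((B' + B) * t) :=
        mul_nonneg (a_nonneg c w hw k X) (by positivity)
      have h8 : B * w k ≤ B * (w k * (S c k P : ℝ)) := by
        refine mul_le_mul_of_nonneg_left ?_ hB0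
        calc w k = w k * 1 := (mul_one _).symm
          _ ≤ _ := mul_le_mul_of_nonneg_left hS1 (hw k)
      have h9 := l1_sub_le (a c w k X • T c w G k X) (a c w k Y • T c w G k Y)
      linarith
  refine (Finset.sum_le_sum fun k _ => key k).trans ?_
  rw [Finset.sum_add_distrib, ← Finset.sum_mul, ← Finset.mul_sum, ← cost_eq, ← ht]
  have h1 : (∑ k, a c w k X) * ((B' + B) * t) ≤ 1 * ((B' + B) * t) :=
    mul_le_mul_of_nonneg_right (sum_a_le c w hw X) (by positivity)
  linarith

omit hw in
/-- A matching exists between any two configurations of the same size. -/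
theorem exists_matching (X Y : Multiset M) (h : X.card = Y.card) :
    ∃ P : Multiset (M × M), P.map Prod.fst = X ∧ P.map Prod.snd = Y := by
  induction X using Quotient.inductionOn with
  | h l₁ =>
    induction Y using Quotient.inductionOn with
    | h l₂ =>
      simp only [Multiset.quot_mk_to_coe, Multiset.coe_card] at h
      refine ⟨((l₁.zip l₂ : List (M × M)) : Multiset (M × M)), ?_, ?_⟩
      · rw [Multiset.map_coe, List.map_fst_zip (by omega)]; rfl
      · rw [Multiset.map_coe, List.map_snd_zip (by omega)]; rfl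

/-- Crude bound of distances between points of two configurations. -/
theorem rho_le {X Y : Multiset M} (hc : X.card = Y.card) {x y : M} (hx : x ∈ X) (hy : y ∈ Y) :
    rho c w x y ≤ R c w X + R c w Y + A c w X Y := by
  unfold rho R A
  rw [← Finset.sum_add_distrib, ← Finset.sum_add_distrib]
  refine Finset.sum_le_sum fun k _ => ?_
  have hwk := hw k
  have hA : 0 ≤ w k * |(N c k X : ℝ) - N c k Y| := mul_nonneg hwk (abs_nonneg _)
  by_cases hxy : c k x ≠ c k y
  · rw [if_pos hxy]
    by_cases h1 : Sep c k X
    · rw [if_pos h1]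
      split_ifs <;> linarith
    by_cases h2 : Sep c k Y
    · rw [if_pos h2]
      split_ifs; linarith
    · rw [if_neg h1, if_neg h2]
      have hX0 : 0 < X.card := Multiset.card_pos_iff_exists_mem.2 ⟨x, hx⟩
      have hN : ∀ (Z : Multiset M) (z : M), z ∈ Z → ¬ Sep c k Z →
          (c k z = true → N c k Z = Z.card) ∧ (c k z = false → N c k Z = 0) := by
        intro Z z hz hns
        unfold Sep at hns
        have hle := N_le c k Z
        constructor
        · intro hz1
          have : 0 < N c k Z := by
            unfold N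
            exact Multiset.card_pos_iff_exists_mem.2 ⟨z, Multiset.mem_filter.2 ⟨hz, hz1⟩⟩
          by_contra hcon
          exact hns ⟨this, lt_of_le_of_ne hle hcon⟩
        · intro hz1
          have : N c k Z < Z.card := by
            by_contra hcon
            push Not at hcon
            have h5 : (Z.filter fun x => c k x = true) = Z :=
              Multiset.eq_of_le_of_card_le (Multiset.filter_le _ _) hcon
            rw [Multiset.filter_eq_self] at h5
            have := h5 z hz
            rw [hz1] at this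
            exact Bool.false_ne_true this
          by_contra hcon
          exact hns ⟨Nat.pos_of_ne_zero hcon, this⟩
      obtain ⟨hX1, hX2⟩ := hN X x hx h1
      obtain ⟨hY1, hY2⟩ := hN Y y hy h2
      have hcard1 : (1 : ℝ) ≤ X.card := by exact_mod_cast hX0
      have h3 : (1 : ℝ) ≤ |(N c k X : ℝ) - N c k Y| := by
        cases hcx : c k x
        · have hcy : c k y = true := by
            cases hcy : c k y
            · rw [hcx, hcy] at hxy; exact absurd rfl hxy
            · rfl
          rw [hX2 hcx, hY1 hcy, ← hc]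
          simp only [CharP.cast_eq_zero, zero_sub, abs_neg, Nat.abs_cast]
          exact hcard1
        · have hcy : c k y = false := by
            cases hcy : c k y
            · rfl
            · rw [hcx, hcy] at hxy; exact absurd rfl hxy
          rw [hX1 hcx, hY2 hcy]
          simp only [CharP.cast_eq_zero, sub_zero, Nat.abs_cast]
          exact hcard1
      have h4 : w k * 1 ≤ w k * |(N c k X : ℝ) - N c k Y| := mul_le_mul_of_nonneg_left h3 hwk
      linarith
  · rw [if_neg hxy]
    split_ifs <;> linarith

theorem cost_le_card {P : Multiset (M × M)} {b : ℝ} (h : ∀ p ∈ P, rho c w p.1 p.2 ≤ b) :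
    cost c w P ≤ P.card * b := by
  unfold cost
  have := Multiset.sum_le_card_nsmul (P.map fun p => rho c w p.1 p.2) b (by
    intro x hx
    obtain ⟨p, hp, rfl⟩ := Multiset.mem_map.1 hx
    exact h p hp)
  rw [Multiset.card_map, nsmul_eq_mul] at this
  exact this

/-- Recovering the positions of the two parts. -/
theorem A_parts {s : ℕ} {k : K} {X Y : Multiset M} (hc : X.card = Y.card) (hX : X.card ≤ s + 1)
    (hN : N c k X = N c k Y) (hk : Sep c k X) :
    A c w (X1 c k X) (X1 c k Y) ≤ (∑ l, |w l * D c k l X - w l * D c k l Y|) + A c w X Y ∧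
    A c w (X0 c k X) (X0 c k Y) ≤ (∑ l, |w l * D c k l X - w l * D c k l Y|) + A c w X Y := by
  have hcX := card_X1_add c k X
  have hcY := card_X1_add c k Y
  have e1 : (X1 c k Y).card = (X1 c k X).card := by rw [card_X1, card_X1, hN]
  have e0 : (X0 c k Y).card = (X0 c k X).card := by omega
  have hn1 : 1 ≤ (X1 c k X).card := hk.1
  have hn0 : 1 ≤ (X0 c k X).card := by
    have := hk.2; rw [← card_X1] at this; omega
  have hn1' : (1 : ℝ) ≤ (X1 c k X).card := by exact_mod_cast hn1
  have hn0' : (1 : ℝ) ≤ (X0 c k X).card := by exact_mod_cast hn0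
  set n1 : ℝ := (((X1 c k X).card : ℕ) : ℝ) with hdn1
  set n0 : ℝ := (((X0 c k X).card : ℕ) : ℝ) with hdn0
  -- termwise estimates
  have key : ∀ l, w l * |(N c l (X1 c k X) : ℝ) - N c l (X1 c k Y)| ≤
        |w l * D c k l X - w l * D c k l Y| + w l * |(N c l X : ℝ) - N c l Y| ∧
      w l * |(N c l (X0 c k X) : ℝ) - N c l (X0 c k Y)| ≤
        |w l * D c k l X - w l * D c k l Y| + w l * |(N c l X : ℝ) - N c l Y| := by
    intro l
    have hsX : (N c l (X1 c k X) : ℝ) + N c l (X0 c k X) = N c l X := by
      exact_mod_cast N_split c k l X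
    have hsY : (N c l (X1 c k Y) : ℝ) + N c l (X0 c k Y) = N c l Y := by
      exact_mod_cast N_split c k l Y
    have hDX : D c k l X = n0 * N c l (X1 c k X) - n1 * N c l (X0 c k X) := rfl
    have hDY : D c k l Y = n0 * N c l (X1 c k Y) - n1 * N c l (X0 c k Y) := by
      unfold D; rw [e1, e0]
    set u := (N c l (X1 c k X) : ℝ) - N c l (X1 c k Y) with hu
    set v := (N c l (X0 c k X) : ℝ) - N c l (X0 c k Y) with hv
    have h1 : (N c l X : ℝ) - N c l Y = u + v := by rw [← hsX, ← hsY]; ring
    have h2 : D c k l X - D c k l Y = n0 * u - n1 * v := by rw [hDX, hDY]; ring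
    rw [← mul_sub, abs_mul, abs_of_nonneg (hw l), h1, h2, ← mul_add, ]
    have hpos : 0 < n0 + n1 := by linarith
    have h3 : (n0 + n1) * |u| ≤ (n0 + n1) * (|n0 * u - n1 * v| + |u + v|) := by
      have : (n0 + n1) * u = (n0 * u - n1 * v) + n1 * (u + v) := by ring
      calc (n0 + n1) * |u| = |(n0 + n1) * u| := by rw [abs_mul, abs_of_pos hpos]
        _ = |(n0 * u - n1 * v) + n1 * (u + v)| := by rw [this]
        _ ≤ |n0 * u - n1 * v| + |n1 * (u + v)| := abs_add_le _ _
        _ = |n0 * u - n1 * v| + n1 * |u + v| := by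
            rw [abs_mul n1, abs_of_nonneg (by linarith : 0 ≤ n1)]
        _ ≤ _ := by nlinarith [abs_nonneg (n0 * u - n1 * v), abs_nonneg (u + v)]
    have h4 : (n0 + n1) * |v| ≤ (n0 + n1) * (|n0 * u - n1 * v| + |u + v|) := by
      have : (n0 + n1) * v = n0 * (u + v) - (n0 * u - n1 * v) := by ring
      calc (n0 + n1) * |v| = |(n0 + n1) * v| := by rw [abs_mul, abs_of_pos hpos]
        _ = |n0 * (u + v) - (n0 * u - n1 * v)| := by rw [this]
        _ ≤ |n0 * (u + v)| + |n0 * u - n1 * v| := abs_sub _ _
        _ = n0 * |u + v| + |n0 * u - n1 * v| := by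
            rw [abs_mul n0, abs_of_nonneg (by linarith : 0 ≤ n0)]
        _ ≤ _ := by nlinarith [abs_nonneg (n0 * u - n1 * v), abs_nonneg (u + v)]
    exact ⟨mul_le_mul_of_nonneg_left (le_of_mul_le_mul_left h3 hpos) (hw l),
      mul_le_mul_of_nonneg_left (le_of_mul_le_mul_left h4 hpos) (hw l)⟩
  unfold A
  rw [← Finset.sum_add_distrib]
  exact ⟨Finset.sum_le_sum fun l _ => (key l).1, Finset.sum_le_sum fun l _ => (key l).2⟩

/-- The lower bound for the new function. -/
theorem G'_lower {s : ℕ} {C : ℝ} (hC : 0 ≤ C)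
    (hG : ∀ X : Multiset M, X.card ≤ s → l1 (G X) ≤ C * R c w X)
    (hM : ∀ X Y : Multiset M, X.card = Y.card → X.card ≤ s →
      ∃ P : Multiset (M × M), P.map Prod.fst = X ∧ P.map Prod.snd = Y ∧
        cost c w P ≤ C * (A c w X Y + l1 (G X - G Y)))
    {X Y : Multiset M} (hXY : X.card = Y.card) (hX : X.card ≤ s + 1) :
    ∃ P : Multiset (M × M), P.map Prod.fst = X ∧ P.map Prod.snd = Y ∧
      cost c w P ≤ (10 * ((s + 1 : ℕ) : ℝ) +
        C * (6 + 4 * (((s + 1 : ℕ) : ℝ) ^ 2 + 2 * C))) *
          (A c w X Y + l1 (G' c w G X - G' c w G Y)) := by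
  set B : ℝ := ((s + 1 : ℕ) : ℝ) ^ 2 + 2 * C with hB
  have hB0 : 0 ≤ B := by positivity
  set E : ℝ := A c w X Y + l1 (G' c w G X - G' c w G Y) with hE
  have hA0 := A_nonneg c w hw X Y
  have hl0 : 0 ≤ l1 (G' c w G X - G' c w G Y) := l1_nonneg _
  have hE0 : 0 ≤ E := by positivity
  have hRX0 := R_nonneg c w hw X
  have hRY0 := R_nonneg c w hw Y
  have hRR := abs_R_sub_le c w hw hXY
  rw [abs_le] at hRR
  by_cases hcase : R c w X ≤ 4 * A c w X Y
  · -- crude matching
    obtain ⟨P, hP1, hP2⟩ := exists_matching X Y hXY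
    refine ⟨P, hP1, hP2, ?_⟩
    have h1 : cost c w P ≤ P.card * (R c w X + R c w Y + A c w X Y) := by
      refine cost_le_card c w hw fun p hp => ?_
      refine rho_le c w hw hXY ?_ ?_
      · rw [← hP1]; exact Multiset.mem_map_of_mem _ hp
      · rw [← hP2]; exact Multiset.mem_map_of_mem _ hp
    have hcard : P.card = X.card := by rw [← hP1, Multiset.card_map]
    have h2 : (P.card : ℝ) ≤ ((s + 1 : ℕ) : ℝ) := by
      rw [hcard]; exact_mod_cast hX
    have h3 : R c w X + R c w Y + A c w X Y ≤ 10 * E := by linarith [hRR.1]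
    calc cost c w P ≤ P.card * (R c w X + R c w Y + A c w X Y) := h1
      _ ≤ ((s + 1 : ℕ) : ℝ) * (10 * E) := mul_le_mul h2 h3 (by positivity) (Nat.cast_nonneg _)
      _ ≤ _ := by
        have : 0 ≤ C * (6 + 4 * B) * E := by positivity
        nlinarith
  · push Not at hcase
    have hRX : 0 < R c w X := by linarith
    have hRY : 0 < R c w Y := by linarith [hRR.2]
    -- good cuts
    set Gd : Finset K := Finset.univ.filter fun k => Sep c k X ∧ N c k X = N c k Y with hGd
    have hGdw : R c w X - A c w X Y ≤ ∑ k ∈ Gd, w k := by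
      have : R c w X ≤ (∑ k ∈ Gd, w k) + A c w X Y := by
        rw [hGd, Finset.sum_filter]
        unfold R A
        rw [← Finset.sum_add_distrib]
        refine Finset.sum_le_sum fun k _ => ?_
        have hwk := hw k
        by_cases hs : Sep c k X
        · rw [if_pos hs]
          by_cases hN : N c k X = N c k Y
          · rw [if_pos ⟨hs, hN⟩]
            have : 0 ≤ w k * |(N c k X : ℝ) - N c k Y| := mul_nonneg hwk (abs_nonneg _)
            linarith
          · rw [if_neg (fun h => hN h.2)]
            have h1 : (1 : ℝ) ≤ |(N c k X : ℝ) - N c k Y| := by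
              have : (N c k X : ℤ) - N c k Y ≠ 0 := by
                intro h; apply hN; omega
              have h2 : (1 : ℤ) ≤ |(N c k X : ℤ) - N c k Y| := Int.one_le_abs this
              exact_mod_cast h2
            have h2 : w k * 1 ≤ w k * |(N c k X : ℝ) - N c k Y| :=
              mul_le_mul_of_nonneg_left h1 hwk
            linarith
        · rw [if_neg hs, if_neg (fun h => hs h.1)]
          have : 0 ≤ w k * |(N c k X : ℝ) - N c k Y| := mul_nonneg hwk (abs_nonneg _)
          linarith
      linarith
    have hGpos : 3 / 4 * R c w X < ∑ k ∈ Gd, w k := by linarith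
    -- lower bound of the good terms
    have hterm : ∀ k ∈ Gd, w k * (l1 (T c w G k X - T c w G k Y) - B * A c w X Y) ≤
        R c w X * l1 (a c w k X • T c w G k X - a c w k Y • T c w G k Y) := by
      intro k hk
      obtain ⟨-, hs, hN⟩ := Finset.mem_filter.1 hk
      have hs' : Sep c k Y := (sep_congr c hXY hN).1 hs
      have haX : a c w k X = w k / R c w X := by unfold a; rw [if_pos hs]
      have haY : a c w k Y = w k / R c w Y := by unfold a; rw [if_pos hs']
      have hTY : l1 (T c w G k Y) ≤ B * R c w Y :=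
        T_size c w G hw hC hG (by rw [← hXY]; exact hX) hs'
      have hdec : a c w k X • (T c w G k X - T c w G k Y) =
          (a c w k X • T c w G k X - a c w k Y • T c w G k Y) +
            (a c w k Y - a c w k X) • T c w G k Y := by
        rw [smul_sub, sub_smul]; abel
      have h1 : a c w k X * l1 (T c w G k X - T c w G k Y) ≤
          l1 (a c w k X • T c w G k X - a c w k Y • T c w G k Y) +
            |a c w k Y - a c w k X| * l1 (T c w G k Y) := by
        have h2 := l1_add_le (a c w k X • T c w G k X - a c w k Y • T c w G k Y)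
          ((a c w k Y - a c w k X) • T c w G k Y)
        rw [← hdec, l1_smul, l1_smul, abs_of_nonneg (a_nonneg c w hw k X)] at h2
        exact h2
      have h3 : a c w k Y - a c w k X = (a c w k X / R c w Y) * (R c w X - R c w Y) := by
        rw [haX, haY]
        field_simp
      have h4 : |a c w k Y - a c w k X| ≤ (a c w k X / R c w Y) * A c w X Y := by
        rw [h3, abs_mul, abs_of_nonneg (div_nonneg (a_nonneg c w hw k X) hRY.le)]
        exact mul_le_mul_of_nonneg_left (abs_le.2 hRR) (div_nonneg (a_nonneg c w hw k X) hRY.le)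
      have h5 : |a c w k Y - a c w k X| * l1 (T c w G k Y) ≤ a c w k X * (B * A c w X Y) :=
        calc |a c w k Y - a c w k X| * l1 (T c w G k Y)
            ≤ ((a c w k X / R c w Y) * A c w X Y) * (B * R c w Y) :=
              mul_le_mul h4 hTY (l1_nonneg _)
                (mul_nonneg (div_nonneg (a_nonneg c w hw k X) hRY.le) hA0)
          _ = a c w k X * (B * A c w X Y) := by field_simp
      have h6 : a c w k X * (l1 (T c w G k X - T c w G k Y) - B * A c w X Y) ≤
          l1 (a c w k X • T c w G k X - a c w k Y • T c w G k Y) := by nlinarith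
      have h7 := mul_le_mul_of_nonneg_left h6 hRX.le
      have h8 : R c w X * (a c w k X * (l1 (T c w G k X - T c w G k Y) - B * A c w X Y)) =
          w k * (l1 (T c w G k X - T c w G k Y) - B * A c w X Y) := by
        rw [haX]; field_simp
      rwa [h8] at h7
    have hsum : ∑ k ∈ Gd, w k * (l1 (T c w G k X - T c w G k Y) - B * A c w X Y) ≤
        R c w X * E := by
      calc _ ≤ ∑ k ∈ Gd, R c w X * l1 (a c w k X • T c w G k X - a c w k Y • T c w G k Y) :=
            Finset.sum_le_sum hterm
        _ ≤ ∑ k, R c w X * l1 (a c w k X • T c w G k X - a c w k Y • T c w G k Y) :=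
            Finset.sum_le_sum_of_subset_of_nonneg (Finset.subset_univ _)
              fun k _ _ => mul_nonneg hRX0 (l1_nonneg _)
        _ = R c w X * l1 (G' c w G X - G' c w G Y) := by rw [← Finset.mul_sum, l1_G'_sub]
        _ ≤ R c w X * E := mul_le_mul_of_nonneg_left (by linarith) hRX0
    obtain ⟨k, hk, hτ⟩ : ∃ k ∈ Gd, l1 (T c w G k X - T c w G k Y) ≤ 4 / 3 * (1 + B) * E := by
      by_contra hcon
      push Not at hcon
      have hAE : A c w X Y ≤ E := by linarith
      have h1 : ∑ k ∈ Gd, w k * (4 / 3 * (1 + B) * E - B * E) ≤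
          ∑ k ∈ Gd, w k * (l1 (T c w G k X - T c w G k Y) - B * A c w X Y) := by
        refine Finset.sum_le_sum fun k hk => mul_le_mul_of_nonneg_left ?_ (hw k)
        have := hcon k hk
        nlinarith
      rw [← Finset.sum_mul] at h1
      have h2 : (∑ k ∈ Gd, w k) * (4 / 3 * (1 + B) * E - B * E) ≤ R c w X * E := h1.trans hsum
      -- need strictness
      obtain ⟨k0, hk0, hk0pos⟩ : ∃ k ∈ Gd, 0 < w k := by
        by_contra hno
        push Not at hno
        have : ∑ k ∈ Gd, w k ≤ 0 := Finset.sum_nonpos hno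
        linarith
      rcases hE0.eq_or_lt with hE1 | hE1
      · -- `E = 0`
        have h3 : A c w X Y = 0 := by linarith
        have h4 := hterm k0 hk0
        have h5 := hcon k0 hk0
        have h6 : R c w X * l1 (a c w k0 X • T c w G k0 X - a c w k0 Y • T c w G k0 Y) ≤ 0 := by
          have h7 : l1 (a c w k0 X • T c w G k0 X - a c w k0 Y • T c w G k0 Y) ≤
              l1 (G' c w G X - G' c w G Y) := by
            rw [l1_G'_sub]
            exact Finset.single_le_sum
              (f := fun k => l1 (a c w k X • T c w G k X - a c w k Y • T c w G k Y))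
              (fun i _ => l1_nonneg _) (Finset.mem_univ k0)
          have h8 : l1 (G' c w G X - G' c w G Y) ≤ 0 := by linarith
          exact mul_nonpos_of_nonneg_of_nonpos hRX0 (h7.trans h8)
        rw [h3, ← hE1] at *
        rw [mul_zero, sub_zero] at h4
        rw [mul_zero] at h5
        have h9 : 0 < w k0 * l1 (T c w G k0 X - T c w G k0 Y) := mul_pos hk0pos h5
        linarith
      · have h3 : 4 / 3 * (1 + B) * E - B * E = (4 / 3 + B / 3) * E := by ring
        rw [h3] at h2
        have h4 : 3 / 4 * R c w X * ((4 / 3 + B / 3) * E) <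
            (∑ k ∈ Gd, w k) * ((4 / 3 + B / 3) * E) :=
          mul_lt_mul_of_pos_right hGpos (by positivity)
        have h5 : 3 / 4 * R c w X * ((4 / 3 + B / 3) * E) = R c w X * E + R c w X * B * E / 4 := by
          ring
        have h6 : 0 ≤ R c w X * B * E / 4 := by positivity
        linarith
    obtain ⟨-, hs, hN⟩ := Finset.mem_filter.1 hk
    have hcX := card_X1_add c k X
    have hcY := card_X1_add c k Y
    have e1 : (X1 c k X).card = (X1 c k Y).card := by rw [card_X1, card_X1, hN]
    have e0 : (X0 c k X).card = (X0 c k Y).card := by omega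
    have hs1 := hs.1
    have hs2 := hs.2
    rw [← card_X1] at hs1 hs2
    obtain ⟨P1, hP1a, hP1b, hP1c⟩ := hM (X1 c k X) (X1 c k Y) e1 (by omega)
    obtain ⟨P0, hP0a, hP0b, hP0c⟩ := hM (X0 c k X) (X0 c k Y) e0 (by omega)
    refine ⟨P1 + P0, ?_, ?_, ?_⟩
    · rw [Multiset.map_add, hP1a, hP0a, X1_add_X0]
    · rw [Multiset.map_add, hP1b, hP0b, X1_add_X0]
    · rw [cost_add]
      obtain ⟨hA1, hA2⟩ := A_parts c w hw hXY hX hN hs
      rw [l1_T_sub] at hτ
      have hg1 : 0 ≤ l1 (G (X1 c k X) - G (X1 c k Y)) := l1_nonneg _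
      have hg0 : 0 ≤ l1 (G (X0 c k X) - G (X0 c k Y)) := l1_nonneg _
      have hd : 0 ≤ ∑ l, |w l * D c k l X - w l * D c k l Y| :=
        Finset.sum_nonneg fun l _ => abs_nonneg _
      have hAE : A c w X Y ≤ E := by linarith
      have h1 : (A c w (X1 c k X) (X1 c k Y) + l1 (G (X1 c k X) - G (X1 c k Y))) +
          (A c w (X0 c k X) (X0 c k Y) + l1 (G (X0 c k X) - G (X0 c k Y))) ≤
          (6 + 4 * B) * E := by
        have : 0 ≤ B * E := by positivity
        nlinarith
      calc cost c w P1 + cost c w P0 ≤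
          C * ((A c w (X1 c k X) (X1 c k Y) + l1 (G (X1 c k X) - G (X1 c k Y))) +
          (A c w (X0 c k X) (X0 c k Y) + l1 (G (X0 c k X) - G (X0 c k Y)))) := by
            rw [mul_add]; exact add_le_add hP1c hP0c
        _ ≤ C * ((6 + 4 * B) * E) := mul_le_mul_of_nonneg_left h1 hC
        _ ≤ _ := by
          have : 0 ≤ 10 * ((s + 1 : ℕ) : ℝ) * E := by positivity
          nlinarith

end step

/-- **Core theorem.**  For every `s` there is a constant `C` such that, for every set with a finite
weighted family of cuts, there is a map `G` on configurations with the three properties below. -/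
theorem exists_good (s : ℕ) : ∃ C : ℝ, 0 ≤ C ∧ ∀ (M K : Type) (_ : Fintype K)
    (c : K → M → Bool) (w : K → ℝ), (∀ k, 0 ≤ w k) →
    ∃ (ι : Type) (_ : Fintype ι) (G : Multiset M → ι → ℝ),
      (∀ X : Multiset M, X.card ≤ s → l1 (G X) ≤ C * R c w X) ∧
      (∀ P : Multiset (M × M), P.card ≤ s →
        l1 (G (P.map Prod.fst) - G (P.map Prod.snd)) ≤ C * cost c w P) ∧
      (∀ X Y : Multiset M, X.card = Y.card → X.card ≤ s →
        ∃ P : Multiset (M × M), P.map Prod.fst = X ∧ P.map Prod.snd = Y ∧
          cost c w P ≤ C * (A c w X Y + l1 (G X - G Y))) := by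
  induction s with
  | zero =>
    refine ⟨0, le_rfl, ?_⟩
    intro M K _ c w hw
    refine ⟨Unit, inferInstance, fun _ => 0, ?_, ?_, ?_⟩
    · intro X _; simp [l1_zero]
    · intro P _; simp [l1_zero]
    · intro X Y hXY hX
      have hX0 : X = 0 := Multiset.card_eq_zero.1 (by omega)
      have hY0 : Y = 0 := Multiset.card_eq_zero.1 (by omega)
      refine ⟨0, ?_, ?_, ?_⟩
      · rw [hX0]; rfl
      · rw [hY0]; rfl
      · simp [cost]
  | succ s ih =>
    obtain ⟨C, hC, ih⟩ := ih
    set B : ℝ := ((s + 1 : ℕ) : ℝ) ^ 2 + 2 * C with hB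
    set C' : ℝ := ((((s + 1 : ℕ) : ℝ) + C) + 3 * B) +
      (10 * ((s + 1 : ℕ) : ℝ) + C * (6 + 4 * B)) with hC'
    have hB0 : 0 ≤ B := by positivity
    refine ⟨C', by positivity, ?_⟩
    intro M K _ c w hw
    obtain ⟨ι, _, G, h1, h2, h3⟩ := ih M K inferInstance c w hw
    refine ⟨K × (K ⊕ (ι ⊕ ι)), inferInstance, G' c w G, ?_, ?_, ?_⟩
    · intro X hX
      refine (G'_size c w G hw hC h1 hX).trans
        (mul_le_mul_of_nonneg_right ?_ (R_nonneg c w hw X))
      have : 0 ≤ C * (6 + 4 * B) := by positivity
      have h5 : (0 : ℝ) ≤ ((s + 1 : ℕ) : ℝ) := Nat.cast_nonneg _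
      linarith
    · intro P hP
      refine (G'_lip c w G hw hC h1 h2 hP).trans
        (mul_le_mul_of_nonneg_right ?_ (cost_nonneg c w hw P))
      have : 0 ≤ C * (6 + 4 * B) := by positivity
      have h5 : (0 : ℝ) ≤ ((s + 1 : ℕ) : ℝ) := Nat.cast_nonneg _
      linarith
    · intro X Y hXY hX
      obtain ⟨P, hP1, hP2, hP3⟩ := G'_lower c w G hw hC h1 h3 hXY hX
      refine ⟨P, hP1, hP2, hP3.trans ?_⟩
      refine mul_le_mul_of_nonneg_right ?_
        (add_nonneg (A_nonneg c w hw _ _) (l1_nonneg _))
      have h5 : (0 : ℝ) ≤ ((s + 1 : ℕ) : ℝ) := Nat.cast_nonneg _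
      linarith

end Pool.Agent.H799R2.Cuts
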