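import Pool.Agent.H799R2.CutCore

set_option autoImplicit false
set_option linter.unusedSectionVars false

namespace Pool.Agent.H799R2.Cuts

open Finset

variable {M K : Type} [Fintype K]

/-- The part of `X` on the `true` side of `k`. -/
def X1 (c : K → M → Bool) (k : K) (X : Multiset M) : Multiset M := X.filter fun x => c k x = true
/-- The part of `X` on the `false` side of `k`. -/
def X0 (c : K → M → Bool) (k : K) (X : Multiset M) : Multiset M := X.filter fun x => ¬ c k x = true

theorem X1_add_X0 (c : K → M → Bool) (k : K) (X : Multiset M) : X1 c k X + X0 c k X = X :=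
  Multiset.filter_add_not _ _

theorem card_X1 (c : K → M → Bool) (k : K) (X : Multiset M) : (X1 c k X).card = N c k X := rfl

theorem card_X1_add (c : K → M → Bool) (k : K) (X : Multiset M) :
    (X1 c k X).card + (X0 c k X).card = X.card := by
  rw [← Multiset.card_add, X1_add_X0]

theorem N_add (c : K → M → Bool) (k : K) (X Y : Multiset M) :
    N c k (X + Y) = N c k X + N c k Y := by
  unfold N; rw [Multiset.filter_add, Multiset.card_add]

theorem N_split (c : K → M → Bool) (k l : K) (X : Multiset M) :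
    N c l (X1 c k X) + N c l (X0 c k X) = N c l X := by
  rw [← N_add, X1_add_X0]

theorem N_le (c : K → M → Bool) (k : K) (X : Multiset M) : N c k X ≤ X.card :=
  Multiset.card_le_card (Multiset.filter_le _ _)

/-- Relative position of the two parts. -/
def D (c : K → M → Bool) (k l : K) (X : Multiset M) : ℝ :=
  ((X0 c k X).card : ℝ) * N c l (X1 c k X) - ((X1 c k X).card : ℝ) * N c l (X0 c k X)

theorem D_eq_zero (c : K → M → Bool) (k l : K) (X : Multiset M) (h : ¬ Sep c l X) :
    D c k l X = 0 := by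
  unfold Sep at h
  have h1 := N_split c k l X
  have h2 := card_X1_add c k X
  have h3 := N_le c l (X1 c k X)
  have h4 := N_le c l (X0 c k X)
  have h5 : N c l X = 0 ∨ N c l X = X.card := by
    by_contra hcon
    push Not at hcon
    exact h ⟨Nat.pos_of_ne_zero hcon.1, lt_of_le_of_ne (N_le _ _ _) hcon.2⟩
  unfold D
  rcases h5 with h5 | h5
  · have h6 : N c l (X1 c k X) = 0 := by omega
    have h7 : N c l (X0 c k X) = 0 := by omega
    rw [h6, h7]; simp
  · have h6 : N c l (X1 c k X) = (X1 c k X).card := by omega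
    have h7 : N c l (X0 c k X) = (X0 c k X).card := by omega
    rw [h6, h7]; ring

theorem abs_D_le (c : K → M → Bool) (k l : K) (X : Multiset M) (s : ℕ) (hX : X.card ≤ s) :
    |D c k l X| ≤ (s : ℝ) ^ 2 := by
  have h2 := card_X1_add c k X
  have h3 : (N c l (X1 c k X) : ℝ) ≤ (X1 c k X).card := by exact_mod_cast N_le c l (X1 c k X)
  have h4 : (N c l (X0 c k X) : ℝ) ≤ (X0 c k X).card := by exact_mod_cast N_le c l (X0 c k X)
  have h5 : ((X1 c k X).card : ℝ) ≤ s := by exact_mod_cast (by omega : (X1 c k X).card ≤ s)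
  have h6 : ((X0 c k X).card : ℝ) ≤ s := by exact_mod_cast (by omega : (X0 c k X).card ≤ s)
  have h7 : (0 : ℝ) ≤ (X1 c k X).card := Nat.cast_nonneg _
  have h8 : (0 : ℝ) ≤ (X0 c k X).card := Nat.cast_nonneg _
  have h9 : (0 : ℝ) ≤ N c l (X1 c k X) := Nat.cast_nonneg _
  have h10 : (0 : ℝ) ≤ N c l (X0 c k X) := Nat.cast_nonneg _
  unfold D
  rw [abs_le]
  constructor <;> nlinarith [mul_le_mul h6 (h3.trans h5) h9 (h8.trans h6),
    mul_le_mul h5 (h4.trans h6) h10 (h7.trans h5), mul_nonneg h8 h9, mul_nonneg h7 h10]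

section step

variable {ι : Type} [Fintype ι] (c : K → M → Bool) (w : K → ℝ) (G : Multiset M → ι → ℝ)

/-- The unnormalised term of the cut `k`. -/
def T (k : K) (X : Multiset M) : K ⊕ (ι ⊕ ι) → ℝ
  | Sum.inl l => w l * D c k l X
  | Sum.inr (Sum.inl i) => G (X1 c k X) i
  | Sum.inr (Sum.inr i) => G (X0 c k X) i

/-- The normalised weight of the cut `k`. -/
noncomputable def a (k : K) (X : Multiset M) : ℝ := if Sep c k X then w k / R c w X else 0

/-- The next function. -/
noncomputable def G' (X : Multiset M) : K × (K ⊕ (ι ⊕ ι)) → ℝ :=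
  fun p => a c w p.1 X * T c w G p.1 X p.2

theorem l1_G'_sub (X Y : Multiset M) :
    l1 (G' c w G X - G' c w G Y) =
      ∑ k, l1 (a c w k X • T c w G k X - a c w k Y • T c w G k Y) := by
  unfold l1
  rw [Fintype.sum_prod_type]
  rfl

theorem l1_G' (X : Multiset M) :
    l1 (G' c w G X) = ∑ k, l1 (a c w k X • T c w G k X) := by
  unfold l1
  rw [Fintype.sum_prod_type]
  rfl

theorem l1_T (k : K) (X : Multiset M) :
    l1 (T c w G k X) = (∑ l, |w l * D c k l X|) + (l1 (G (X1 c k X)) + l1 (G (X0 c k X))) := by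
  rw [l1_sumType, l1_sumType]
  rfl

theorem l1_T_sub (k : K) (X Y : Multiset M) :
    l1 (T c w G k X - T c w G k Y) = (∑ l, |w l * D c k l X - w l * D c k l Y|) +
      (l1 (G (X1 c k X) - G (X1 c k Y)) + l1 (G (X0 c k X) - G (X0 c k Y))) := by
  rw [l1_sumType, l1_sumType]
  rfl

variable (hw : ∀ k, 0 ≤ w k)
include hw

theorem a_nonneg (k : K) (X : Multiset M) : 0 ≤ a c w k X := by
  unfold a
  split_ifs
  · exact div_nonneg (hw k) (R_nonneg c w hw X)
  · exact le_rfl

theorem w_le_R {k : K} {X : Multiset M} (h : Sep c k X) : w k ≤ R c w X := by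
  unfold R
  have : w k = if Sep c k X then w k else 0 := by rw [if_pos h]
  rw [this]
  refine Finset.single_le_sum (f := fun k => if Sep c k X then w k else 0) (fun i _ => ?_)
    (Finset.mem_univ k)
  split_ifs
  · exact hw i
  · exact le_rfl

theorem sum_a_le (X : Multiset M) : ∑ k, a c w k X ≤ 1 := by
  have h1 : ∑ k, a c w k X = R c w X / R c w X := by
    unfold a
    conv_rhs => rw [R]
    rw [Finset.sum_div]
    refine Finset.sum_congr rfl fun k _ => ?_
    split_ifs
    · rfl
    · simp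
  rw [h1]
  exact div_self_le_one _

theorem R_X1_le (k : K) (X : Multiset M) : R c w (X1 c k X) ≤ R c w X :=
  R_mono c w hw (Multiset.filter_le _ _)

theorem R_X0_le (k : K) (X : Multiset M) : R c w (X0 c k X) ≤ R c w X :=
  R_mono c w hw (Multiset.filter_le _ _)

/-- Size of the terms. -/
theorem T_size {s : ℕ} {C : ℝ} (hC : 0 ≤ C)
    (hG : ∀ X : Multiset M, X.card ≤ s → l1 (G X) ≤ C * R c w X)
    {k : K} {X : Multiset M} (hX : X.card ≤ s + 1) (hk : Sep c k X) :
    l1 (T c w G k X) ≤ (((s + 1 : ℕ) : ℝ) ^ 2 + 2 * C) * R c w X := by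
  rw [l1_T]
  have h1 : ∑ l, |w l * D c k l X| ≤ ((s + 1 : ℕ) : ℝ) ^ 2 * R c w X := by
    unfold R
    rw [Finset.mul_sum]
    refine Finset.sum_le_sum fun l _ => ?_
    by_cases hl : Sep c l X
    · rw [if_pos hl, abs_mul, abs_of_nonneg (hw l), mul_comm]
      exact mul_le_mul_of_nonneg_right (abs_D_le c k l X _ hX) (hw l)
    · rw [if_neg hl, D_eq_zero c k l X hl]; simp
  have hc := card_X1_add c k X
  obtain ⟨hk1, hk2⟩ := hk
  rw [← card_X1] at hk1 hk2
  have h2 : l1 (G (X1 c k X)) ≤ C * R c w X :=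
    (hG _ (by omega)).trans (mul_le_mul_of_nonneg_left (R_X1_le c w hw k X) hC)
  have h3 : l1 (G (X0 c k X)) ≤ C * R c w X :=
    (hG _ (by omega)).trans (mul_le_mul_of_nonneg_left (R_X0_le c w hw k X) hC)
  linarith

theorem l1_a_T {s : ℕ} {C : ℝ} (hC : 0 ≤ C)
    (hG : ∀ X : Multiset M, X.card ≤ s → l1 (G X) ≤ C * R c w X)
    (k : K) {X : Multiset M} (hX : X.card ≤ s + 1) :
    l1 (a c w k X • T c w G k X) ≤
      (((s + 1 : ℕ) : ℝ) ^ 2 + 2 * C) * (if Sep c k X then w k else 0) := by
  rw [l1_smul, abs_of_nonneg (a_nonneg c w hw k X)]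
  unfold a
  by_cases hk : Sep c k X
  · rw [if_pos hk, if_pos hk]
    have hR := R_nonneg c w hw X
    have h1 := T_size c w G hw hC hG hX hk
    have hB : 0 ≤ (((s + 1 : ℕ) : ℝ) ^ 2 + 2 * C) := by positivity
    calc w k / R c w X * l1 (T c w G k X)
        ≤ w k / R c w X * ((((s + 1 : ℕ) : ℝ) ^ 2 + 2 * C) * R c w X) :=
          mul_le_mul_of_nonneg_left h1 (div_nonneg (hw k) hR)
      _ = (((s + 1 : ℕ) : ℝ) ^ 2 + 2 * C) * (w k * (R c w X / R c w X)) := by ring
      _ ≤ (((s + 1 : ℕ) : ℝ) ^ 2 + 2 * C) * (w k * 1) :=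
          mul_le_mul_of_nonneg_left (mul_le_mul_of_nonneg_left (div_self_le_one _) (hw k)) hB
      _ = _ := by ring
  · rw [if_neg hk, if_neg hk]; simp

theorem G'_size {s : ℕ} {C : ℝ} (hC : 0 ≤ C)
    (hG : ∀ X : Multiset M, X.card ≤ s → l1 (G X) ≤ C * R c w X)
    {X : Multiset M} (hX : X.card ≤ s + 1) :
    l1 (G' c w G X) ≤ (((s + 1 : ℕ) : ℝ) ^ 2 + 2 * C) * R c w X := by
  rw [l1_G', R, Finset.mul_sum]
  exact Finset.sum_le_sum fun k _ => l1_a_T c w G hw hC hG k hX

omit hw in
theorem sep_congr {k : K} {X Y : Multiset M} (hc : X.card = Y.card) (hN : N c k X = N c k Y) :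
    Sep c k X ↔ Sep c k Y := by
  unfold Sep; rw [hc, hN]

theorem abs_R_sub_le {X Y : Multiset M} (hc : X.card = Y.card) :
    |R c w X - R c w Y| ≤ A c w X Y := by
  unfold R A
  rw [← Finset.sum_sub_distrib]
  refine (Finset.abs_sum_le_sum_abs _ _).trans (Finset.sum_le_sum fun k _ => ?_)
  by_cases hN : N c k X = N c k Y
  · have := sep_congr c hc hN
    by_cases h : Sep c k X
    · rw [if_pos h, if_pos (this.1 h), hN]; simp
    · rw [if_neg h, if_neg (fun h' => h (this.2 h')), hN]; simp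
  · have h1 : (1 : ℝ) ≤ |(N c k X : ℝ) - N c k Y| := by
      have : (N c k X : ℤ) - N c k Y ≠ 0 := by
        intro h; apply hN; omega
      have h2 : (1 : ℤ) ≤ |(N c k X : ℤ) - N c k Y| := Int.one_le_abs this
      exact_mod_cast h2
    have h2 : |(if Sep c k X then w k else 0) - (if Sep c k Y then w k else 0)| ≤ w k := by
      have := hw k
      split_ifs <;> simp [abs_of_nonneg this, this]
    calc _ ≤ w k := h2
      _ = w k * 1 := (mul_one _).symm
      _ ≤ _ := mul_le_mul_of_nonneg_left h1 (hw k)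

/-- Lipschitz bound for a cut respecting the matching. -/
theorem T_lip {s : ℕ} {C : ℝ} (hC : 0 ≤ C)
    (hL : ∀ P : Multiset (M × M), P.card ≤ s →
      l1 (G (P.map Prod.fst) - G (P.map Prod.snd)) ≤ C * cost c w P)
    {k : K} {P : Multiset (M × M)} (hP : P.card ≤ s + 1) (hk : Sep c k (P.map Prod.fst))
    (hgood : ∀ p ∈ P, c k p.1 = c k p.2) :
    l1 (T c w G k (P.map Prod.fst) - T c w G k (P.map Prod.snd)) ≤
      (((s + 1 : ℕ) : ℝ) + C) * cost c w P := by
  set P1 := P.filter fun p => c k p.1 = true with hP1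
  set P0 := P.filter fun p => ¬ c k p.1 = true with hP0
  have hPs : P1 + P0 = P := Multiset.filter_add_not _ _
  have e1 : X1 c k (P.map Prod.fst) = P1.map Prod.fst := by
    unfold X1; rw [Multiset.filter_map]; rfl
  have e0 : X0 c k (P.map Prod.fst) = P0.map Prod.fst := by
    unfold X0; rw [Multiset.filter_map]; rfl
  have e1' : X1 c k (P.map Prod.snd) = P1.map Prod.snd := by
    unfold X1; rw [Multiset.filter_map]
    congr 1
    refine Multiset.filter_congr fun p hp => ?_
    simp only [Function.comp]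
    rw [hgood p hp]
  have e0' : X0 c k (P.map Prod.snd) = P0.map Prod.snd := by
    unfold X0; rw [Multiset.filter_map]
    congr 1
    refine Multiset.filter_congr fun p hp => ?_
    simp only [Function.comp]
    rw [hgood p hp]
  have hcost : cost c w P = cost c w P1 + cost c w P0 := by rw [← cost_add, hPs]
  have hc1 := cost_nonneg c w hw P1
  have hc0 := cost_nonneg c w hw P0
  have hcard : P1.card + P0.card = P.card := by rw [← Multiset.card_add, hPs]
  obtain ⟨hk1, hk2⟩ := hk
  rw [← card_X1, e1, Multiset.card_map] at hk1 hk2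
  rw [Multiset.card_map] at hk2
  rw [l1_T_sub]
  have hD : ∑ l, |w l * D c k l (P.map Prod.fst) - w l * D c k l (P.map Prod.snd)| ≤
      ((s + 1 : ℕ) : ℝ) * cost c w P := by
    have hA1 := A_le_cost c w hw P1
    have hA0 := A_le_cost c w hw P0
    have hs1 : (P1.card : ℝ) ≤ ((s + 1 : ℕ) : ℝ) := by
      exact_mod_cast (by omega : P1.card ≤ s + 1)
    have hs0 : (P0.card : ℝ) ≤ ((s + 1 : ℕ) : ℝ) := by
      exact_mod_cast (by omega : P0.card ≤ s + 1)
    have h1 : ∑ l, |w l * D c k l (P.map Prod.fst) - w l * D c k l (P.map Prod.snd)| ≤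
        (P0.card : ℝ) * A c w (P1.map Prod.fst) (P1.map Prod.snd) +
        (P1.card : ℝ) * A c w (P0.map Prod.fst) (P0.map Prod.snd) := by
      unfold A
      rw [Finset.mul_sum, Finset.mul_sum, ← Finset.sum_add_distrib]
      refine Finset.sum_le_sum fun l _ => ?_
      unfold D
      rw [e1, e0, e1', e0', Multiset.card_map, Multiset.card_map, Multiset.card_map,
        Multiset.card_map]
      have h2 : w l * ((P0.card : ℝ) * N c l (P1.map Prod.fst) -
          (P1.card : ℝ) * N c l (P0.map Prod.fst)) -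
          w l * ((P0.card : ℝ) * N c l (P1.map Prod.snd) -
          (P1.card : ℝ) * N c l (P0.map Prod.snd)) =
          (P0.card : ℝ) * (w l * ((N c l (P1.map Prod.fst) : ℝ) - N c l (P1.map Prod.snd))) -
          (P1.card : ℝ) * (w l * ((N c l (P0.map Prod.fst) : ℝ) - N c l (P0.map Prod.snd))) := by
        ring
      rw [h2]
      refine (abs_sub _ _).trans ?_
      rw [abs_mul, abs_mul, abs_mul, abs_mul, Nat.abs_cast, Nat.abs_cast, abs_of_nonneg (hw l)]
    refine h1.trans ?_
    have h3 : (P0.card : ℝ) * A c w (P1.map Prod.fst) (P1.map Prod.snd) ≤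
        ((s + 1 : ℕ) : ℝ) * cost c w P1 :=
      mul_le_mul hs0 hA1 (A_nonneg c w hw _ _) (Nat.cast_nonneg _)
    have h4 : (P1.card : ℝ) * A c w (P0.map Prod.fst) (P0.map Prod.snd) ≤
        ((s + 1 : ℕ) : ℝ) * cost c w P0 :=
      mul_le_mul hs1 hA0 (A_nonneg c w hw _ _) (Nat.cast_nonneg _)
    rw [hcost]; linarith
  have hG1 := hL P1 (by omega)
  have hG0 := hL P0 (by omega)
  rw [e1, e0, e1', e0']
  have : (((s + 1 : ℕ) : ℝ) + C) * cost c w P =
      ((s + 1 : ℕ) : ℝ) * cost c w P + (C * cost c w P1 + C * cost c w P0) := by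
    rw [hcost]; ring
  rw [this]
  linarith

end step

end Pool.Agent.H799R2.Cuts
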