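import Pool.Agent.H799R2.Wass

set_option autoImplicit false
set_option linter.unusedSectionVars false

namespace Pool.Agent.H799R2.Emb

open Finset MeasureTheory
open scoped ENNReal
open Pool.Agent.H799R2.Cuts Pool.Agent.H799R2.Wass

/-- Lebesgue measure on `[0,1]`. -/
noncomputable abbrev lam : Measure ℝ := volume.restrict (Set.Icc (0 : ℝ) 1)

/-- The pieces of `[0,1]`. -/
def piece (n : ℕ) (i : Fin n) : Set ℝ := Set.Ioc ((i : ℝ) / n) (((i : ℝ) + 1) / n)

theorem piece_meas (n : ℕ) (i : Fin n) : MeasurableSet (piece n i) := measurableSet_Ioc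

theorem piece_sub (n : ℕ) (i : Fin n) : piece n i ⊆ Set.Icc 0 1 := by
  intro t ht
  have hn : (0 : ℝ) < n := by exact_mod_cast (Nat.pos_of_ne_zero fun h => by
    subst h; exact i.elim0)
  obtain ⟨h1, h2⟩ := ht
  constructor
  · exact (div_nonneg (Nat.cast_nonneg _) hn.le).trans h1.le
  · refine h2.trans ?_
    rw [div_le_one hn]
    exact_mod_cast i.2

theorem piece_disj (n : ℕ) {i j : Fin n} (h : i ≠ j) : Disjoint (piece n i) (piece n j) := by
  have hn : (0 : ℝ) < n := by exact_mod_cast (Nat.pos_of_ne_zero fun h => by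
    subst h; exact i.elim0)
  rw [Set.disjoint_left]
  rintro t ⟨h1, h2⟩ ⟨h3, h4⟩
  rw [div_lt_iff₀ hn] at h1 h3
  rw [le_div_iff₀ hn] at h2 h4
  have h5 : (i : ℝ) < (j : ℝ) + 1 := by linarith
  have h6 : (j : ℝ) < (i : ℝ) + 1 := by linarith
  have h7 : (i : ℕ) < j + 1 := by exact_mod_cast h5
  have h8 : (j : ℕ) < i + 1 := by exact_mod_cast h6
  exact h (Fin.ext (by omega))

theorem lam_piece (n : ℕ) (i : Fin n) : (lam (piece n i)).toReal = 1 / n := by
  have hn : (0 : ℝ) < n := by exact_mod_cast (Nat.pos_of_ne_zero fun h => by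
    subst h; exact i.elim0)
  rw [Measure.restrict_apply (piece_meas n i), Set.inter_eq_left.2 (piece_sub n i), piece,
    Real.volume_Ioc, ENNReal.toReal_ofReal]
  · ring
  · have : ((i : ℝ) + 1) / n - (i : ℝ) / n = 1 / n := by ring
    rw [this]; positivity

/-- The step function with the values `v`. -/
noncomputable def step {n : ℕ} (v : Fin n → ℝ) : Lp ℝ 1 lam :=
  ∑ i, v i • indicatorConstLp 1 (piece_meas n i) (measure_ne_top lam _) (1 : ℝ)

theorem step_sub {n : ℕ} (u v : Fin n → ℝ) : step u - step v = step (u - v) := by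
  unfold step
  rw [← Finset.sum_sub_distrib]
  exact Finset.sum_congr rfl fun i _ => by rw [Pi.sub_apply, sub_smul]

theorem norm_step {n : ℕ} (v : Fin n → ℝ) : ‖step v‖ = l1 v / n := by
  have h1 : ⇑(step v) =ᵐ[lam] fun t => ∑ i, v i * (piece n i).indicator (fun _ => (1 : ℝ)) t := by
    unfold step
    have h2 := Lp.coeFn_finsetSum (s := Finset.univ)
      (fun i => v i • indicatorConstLp 1 (piece_meas n i) (measure_ne_top lam _) (1 : ℝ))
    refine h2.trans ?_
    have h3 : ∀ i : Fin n, ⇑(v i • indicatorConstLp 1 (piece_meas n i) (measure_ne_top lam _)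
        (1 : ℝ)) =ᵐ[lam] fun t => v i * (piece n i).indicator (fun _ => (1 : ℝ)) t := by
      intro i
      refine (Lp.coeFn_smul _ _).trans ?_
      filter_upwards [indicatorConstLp_coeFn (p := 1) (hs := piece_meas n i)
        (hμs := measure_ne_top lam _) (c := (1 : ℝ))] with t ht
      rw [Pi.smul_apply, ht, smul_eq_mul]
    have h4 := ae_all_iff.2 h3
    filter_upwards [h4] with t ht
    simp only [Finset.sum_apply]
    exact Finset.sum_congr rfl fun i _ => ht i
  rw [L1.norm_eq_integral_norm]
  have h5 : ∫ t, ‖(step v) t‖ ∂lam =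
      ∫ t, ∑ i, |v i| * (piece n i).indicator (fun _ => (1 : ℝ)) t ∂lam := by
    refine integral_congr_ae ?_
    filter_upwards [h1] with t ht
    rw [ht]
    by_cases hex : ∃ i, t ∈ piece n i
    · obtain ⟨i, hi⟩ := hex
      have hne : ∀ j, j ≠ i → (piece n j).indicator (fun _ => (1 : ℝ)) t = 0 := by
        intro j hj
        refine Set.indicator_of_notMem ?_ _
        exact fun h => Set.disjoint_left.1 (piece_disj n hj) h hi
      rw [Finset.sum_eq_single i (fun j _ hj => by rw [hne j hj, mul_zero]) (by simp),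
        Finset.sum_eq_single i (fun j _ hj => by rw [hne j hj, mul_zero]) (by simp),
        Set.indicator_of_mem hi, mul_one, mul_one, Real.norm_eq_abs]
    · push Not at hex
      have hne : ∀ j, (piece n j).indicator (fun _ => (1 : ℝ)) t = 0 :=
        fun j => Set.indicator_of_notMem (hex j) _
      simp [hne]
  rw [h5, integral_finsetSum]
  · unfold l1
    rw [Finset.sum_div]
    refine Finset.sum_congr rfl fun i _ => ?_
    rw [integral_const_mul, integral_indicator (piece_meas n i), integral_const, smul_eq_mul,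
      mul_one, Measure.real, Measure.restrict_apply_univ, lam_piece]
    ring
  · intro i _
    refine Integrable.const_mul ?_ _
    exact (integrable_indicator_iff (piece_meas n i)).2 (integrableOn_const (measure_ne_top _ _))

/-- `f` embeds the space with distance function `d` in `L₁[0,1]` with distortion `D`. -/
def Embeds {Y : Type} (d : Y → Y → ℝ) (D : ℝ) : Prop :=
  ∃ (f : Y → Lp ℝ 1 lam) (r : ℝ), 0 < r ∧
    ∀ x y, r * d x y ≤ ‖f x - f y‖ ∧ ‖f x - f y‖ ≤ D * r * d x y

/-- A map into a finite dimensional `ℓ₁` gives one into `L₁[0,1]`. -/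
theorem embeds_of_l1 {Y κ : Type} [Fintype κ] {d : Y → Y → ℝ} {D r : ℝ} (hr : 0 < r)
    (hd : ∀ x y, 0 ≤ d x y) (hD : 0 ≤ D) (F : Y → κ → ℝ)
    (h : ∀ x y, r * d x y ≤ l1 (F x - F y) ∧ l1 (F x - F y) ≤ D * r * d x y) : Embeds d D := by
  classical
  -- add a dummy coordinate so that the index set is nonempty
  set n := Fintype.card κ + 1 with hn
  have hn0 : (0 : ℝ) < n := by rw [hn]; positivity
  let e : Option κ ≃ Fin n := Fintype.equivFinOfCardEq (by rw [Fintype.card_option])
  let F' : Y → Fin n → ℝ := fun y i => ((e.symm i).elim 0 (F y))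
  have hF' : ∀ x y, l1 (F' x - F' y) = l1 (F x - F y) := by
    intro x y
    unfold l1
    rw [← Equiv.sum_comp e, Fintype.sum_option]
    simp [F']
  refine ⟨fun y => step (F' y), r / n, by positivity, fun x y => ?_⟩
  rw [step_sub, norm_step, hF']
  obtain ⟨h1, h2⟩ := h x y
  constructor
  · rw [div_mul_eq_mul_div]
    exact div_le_div_of_nonneg_right h1 hn0.le
  · have : D * (r / n) * d x y = D * r * d x y / n := by ring
    rw [this]
    exact div_le_div_of_nonneg_right h2 hn0.le

/-- The main embedding theorem for uniform `s`-point measures over a ground metric with a cut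
representation up to bounded factors. -/
theorem main (s : ℕ) : ∃ C : ℝ, 1 ≤ C ∧ ∀ (M K : Type) (_ : Fintype M) (_ : DecidableEq M)
    (_ : Fintype K) (c : K → M → Bool) (w : K → ℝ), (∀ k, 0 ≤ w k) → 0 < s →
    ∀ (ρ : M → M → ℝ) (α β : ℝ), 0 < α → 0 < β →
    (∀ x y, 0 ≤ ρ x y) → (∀ x y, α * ρ x y ≤ rho c w x y) → (∀ x y, rho c w x y ≤ β * ρ x y) →
    Embeds (Y := {S : Finset M // S.card = s})
      (fun S T => W1 ρ (unif S.1) (unif T.1)) (C * (β / α)) := by
  obtain ⟨C₀, hC₀, hmain⟩ := Cuts.exists_good s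
  set C := C₀ + 1 with hC
  have hC1 : 1 ≤ C := by linarith
  refine ⟨C * C, by nlinarith, ?_⟩
  intro M K _ _ _ c w hw hs ρ α β hα hβ hρ hα' hβ'
  have hs' : (0 : ℝ) < s := by exact_mod_cast hs
  obtain ⟨ι, _, G, -, hL, hM⟩ := hmain M K inferInstance c w hw
  let F : {S : Finset M // S.card = s} → K ⊕ ι → ℝ := fun S =>
    Sum.elim (fun k => w k * N c k S.1.val) (G S.1.val)
  have hF : ∀ S T, l1 (F S - F T) = A c w S.1.val T.1.val + l1 (G S.1.val - G T.1.val) := by
    intro S T
    rw [l1_sumType]
    congr 1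
    unfold l1 A
    refine Finset.sum_congr rfl fun k _ => ?_
    simp only [F, Pi.sub_apply, Sum.elim_inl]
    rw [← mul_sub, abs_mul, abs_of_nonneg (hw k)]
  have hcostα : ∀ P : Multiset (M × M), α * (P.map fun p => ρ p.1 p.2).sum ≤ cost c w P := by
    intro P
    induction P using Multiset.induction_on with
    | empty => simp [cost]
    | cons p P ih =>
      unfold cost at ih ⊢
      rw [Multiset.map_cons, Multiset.sum_cons, Multiset.map_cons, Multiset.sum_cons, mul_add]
      exact add_le_add (hα' _ _) ih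
  have hcostβ : ∀ P : Multiset (M × M), cost c w P ≤ β * (P.map fun p => ρ p.1 p.2).sum := by
    intro P
    induction P using Multiset.induction_on with
    | empty => simp [cost]
    | cons p P ih =>
      unfold cost at ih ⊢
      rw [Multiset.map_cons, Multiset.sum_cons, Multiset.map_cons, Multiset.sum_cons, mul_add]
      exact add_le_add (hβ' _ _) ih
  have hWnn : ∀ S T : {S : Finset M // S.card = s}, 0 ≤ W1 ρ (unif S.1) (unif T.1) := by
    intro S T
    have h1 := le_W1 (ρ := ρ) hs S.2 T.2 (b := 0) (fun P _ _ => by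
      refine Multiset.sum_nonneg fun x hx => ?_
      obtain ⟨p, -, rfl⟩ := Multiset.mem_map.1 hx
      exact hρ _ _)
    exact nonneg_of_mul_nonneg_right h1 hs'
  refine embeds_of_l1 (r := α * s / C) (by positivity) hWnn (by positivity) F fun S T => ?_
  rw [hF]
  have hcS : S.1.val.card = s := S.2
  have hcT : T.1.val.card = s := T.2
  have hAnn := A_nonneg c w hw S.1.val T.1.val
  have hlnn : 0 ≤ l1 (G S.1.val - G T.1.val) := l1_nonneg _
  constructor
  · obtain ⟨P, hP1, hP2, hP3⟩ := hM S.1.val T.1.val (by rw [hcS, hcT]) hcS.le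
    have h1 := W1_le hρ hs S.2 T.2 hP1 hP2
    have h2 := hcostα P
    have h3 : cost c w P ≤ C * (A c w S.1.val T.1.val + l1 (G S.1.val - G T.1.val)) :=
      hP3.trans (mul_le_mul_of_nonneg_right (by linarith) (by positivity))
    have h4 : α * (s * W1 ρ (unif S.1) (unif T.1)) ≤
        C * (A c w S.1.val T.1.val + l1 (G S.1.val - G T.1.val)) :=
      (mul_le_mul_of_nonneg_left h1 hα.le).trans (h2.trans h3)
    have h5 : α * s / C * W1 ρ (unif S.1) (unif T.1) =
        α * (s * W1 ρ (unif S.1) (unif T.1)) / C := by ring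
    rw [h5, div_le_iff₀ (by positivity), mul_comm]
    linarith
  · have h1 : (A c w S.1.val T.1.val + l1 (G S.1.val - G T.1.val)) / (C * β) ≤
        s * W1 ρ (unif S.1) (unif T.1) := by
      refine le_W1 hs S.2 T.2 fun P hP1 hP2 => ?_
      rw [div_le_iff₀ (by positivity)]
      have hcP : P.card = s := by rw [← hcS, ← hP1, Multiset.card_map]
      have h2 := A_le_cost c w hw P
      have h3 := hL P hcP.le
      rw [hP1, hP2] at h2 h3
      have h4 := hcostβ P
      calc A c w S.1.val T.1.val + l1 (G S.1.val - G T.1.val) ≤ C * cost c w P := by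
            rw [hC]; linarith
        _ ≤ C * (β * (P.map fun p => ρ p.1 p.2).sum) :=
            mul_le_mul_of_nonneg_left h4 (by positivity)
        _ = _ := by ring
    rw [div_le_iff₀ (by positivity)] at h1
    have h5 : C * C * (β / α) * (α * s / C) * W1 ρ (unif S.1) (unif T.1) =
        s * W1 ρ (unif S.1) (unif T.1) * (C * β) := by field_simp
    rw [h5]
    exact h1

end Pool.Agent.H799R2.Emb
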