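import Pool.Agent.H799R2.Emb

set_option autoImplicit false
set_option linter.unusedSectionVars false

namespace Pool.Agent.H799R2.Grid

open Finset MeasureTheory
open scoped ENNReal
open Pool.Agent.H799R2.Cuts Pool.Agent.H799R2.Wass Pool.Agent.H799R2.Emb

theorem sum_cut (n a b : ℕ) (ha : a ≤ n) (hb : b ≤ n) :
    ∑ j : Fin n, (if decide ((j : ℕ) < a) ≠ decide ((j : ℕ) < b) then (1 : ℝ) else 0) =
      |(a : ℝ) - b| := by
  rw [Fin.sum_univ_eq_sum_range
    (fun j => (if decide (j < a) ≠ decide (j < b) then (1 : ℝ) else 0)) n]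
  wlog h : a ≤ b generalizing a b
  · have := this b a hb ha (by omega)
    rw [abs_sub_comm, ← this]
    refine Finset.sum_congr rfl fun j _ => ?_
    simp only [ne_comm]
  rw [← Finset.sum_filter, Finset.sum_const]
  have : (Finset.range n).filter (fun j => decide (j < a) ≠ decide (j < b)) = Finset.Ico a b := by
    ext j
    simp only [ne_eq, decide_eq_decide, Finset.mem_filter, Finset.mem_range, Finset.mem_Ico]
    constructor
    · rintro ⟨h1, h2⟩
      constructor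
      · by_contra h3; apply h2; constructor <;> intro _ <;> omega
      · by_contra h3; apply h2; constructor <;> intro _ <;> omega
    · rintro ⟨h1, h2⟩
      refine ⟨by omega, fun h3 => ?_⟩
      have := h3.2 h2
      omega
  rw [this, Nat.card_Ico, nsmul_eq_mul, mul_one, Nat.cast_sub h, abs_sub_comm, abs_of_nonneg]
  have : (a : ℝ) ≤ b := by exact_mod_cast h
  linarith

/-- The sign of a Boolean. -/
def sg (b : Bool) : ℝ := if b then 1 else -1

theorem sum_cons {n : ℕ} (f : (Fin (n + 1) → Bool) → ℝ) :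
    ∑ ε, f ε = ∑ ε : Fin n → Bool, (f (Fin.cons true ε) + f (Fin.cons false ε)) := by
  rw [← Equiv.sum_comp (Fin.consEquiv fun _ => Bool), Fintype.sum_prod_type, Finset.sum_comm]
  refine Finset.sum_congr rfl fun ε _ => ?_
  rw [Fintype.sum_bool]
  rfl

/-- The Rademacher sum. -/
def Z {d : ℕ} (ε : Fin d → Bool) (a : Fin d → ℝ) : ℝ := ∑ i, sg (ε i) * a i

theorem Z_cons {n : ℕ} (b : Bool) (ε : Fin n → Bool) (a : Fin (n + 1) → ℝ) :
    Z (Fin.cons b ε : Fin (n + 1) → Bool) a = sg b * a 0 + Z ε fun i => a i.succ := by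
  unfold Z
  rw [Fin.sum_univ_succ]
  simp

theorem sum_sq {d : ℕ} (a : Fin d → ℝ) : ∑ ε, Z ε a ^ 2 = 2 ^ d * ∑ i, a i ^ 2 := by
  induction d with
  | zero => simp [Z]
  | succ n ih =>
    rw [sum_cons]
    simp_rw [Z_cons]
    have : ∀ ε : Fin n → Bool, (sg true * a 0 + Z ε fun i => a i.succ) ^ 2 +
        (sg false * a 0 + Z ε fun i => a i.succ) ^ 2 =
        2 * a 0 ^ 2 + 2 * (Z ε fun i => a i.succ) ^ 2 := by
      intro ε; simp [sg]; ring
    simp_rw [this]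
    have e1 : ∑ ε : Fin n → Bool, (2 * a 0 ^ 2 + 2 * (Z ε fun i => a i.succ) ^ 2) =
        2 ^ n * (2 * a 0 ^ 2) + 2 * ∑ ε : Fin n → Bool, (Z ε fun i => a i.succ) ^ 2 := by
      rw [Finset.sum_add_distrib, Finset.mul_sum]
      simp
    rw [e1, ih, Fin.sum_univ_succ]
    ring

theorem sum_four {d : ℕ} (a : Fin d → ℝ) :
    ∑ ε, Z ε a ^ 4 ≤ 3 * 2 ^ d * (∑ i, a i ^ 2) ^ 2 := by
  induction d with
  | zero => simp [Z]
  | succ n ih =>
    rw [sum_cons]
    simp_rw [Z_cons]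
    have : ∀ ε : Fin n → Bool, (sg true * a 0 + Z ε fun i => a i.succ) ^ 4 +
        (sg false * a 0 + Z ε fun i => a i.succ) ^ 4 =
        2 * a 0 ^ 4 + 12 * a 0 ^ 2 * (Z ε fun i => a i.succ) ^ 2 +
          2 * (Z ε fun i => a i.succ) ^ 4 := by
      intro ε; simp [sg]; ring
    simp_rw [this]
    have e1 : ∑ ε : Fin n → Bool, (2 * a 0 ^ 4 + 12 * a 0 ^ 2 * (Z ε fun i => a i.succ) ^ 2 +
          2 * (Z ε fun i => a i.succ) ^ 4) =
        2 ^ n * (2 * a 0 ^ 4) + 12 * a 0 ^ 2 * ∑ ε : Fin n → Bool, (Z ε fun i => a i.succ) ^ 2 +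
          2 * ∑ ε : Fin n → Bool, (Z ε fun i => a i.succ) ^ 4 := by
      rw [Finset.sum_add_distrib, Finset.sum_add_distrib, Finset.mul_sum, Finset.mul_sum]
      simp
    rw [e1, sum_sq, Fin.sum_univ_succ]
    have h2 := ih fun i => a i.succ
    set σ := ∑ i : Fin n, a i.succ ^ 2 with hσ
    have h3 : (0 : ℝ) ≤ 2 ^ n := by positivity
    have h4 : (2 : ℝ) ^ (n + 1) = 2 * 2 ^ n := by ring
    rw [h4]
    have h5 : (0 : ℝ) ≤ 2 ^ n * a 0 ^ 4 := by positivity
    nlinarith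

/-- Khintchine's inequality. -/
theorem khintchine {d : ℕ} (a : Fin d → ℝ) :
    4 / 9 * Real.sqrt (∑ i, a i ^ 2) ≤ (∑ ε, |Z ε a|) / 2 ^ d ∧
      (∑ ε, |Z ε a|) / 2 ^ d ≤ Real.sqrt (∑ i, a i ^ 2) := by
  set q := ∑ i, a i ^ 2 with hq
  have hq0 : 0 ≤ q := Finset.sum_nonneg fun i _ => sq_nonneg _
  set σ := Real.sqrt q with hσ
  have hσ0 : 0 ≤ σ := Real.sqrt_nonneg _
  have hσ2 : σ ^ 2 = q := Real.sq_sqrt hq0
  have h2n : (0 : ℝ) < 2 ^ d := by positivity
  constructor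
  · rw [le_div_iff₀ h2n]
    rcases hσ0.eq_or_lt with h0 | hpos
    · rw [← h0]; simp; exact Finset.sum_nonneg fun _ _ => abs_nonneg _
    · -- pointwise inequality
      have hpt : ∀ ε : Fin d → Bool, 2 * (Z ε a ^ 2 / (3 * σ) - Z ε a ^ 4 / (27 * σ ^ 3)) ≤
          |Z ε a| := by
        intro ε
        set z := |Z ε a| with hz
        have hz0 : 0 ≤ z := abs_nonneg _
        have e2 : Z ε a ^ 2 = z ^ 2 := (sq_abs _).symm
        have e4 : Z ε a ^ 4 = z ^ 4 := by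
          have : Z ε a ^ 4 = (Z ε a ^ 2) ^ 2 := by ring
          rw [this, e2]; ring
        rw [e2, e4]
        set u := z / (3 * σ) with hu
        have hu0 : 0 ≤ u := by positivity
        have hzu : z = 3 * σ * u := by rw [hu]; field_simp
        have e5 : z ^ 2 / (3 * σ) - z ^ 4 / (27 * σ ^ 3) = 3 * σ * (u ^ 2 - u ^ 4) := by
          rw [hzu]; field_simp; ring
        rw [e5]
        have h6 : 2 * (u ^ 2 - u ^ 4) ≤ u := by
          have h7 : 2 * (u - u ^ 3) ≤ 1 := by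
            nlinarith [mul_nonneg hu0 (sq_nonneg (u - 1 / 2)), sq_nonneg (u - 5 / 8)]
          nlinarith [mul_le_mul_of_nonneg_left h7 hu0]
        rw [hzu]
        nlinarith [mul_le_mul_of_nonneg_left h6 (by positivity : 0 ≤ 3 * σ)]
      have hsum := Finset.sum_le_sum (s := Finset.univ) fun ε _ => hpt ε
      rw [← Finset.mul_sum, Finset.sum_sub_distrib, ← Finset.sum_div, ← Finset.sum_div,
        sum_sq, ← hq] at hsum
      have h4 := sum_four a
      rw [← hq] at h4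
      have h8 : (∑ ε, Z ε a ^ 4) / (27 * σ ^ 3) ≤ 3 * 2 ^ d * q ^ 2 / (27 * σ ^ 3) :=
        div_le_div_of_nonneg_right h4 (by positivity)
      have h9 : 2 * (2 ^ d * q / (3 * σ) - 3 * 2 ^ d * q ^ 2 / (27 * σ ^ 3)) =
          4 / 9 * σ * 2 ^ d := by
        rw [← hσ2]; field_simp; ring
      linarith
  · rw [div_le_iff₀ h2n]
    have hcs := Finset.sum_mul_sq_le_sq_mul_sq (Finset.univ : Finset (Fin d → Bool))
      (fun ε => |Z ε a|) (fun _ => (1 : ℝ))
    simp only [mul_one, one_pow, sq_abs, Finset.sum_const, Finset.card_univ, Fintype.card_pi,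
      Fintype.card_bool, Finset.prod_const, Fintype.card_fin, nsmul_eq_mul] at hcs
    rw [sum_sq, ← hq, ← hσ2] at hcs
    push_cast at hcs
    have h10 : (2 : ℝ) ^ d * σ ^ 2 * 2 ^ d = (σ * 2 ^ d) ^ 2 := by ring
    rw [h10] at hcs
    exact abs_le_of_sq_le_sq' hcs (by positivity) |>.2

variable {Δ d : ℕ}

/-- The `ℓ₁` metric of the grid. -/
def dist1 (x y : Fin d → Fin Δ) : ℝ := ∑ i, |((x i : ℕ) : ℝ) - ((y i : ℕ) : ℝ)|

/-- The `ℓ₂` metric of the grid. -/
noncomputable def dist2 (x y : Fin d → Fin Δ) : ℝ :=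
  Real.sqrt (∑ i, (((x i : ℕ) : ℝ) - ((y i : ℕ) : ℝ)) ^ 2)

/-- cuts for `ℓ₁` -/
def c1 : Fin d × Fin Δ → (Fin d → Fin Δ) → Bool := fun k x => decide ((k.2 : ℕ) < (x k.1 : ℕ))

theorem rho1 (x y : Fin d → Fin Δ) : rho (c1 (Δ := Δ) (d := d)) (fun _ => 1) x y = dist1 x y := by
  unfold rho dist1
  rw [Fintype.sum_prod_type]
  refine Finset.sum_congr rfl fun i _ => ?_
  exact sum_cut Δ (x i) (y i) (x i).2.le (y i).2.le

/-- shifted signed sum -/
def ph (ε : Fin d → Bool) (x : Fin d → Fin Δ) : ℕ :=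
  ∑ i, if ε i then Δ + (x i : ℕ) else Δ - (x i : ℕ)

theorem ph_le (ε : Fin d → Bool) (x : Fin d → Fin Δ) : ph ε x ≤ d * (2 * Δ) := by
  unfold ph
  calc (∑ i, if ε i then Δ + (x i : ℕ) else Δ - (x i : ℕ)) ≤ ∑ _i : Fin d, 2 * Δ := by
        refine Finset.sum_le_sum fun i _ => ?_
        have := (x i).2
        split_ifs <;> omega
    _ = d * (2 * Δ) := by simp

theorem ph_sub (ε : Fin d → Bool) (x y : Fin d → Fin Δ) :
    (ph ε x : ℝ) - ph ε y = Z ε fun i => ((x i : ℕ) : ℝ) - ((y i : ℕ) : ℝ) := by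
  unfold ph Z
  push_cast
  rw [← Finset.sum_sub_distrib]
  refine Finset.sum_congr rfl fun i _ => ?_
  have h1 := (x i).2.le
  have h2 := (y i).2.le
  unfold sg
  split_ifs
  · push_cast; ring
  · rw [Nat.cast_sub h1, Nat.cast_sub h2]; ring

/-- cuts for `ℓ₂` -/
def c2 : (Fin d → Bool) × Fin (d * (2 * Δ)) → (Fin d → Fin Δ) → Bool :=
  fun k x => decide ((k.2 : ℕ) < ph k.1 x)

theorem rho2 (x y : Fin d → Fin Δ) :
    rho (c2 (Δ := Δ) (d := d)) (fun _ => 1 / 2 ^ d) x y =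
      (∑ ε, |Z ε fun i => ((x i : ℕ) : ℝ) - ((y i : ℕ) : ℝ)|) / 2 ^ d := by
  unfold rho
  rw [Fintype.sum_prod_type, Finset.sum_div]
  refine Finset.sum_congr rfl fun ε _ => ?_
  have := sum_cut (d * (2 * Δ)) (ph ε x) (ph ε y) (ph_le ε x) (ph_le ε y)
  rw [← ph_sub, ← this, Finset.sum_div]
  refine Finset.sum_congr rfl fun j _ => ?_
  unfold c2
  split_ifs <;> simp

theorem dist1_nonneg (x y : Fin d → Fin Δ) : 0 ≤ dist1 x y :=
  Finset.sum_nonneg fun _ _ => abs_nonneg _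

theorem dist2_nonneg (x y : Fin d → Fin Δ) : 0 ≤ dist2 x y := Real.sqrt_nonneg _

theorem final (s : ℕ) : ∃ C : ℝ, 1 ≤ C ∧ ∀ Δ d : ℕ, 0 < s →
    Embeds (Y := {S : Finset (Fin d → Fin Δ) // S.card = s})
      (fun S T => W1 dist1 (unif S.1) (unif T.1)) C ∧
    Embeds (Y := {S : Finset (Fin d → Fin Δ) // S.card = s})
      (fun S T => W1 dist2 (unif S.1) (unif T.1)) C := by
  obtain ⟨C, hC1, hC⟩ := Emb.main s
  refine ⟨C * (1 / (4 / 9)), by nlinarith, fun Δ d hs => ⟨?_, ?_⟩⟩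
  · -- for `ℓ₁` the factors are weaker than needed
    refine hC (Fin d → Fin Δ) (Fin d × Fin Δ) inferInstance inferInstance inferInstance
      c1 (fun _ => 1) (fun _ => zero_le_one) hs dist1 (4 / 9) 1 (by norm_num) (by norm_num)
      dist1_nonneg ?_ ?_
    · intro x y; rw [rho1]; have := dist1_nonneg x y; linarith
    · intro x y; rw [rho1, one_mul]
  · refine hC (Fin d → Fin Δ) ((Fin d → Bool) × Fin (d * (2 * Δ))) inferInstance inferInstance
      inferInstance c2 (fun _ => 1 / 2 ^ d) (fun _ => by positivity) hs dist2 (4 / 9) 1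
      (by norm_num) (by norm_num) dist2_nonneg ?_ ?_
    · intro x y; rw [rho2]; exact (khintchine _).1
    · intro x y; rw [rho2, one_mul]; exact (khintchine _).2

end Pool.Agent.H799R2.Grid
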