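import Pool.Agent.H799R2.Marcin

set_option autoImplicit false

open MeasureTheory Set Filter Topology
open scoped ENNReal NNReal

namespace Pool.Agent.H799R2.LipInterp

variable {Ω : Type*} [MeasurableSpace Ω] {μ : Measure Ω} [IsFiniteMeasure μ]
variable {β α γ : ℝ≥0∞} [hβ : Fact (1 ≤ β)]

/-- A map that is Lipschitz on `L^β` and on `L^α` satisfies the `L^α` Lipschitz estimate for every
pair of points of `L^β` whose difference is in `L^α`. -/
theorem fatou (hβt : β ≠ ∞) {M : ℝ} (hM : 0 ≤ M) (U : Lp ℂ β μ → Lp ℂ β μ)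
    (h0 : ∀ x y : Lp ℂ β μ, ‖U x - U y‖ ≤ M * ‖x - y‖)
    (h1 : ∀ x y : Lp ℂ β μ, MemLp x α μ → MemLp y α μ →
      eLpNorm (U x - U y : Lp ℂ β μ) α μ ≤ ENNReal.ofReal M * eLpNorm (x - y : Lp ℂ β μ) α μ)
    (x a : Lp ℂ β μ) (ha : MemLp a α μ) :
    eLpNorm (U (x + a) - U x : Lp ℂ β μ) α μ ≤ ENNReal.ofReal M * eLpNorm a α μ := by
  -- approximate `x` by simple functions
  have hd := Lp.simpleFunc.denseRange (E := ℂ) (μ := μ) (p := β) hβt
  obtain ⟨u, hu⟩ : ∃ u : ℕ → Lp.simpleFunc ℂ β μ,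
      Tendsto (fun n => ((u n : Lp.simpleFunc ℂ β μ) : Lp ℂ β μ)) atTop (𝓝 x) := by
    have hx : x ∈ closure (range ((↑) : Lp.simpleFunc ℂ β μ → Lp ℂ β μ)) := hd x
    obtain ⟨v, hv, hlim⟩ := mem_closure_iff_seq_limit.1 hx
    choose u hu using hv
    refine ⟨u, ?_⟩
    have : (fun n => ((u n : Lp.simpleFunc ℂ β μ) : Lp ℂ β μ)) = v := funext hu
    rw [this]; exact hlim
  have hucont : Continuous U := by
    have : LipschitzWith (Real.toNNReal M) U := by
      refine LipschitzWith.of_dist_le_mul fun x y => ?_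
      rw [dist_eq_norm, dist_eq_norm, Real.coe_toNNReal _ hM]
      exact h0 x y
    exact this.continuous
  have humem : ∀ n, MemLp ((u n : Lp.simpleFunc ℂ β μ) : Lp ℂ β μ) α μ := by
    intro n
    have h := (Lp.simpleFunc.toSimpleFunc (u n)).memLp_of_isFiniteMeasure α μ
    exact (memLp_congr_ae (Lp.simpleFunc.toSimpleFunc_eq_toFun (u n))).1 h
  have hlim : Tendsto (fun n => U ((u n : Lp ℂ β μ) + a) - U (u n : Lp ℂ β μ)) atTop
      (𝓝 (U (x + a) - U x)) := by
    refine Tendsto.sub ?_ ?_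
    · exact (hucont.tendsto _).comp (hu.add_const a)
    · exact (hucont.tendsto _).comp hu
  obtain ⟨ns, -, hns⟩ := (tendstoInMeasure_of_tendsto_Lp hlim).exists_seq_tendsto_ae
  refine Lp.eLpNorm_le_of_ae_tendsto (u := atTop) ?_ (fun n => Lp.aestronglyMeasurable _) hns
  filter_upwards with n
  have hadd : MemLp ((u (ns n) : Lp ℂ β μ) + a : Lp ℂ β μ) α μ :=
    (memLp_congr_ae (Lp.coeFn_add _ _)).2 ((humem _).add ha)
  refine (h1 _ _ hadd (humem _)).trans ?_
  rw [add_sub_cancel_left]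

/-- The interpolation inequality. -/
theorem interp (hβt : β ≠ ∞) (hβγ : β < γ) (hγα : γ < α) (hα : α ≠ ∞) {M : ℝ} (hM : 0 ≤ M)
    (U : Lp ℂ β μ → Lp ℂ β μ)
    (h0 : ∀ x y : Lp ℂ β μ, ‖U x - U y‖ ≤ M * ‖x - y‖)
    (h1 : ∀ x y : Lp ℂ β μ, MemLp x α μ → MemLp y α μ →
      eLpNorm (U x - U y : Lp ℂ β μ) α μ ≤ ENNReal.ofReal M * eLpNorm (x - y : Lp ℂ β μ) α μ)
    (x y : Lp ℂ β μ) :
    eLpNorm (U x - U y : Lp ℂ β μ) γ μ ≤
      ENNReal.ofReal (2 * (γ.toReal / (α.toReal - γ.toReal) +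
        γ.toReal / (γ.toReal - β.toReal)) ^ (1 / γ.toReal) * M) *
        eLpNorm (x - y : Lp ℂ β μ) γ μ := by
  have hγt : γ ≠ ∞ := (hγα.trans_le le_top).ne
  have hβ1 : 1 ≤ β := hβ.out
  have hβ0 : β ≠ 0 := (zero_lt_one.trans_le hβ1).ne'
  have hγ0 : γ ≠ 0 := (zero_lt_one.trans_le (hβ1.trans hβγ.le)).ne'
  have hα0 : α ≠ 0 := (zero_lt_one.trans_le (hβ1.trans (hβγ.trans hγα).le)).ne'
  set b := β.toReal with hb
  set c := γ.toReal with hc
  set a := α.toReal with ha
  have hb0 : 0 < b := ENNReal.toReal_pos hβ0 hβt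
  have hbc : b < c := (ENNReal.toReal_lt_toReal hβt hγt).2 hβγ
  have hca : c < a := (ENNReal.toReal_lt_toReal hγt hα).2 hγα
  have hc0 : 0 < c := hb0.trans hbc
  have ha0 : 0 < a := hc0.trans hca
  rcases hM.eq_or_lt with hM0 | hMpos
  · have : U x - U y = 0 := by
      have := h0 x y
      rw [← hM0, zero_mul] at this
      exact norm_le_zero_iff.1 this
    rw [this]
    have h2 : eLpNorm (⇑(0 : Lp ℂ β μ)) γ μ = 0 := by
      rw [eLpNorm_congr_ae (Lp.coeFn_zero _ _ _)]
      simp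
    rw [h2]
    exact bot_le
  -- the function `z = x - y`
  set z : Ω → ℂ := ⇑(x - y) with hz
  have hzm : StronglyMeasurable z := Lp.stronglyMeasurable _
  have hzL : MemLp z β μ := Lp.memLp _
  set w : Ω → ℂ := ⇑(U x - U y) with hw
  have hzn : Measurable fun x => ‖z x‖ := hzm.norm.measurable
  have H : ∀ t : ℝ, 0 < t → μ {x | t < ‖w x‖ / (2 * M)} ≤
      ENNReal.ofReal (t ^ (-a)) * (∫⁻ x, (if ‖z x‖ ≤ t then ENNReal.ofReal (‖z x‖ ^ a) else 0) ∂μ)
      + ENNReal.ofReal (t ^ (-b)) *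
        (∫⁻ x, (if t < ‖z x‖ then ENNReal.ofReal (‖z x‖ ^ b) else 0) ∂μ) := by
    intro t ht
    set s : Set Ω := {x | ‖z x‖ ≤ t} with hs
    have hsm : MeasurableSet s := measurableSet_le hzn measurable_const
    -- the two pieces
    have hpa : MemLp (s.indicator z) α μ := by
      refine MemLp.of_bound (hzm.indicator hsm).aestronglyMeasurable t ?_
      filter_upwards with x
      by_cases hx : x ∈ s
      · rw [indicator_of_mem hx]; exact hx
      · rw [indicator_of_notMem hx]; simpa using ht.le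
    have hpab : MemLp (s.indicator z) β μ := hzL.indicator hsm
    have hpb : MemLp (sᶜ.indicator z) β μ := hzL.indicator hsm.compl
    set A : Lp ℂ β μ := hpab.toLp _ with hA
    set B : Lp ℂ β μ := hpb.toLp _ with hB
    have hAB : x - y = B + A := by
      rw [hA, hB, ← MemLp.toLp_add]
      have h3 : (sᶜ.indicator z + s.indicator z) = z := by
        rw [add_comm]; exact indicator_self_add_compl s z
      have h4 : MemLp z β μ := Lp.memLp (x - y)
      rw [← Lp.toLp_coeFn (x - y) h4]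
      congr 1
      exact h3.symm
    have hAc : ⇑A =ᵐ[μ] s.indicator z := MemLp.coeFn_toLp hpab
    have hBc : ⇑B =ᵐ[μ] sᶜ.indicator z := MemLp.coeFn_toLp hpb
    have hAα : MemLp A α μ := (memLp_congr_ae hAc).2 hpa
    -- the decomposition of `U x - U y`
    set W1 : Lp ℂ β μ := U (y + B + A) - U (y + B) with hW1
    set W2 : Lp ℂ β μ := U (y + B) - U y with hW2
    have hW : U x - U y = W1 + W2 := by
      have : x = y + B + A := by
        rw [add_assoc, ← hAB]; abel
      rw [hW1, hW2, ← this]; abel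
    have hW1n : eLpNorm W1 α μ ≤ ENNReal.ofReal M * eLpNorm A α μ :=
      fatou hβt hM U h0 h1 (y + B) A hAα
    have hW2n : eLpNorm W2 β μ ≤ ENNReal.ofReal M * eLpNorm B β μ := by
      have h5 := h0 (y + B) y
      rw [add_sub_cancel_left] at h5
      rw [Lp.norm_def, Lp.norm_def] at h5
      have h6 : eLpNorm W2 β μ ≠ ∞ := Lp.eLpNorm_ne_top _
      have h7 : eLpNorm B β μ ≠ ∞ := Lp.eLpNorm_ne_top _
      rw [← ENNReal.ofReal_toReal h6, ← ENNReal.ofReal_toReal h7, ← ENNReal.ofReal_mul hM]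
      exact ENNReal.ofReal_le_ofReal h5
    -- Chebyshev
    have hsub : μ {x | t < ‖w x‖ / (2 * M)} ≤
        μ {x | ENNReal.ofReal (M * t) ≤ ‖W1 x‖ₑ} + μ {x | ENNReal.ofReal (M * t) ≤ ‖W2 x‖ₑ} := by
      have hwe : w =ᵐ[μ] fun x => W1 x + W2 x := by
        rw [hw, hW]; exact Lp.coeFn_add _ _
      have : {x | t < ‖w x‖ / (2 * M)} ≤ᵐ[μ]
          ({x | ENNReal.ofReal (M * t) ≤ ‖W1 x‖ₑ} ∪ {x | ENNReal.ofReal (M * t) ≤ ‖W2 x‖ₑ} :
            Set Ω) := by
        filter_upwards [hwe] with x hx hxm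
        have h8 : t < ‖w x‖ / (2 * M) := hxm
        rw [hx, lt_div_iff₀ (by positivity)] at h8
        have h9 : ‖W1 x + W2 x‖ ≤ ‖W1 x‖ + ‖W2 x‖ := norm_add_le _ _
        by_contra hcon
        have h10 : ¬ (ENNReal.ofReal (M * t) ≤ ‖W1 x‖ₑ) ∧
            ¬ (ENNReal.ofReal (M * t) ≤ ‖W2 x‖ₑ) := by
          constructor
          · intro h; exact hcon (Or.inl h)
          · intro h; exact hcon (Or.inr h)
        obtain ⟨h11, h12⟩ := h10
        rw [← ofReal_norm, ENNReal.ofReal_le_ofReal_iff (norm_nonneg _)] at h11 h12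
        push Not at h11 h12
        nlinarith
      exact (measure_mono_ae this).trans (measure_union_le _ _)
    refine hsub.trans (add_le_add ?_ ?_)
    · -- `W1`
      have hch := mul_meas_ge_le_pow_eLpNorm' μ hα0 hα (Lp.aestronglyMeasurable W1)
        (ENNReal.ofReal (M * t))
      have h13 : eLpNorm W1 α μ ^ a ≤ ENNReal.ofReal M ^ a *
          ∫⁻ x, (if ‖z x‖ ≤ t then ENNReal.ofReal (‖z x‖ ^ a) else 0) ∂μ := by
        refine (ENNReal.rpow_le_rpow hW1n ha0.le).trans ?_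
        rw [ENNReal.mul_rpow_of_nonneg _ _ ha0.le]
        refine mul_le_mul_right ?_ _
        rw [eLpNorm_congr_ae hAc, eLpNorm_eq_lintegral_rpow_enorm_toReal hα0 hα,
          ← ENNReal.rpow_mul, ← ha, one_div_mul_cancel ha0.ne', ENNReal.rpow_one]
        refine lintegral_mono fun x => ?_
        by_cases hx : x ∈ s
        · have hx' : ‖z x‖ ≤ t := hx
          rw [indicator_of_mem hx, if_pos hx', ← ofReal_norm,
            ENNReal.ofReal_rpow_of_nonneg (norm_nonneg _) ha0.le]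
        · have hx' : ¬ ‖z x‖ ≤ t := hx
          rw [indicator_of_notMem hx]
          simp [ha0]
      have hMt : 0 < M * t := by positivity
      have h14 : ENNReal.ofReal (M * t) ^ a ≠ 0 := by
        rw [ENNReal.ofReal_rpow_of_pos hMt]
        simp only [ne_eq, ENNReal.ofReal_eq_zero, not_le]
        positivity
      have h15 : ENNReal.ofReal (M * t) ^ a ≠ ∞ := by
        rw [ENNReal.ofReal_rpow_of_pos hMt]; exact ENNReal.ofReal_ne_top
      rw [← ENNReal.mul_le_mul_iff_right h14 h15]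
      refine hch.trans (h13.trans ?_)
      rw [← mul_assoc]
      refine mul_le_mul_left ?_ _
      rw [ENNReal.ofReal_rpow_of_pos hMt, ENNReal.ofReal_rpow_of_pos hMpos,
        ← ENNReal.ofReal_mul (by positivity)]
      refine ENNReal.ofReal_le_ofReal ?_
      rw [Real.mul_rpow hM ht.le, mul_assoc, ← Real.rpow_add ht]
      simp
    · -- `W2`
      have hch := mul_meas_ge_le_pow_eLpNorm' μ hβ0 hβt (Lp.aestronglyMeasurable W2)
        (ENNReal.ofReal (M * t))
      have h13 : eLpNorm W2 β μ ^ b ≤ ENNReal.ofReal M ^ b *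
          ∫⁻ x, (if t < ‖z x‖ then ENNReal.ofReal (‖z x‖ ^ b) else 0) ∂μ := by
        refine (ENNReal.rpow_le_rpow hW2n hb0.le).trans ?_
        rw [ENNReal.mul_rpow_of_nonneg _ _ hb0.le]
        refine mul_le_mul_right ?_ _
        rw [eLpNorm_congr_ae hBc, eLpNorm_eq_lintegral_rpow_enorm_toReal hβ0 hβt,
          ← ENNReal.rpow_mul, ← hb, one_div_mul_cancel hb0.ne', ENNReal.rpow_one]
        refine lintegral_mono fun x => ?_
        by_cases hx : x ∈ s
        · have hx' : ‖z x‖ ≤ t := hx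
          have hx2 : x ∉ sᶜ := fun h => h hx
          rw [indicator_of_notMem hx2]
          simp [hb0]
        · have hx' : ¬ ‖z x‖ ≤ t := hx
          have hx2 : x ∈ sᶜ := hx
          rw [indicator_of_mem hx2, if_pos (not_le.1 hx'), ← ofReal_norm,
            ENNReal.ofReal_rpow_of_nonneg (norm_nonneg _) hb0.le]
      have hMt : 0 < M * t := by positivity
      have h14 : ENNReal.ofReal (M * t) ^ b ≠ 0 := by
        rw [ENNReal.ofReal_rpow_of_pos hMt]
        simp only [ne_eq, ENNReal.ofReal_eq_zero, not_le]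
        positivity
      have h15 : ENNReal.ofReal (M * t) ^ b ≠ ∞ := by
        rw [ENNReal.ofReal_rpow_of_pos hMt]; exact ENNReal.ofReal_ne_top
      rw [← ENNReal.mul_le_mul_iff_right h14 h15]
      refine hch.trans (h13.trans ?_)
      rw [← mul_assoc]
      refine mul_le_mul_left ?_ _
      rw [ENNReal.ofReal_rpow_of_pos hMt, ENNReal.ofReal_rpow_of_pos hMpos,
        ← ENNReal.ofReal_mul (by positivity)]
      refine ENNReal.ofReal_le_ofReal ?_
      rw [Real.mul_rpow hM ht.le, mul_assoc, ← Real.rpow_add ht]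
      simp
  have hkey := Marcin.key μ hzm (Lp.aestronglyMeasurable (U x - U y)) hb0 hbc hca M hMpos H
  -- convert to norms
  have hac : 0 < a - c := by linarith
  have hcb : 0 < c - b := by linarith
  set K : ℝ := c / (a - c) + c / (c - b) with hK
  have hKpos : 0 < K := by positivity
  have e1 : ∫⁻ x, ENNReal.ofReal (‖z x‖ ^ c) ∂μ = eLpNorm z γ μ ^ c := by
    rw [eLpNorm_eq_lintegral_rpow_enorm_toReal hγ0 hγt, ← ENNReal.rpow_mul, ← hc,
      one_div_mul_cancel hc0.ne', ENNReal.rpow_one]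
    refine lintegral_congr fun x => ?_
    rw [← ofReal_norm, ENNReal.ofReal_rpow_of_nonneg (norm_nonneg _) hc0.le]
  have e2 : ∫⁻ x, ENNReal.ofReal ((‖w x‖ / (2 * M)) ^ c) ∂μ =
      (ENNReal.ofReal (1 / (2 * M)) * eLpNorm w γ μ) ^ c := by
    rw [ENNReal.mul_rpow_of_nonneg _ _ hc0.le, eLpNorm_eq_lintegral_rpow_enorm_toReal hγ0 hγt,
      ← ENNReal.rpow_mul, ← hc, one_div_mul_cancel hc0.ne', ENNReal.rpow_one,
      ENNReal.ofReal_rpow_of_pos (by positivity), ← lintegral_const_mul' _ _ ENNReal.ofReal_ne_top]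
    refine lintegral_congr fun x => ?_
    rw [← ofReal_norm, ENNReal.ofReal_rpow_of_nonneg (norm_nonneg _) hc0.le,
      ← ENNReal.ofReal_mul (by positivity), ← Real.mul_rpow (by positivity) (norm_nonneg _)]
    congr 2
    ring
  have hkey2 : (ENNReal.ofReal (1 / (2 * M)) * eLpNorm w γ μ) ^ c ≤
      (ENNReal.ofReal (K ^ (1 / c)) * eLpNorm z γ μ) ^ c := by
    rw [← e2, ENNReal.mul_rpow_of_nonneg _ _ hc0.le, ← e1,
      ENNReal.ofReal_rpow_of_pos (by positivity), ← Real.rpow_mul hKpos.le,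
      one_div_mul_cancel hc0.ne', Real.rpow_one]
    exact hkey
  have hkey3 := (ENNReal.rpow_le_rpow_iff hc0).1 hkey2
  have h16 : ENNReal.ofReal (2 * M) * (ENNReal.ofReal (1 / (2 * M)) * eLpNorm w γ μ) =
      eLpNorm w γ μ := by
    rw [← mul_assoc, ← ENNReal.ofReal_mul (by positivity)]
    have : 2 * M * (1 / (2 * M)) = 1 := by field_simp
    rw [this]; simp
  rw [← h16]
  refine (mul_le_mul_right hkey3 _).trans ?_
  rw [← mul_assoc, ← ENNReal.ofReal_mul (by positivity)]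
  refine mul_le_mul_left (ENNReal.ofReal_le_ofReal (le_of_eq ?_)) _
  ring

end Pool.Agent.H799R2.LipInterp
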