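import Mathlib

set_option autoImplicit false

open MeasureTheory Set Filter Topology
open scoped ENNReal NNReal

namespace Pool.Agent.H799R2.Marcin

/-- `∫_0^∞ t^{c-1-a} 1[s ≤ t] dt = s^{c-a}/(a-c)` for `s > 0`, `c < a`. -/
theorem int_upper {c a s : ℝ} (hca : c < a) (hs : 0 < s) :
    ∫⁻ t in Ioi (0 : ℝ), (if s ≤ t then ENNReal.ofReal (t ^ (c - 1 - a)) else 0)
      = ENNReal.ofReal (s ^ (c - a) / (a - c)) := by
  have h1 : ∫⁻ t in Ioi (0 : ℝ), (if s ≤ t then ENNReal.ofReal (t ^ (c - 1 - a)) else 0)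
      = ∫⁻ t in Ioi s, ENNReal.ofReal (t ^ (c - 1 - a)) := by
    rw [← lintegral_indicator measurableSet_Ioi, ← lintegral_indicator measurableSet_Ioi]
    have : ∀ᵐ t : ℝ, t ≠ s := by
      rw [ae_iff]; simp
    refine lintegral_congr_ae ?_
    filter_upwards [this] with t ht
    by_cases h : s < t
    · have h0 : 0 < t := hs.trans h
      simp [h.le, h, h0]
    · have h' : ¬ s ≤ t := fun h2 => h (lt_of_le_of_ne h2 (Ne.symm ht))
      by_cases h0 : 0 < t
      · simp [h, h', h0]
      · simp [h, h0]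
  rw [h1, ← ofReal_integral_eq_lintegral_ofReal]
  · rw [integral_Ioi_rpow_of_lt (by linarith) hs]
    congr 1
    have : c - 1 - a + 1 = c - a := by ring
    rw [this]
    rw [← neg_sub a c]
    field_simp
  · exact integrableOn_Ioi_rpow_of_lt (by linarith) hs
  · filter_upwards [ae_restrict_mem measurableSet_Ioi] with t ht
    exact Real.rpow_nonneg (hs.trans ht).le _

theorem int_lower {c b s : ℝ} (hbc : b < c) (hs : 0 ≤ s) :
    ∫⁻ t in Ioi (0 : ℝ), (if t < s then ENNReal.ofReal (t ^ (c - 1 - b)) else 0)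
      = ENNReal.ofReal (s ^ (c - b) / (c - b)) := by
  have h1 : ∫⁻ t in Ioi (0 : ℝ), (if t < s then ENNReal.ofReal (t ^ (c - 1 - b)) else 0)
      = ∫⁻ t in Ioc 0 s, ENNReal.ofReal (t ^ (c - 1 - b)) := by
    rw [← lintegral_indicator measurableSet_Ioi, ← lintegral_indicator measurableSet_Ioc]
    have : ∀ᵐ t : ℝ, t ≠ s := by
      rw [ae_iff]; simp
    refine lintegral_congr_ae ?_
    filter_upwards [this] with t ht
    by_cases h0 : 0 < t
    · by_cases h : t < s
      · simp [h, h.le, h0]
      · have h' : ¬ t ≤ s := fun h2 => h (lt_of_le_of_ne h2 ht)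
        simp [h, h', h0]
    · simp [h0]
  rw [h1, ← ofReal_integral_eq_lintegral_ofReal]
  · rw [← intervalIntegral.integral_of_le hs, integral_rpow (Or.inl (by linarith))]
    congr 1
    have : c - 1 - b + 1 = c - b := by ring
    rw [this, Real.zero_rpow (by linarith), sub_zero]
  · rw [← IntegrableOn, ← intervalIntegrable_iff_integrableOn_Ioc_of_le hs]
    exact intervalIntegral.intervalIntegrable_rpow' (by linarith)
  · filter_upwards [ae_restrict_mem measurableSet_Ioc] with t ht
    exact Real.rpow_nonneg ht.1.le _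

theorem key {Ω : Type*} [MeasurableSpace Ω] (μ : Measure Ω) [SFinite μ] {z w : Ω → ℂ}
    (hz : StronglyMeasurable z) (hw : AEStronglyMeasurable w μ) {b c a : ℝ} (hb : 0 < b)
    (hbc : b < c) (hca : c < a) (M : ℝ) (hM : 0 < M)
    (H : ∀ t : ℝ, 0 < t → μ {x | t < ‖w x‖ / (2 * M)} ≤
      ENNReal.ofReal (t ^ (-a)) * (∫⁻ x, (if ‖z x‖ ≤ t then ENNReal.ofReal (‖z x‖ ^ a) else 0) ∂μ)
      + ENNReal.ofReal (t ^ (-b)) *
        (∫⁻ x, (if t < ‖z x‖ then ENNReal.ofReal (‖z x‖ ^ b) else 0) ∂μ)) :
    ∫⁻ x, ENNReal.ofReal ((‖w x‖ / (2 * M)) ^ c) ∂μ ≤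
      ENNReal.ofReal (c / (a - c) + c / (c - b)) * ∫⁻ x, ENNReal.ofReal (‖z x‖ ^ c) ∂μ := by
  have hc : 0 < c := hb.trans hbc
  have hzn : Measurable fun x => ‖z x‖ := hz.norm.measurable
  rw [lintegral_rpow_eq_lintegral_meas_lt_mul μ (f := fun x => ‖w x‖ / (2 * M))
    (Eventually.of_forall fun x => by positivity)
    (hw.norm.aemeasurable.div_const _) hc]
  -- the two functions on the product
  set F : ℝ → Ω → ℝ≥0∞ := fun t x => if ‖z x‖ ≤ t then ENNReal.ofReal (t ^ (c - 1 - a)) *
    ENNReal.ofReal (‖z x‖ ^ a) else 0 with hF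
  set G : ℝ → Ω → ℝ≥0∞ := fun t x => if t < ‖z x‖ then ENNReal.ofReal (t ^ (c - 1 - b)) *
    ENNReal.ofReal (‖z x‖ ^ b) else 0 with hG
  have hFm : Measurable (Function.uncurry F) := by
    refine Measurable.ite (measurableSet_le (hzn.comp measurable_snd) measurable_fst) ?_
      measurable_const
    exact ((measurable_fst.pow_const _).ennreal_ofReal).mul
      (((hzn.comp measurable_snd).pow_const _).ennreal_ofReal)
  have hGm : Measurable (Function.uncurry G) := by
    refine Measurable.ite (measurableSet_lt measurable_fst (hzn.comp measurable_snd)) ?_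
      measurable_const
    exact ((measurable_fst.pow_const _).ennreal_ofReal).mul
      (((hzn.comp measurable_snd).pow_const _).ennreal_ofReal)
  have step1 : ∫⁻ t in Ioi (0 : ℝ), μ {x | t < ‖w x‖ / (2 * M)} * ENNReal.ofReal (t ^ (c - 1)) ≤
      ∫⁻ t in Ioi (0 : ℝ), ((∫⁻ x, F t x ∂μ) + ∫⁻ x, G t x ∂μ) := by
    refine setLIntegral_mono' measurableSet_Ioi fun t ht => ?_
    have ht' : 0 < t := ht
    refine (mul_le_mul_left (H t ht') _).trans ?_
    rw [add_mul]
    refine add_le_add ?_ ?_
    · rw [mul_right_comm, ← ENNReal.ofReal_mul (by positivity), ← Real.rpow_add ht',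
        ← lintegral_const_mul']
      · refine lintegral_mono fun x => ?_
        simp only [hF]
        split_ifs
        · have : -a + (c - 1) = c - 1 - a := by ring
          rw [this]
        · simp
      · exact ENNReal.ofReal_ne_top
    · rw [mul_right_comm, ← ENNReal.ofReal_mul (by positivity), ← Real.rpow_add ht',
        ← lintegral_const_mul']
      · refine lintegral_mono fun x => ?_
        simp only [hG]
        split_ifs
        · have : -b + (c - 1) = c - 1 - b := by ring
          rw [this]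
        · simp
      · exact ENNReal.ofReal_ne_top
  have step2 : ∫⁻ t in Ioi (0 : ℝ), ((∫⁻ x, F t x ∂μ) + ∫⁻ x, G t x ∂μ) =
      ∫⁻ x, ((∫⁻ t in Ioi (0 : ℝ), F t x) + ∫⁻ t in Ioi (0 : ℝ), G t x) ∂μ := by
    rw [lintegral_add_left hFm.lintegral_prod_right, lintegral_lintegral_swap hFm.aemeasurable,
      lintegral_lintegral_swap hGm.aemeasurable, ← lintegral_add_left]
    exact hFm.lintegral_prod_left
  have step3 : ∀ x, (∫⁻ t in Ioi (0 : ℝ), F t x) + (∫⁻ t in Ioi (0 : ℝ), G t x) ≤
      ENNReal.ofReal (1 / (a - c) + 1 / (c - b)) * ENNReal.ofReal (‖z x‖ ^ c) := by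
    intro x
    have hac : 0 < a - c := by linarith
    have hcb : 0 < c - b := by linarith
    rcases (norm_nonneg (z x)).eq_or_lt with h0 | h0
    · have e1 : ∫⁻ t in Ioi (0 : ℝ), F t x = 0 := by
        rw [lintegral_eq_zero_iff' (by
          exact (hFm.comp (measurable_id.prodMk measurable_const)).aemeasurable)]
        filter_upwards with t
        simp only [hF, ← h0]
        rw [Real.zero_rpow (by linarith)]
        simp
      have e2 : ∫⁻ t in Ioi (0 : ℝ), G t x = 0 := by
        rw [lintegral_eq_zero_iff' (by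
          exact (hGm.comp (measurable_id.prodMk measurable_const)).aemeasurable)]
        filter_upwards with t
        simp only [hG, ← h0]
        rw [Real.zero_rpow (by linarith)]
        simp
      rw [e1, e2]; simp
    · have e1 : ∫⁻ t in Ioi (0 : ℝ), F t x = ENNReal.ofReal (‖z x‖ ^ c / (a - c)) := by
        have : ∀ t, F t x = (if ‖z x‖ ≤ t then ENNReal.ofReal (t ^ (c - 1 - a)) else 0) *
            ENNReal.ofReal (‖z x‖ ^ a) := by
          intro t; simp only [hF]; split_ifs <;> simp
        simp_rw [this]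
        rw [lintegral_mul_const' _ _ ENNReal.ofReal_ne_top, int_upper hca h0,
          ← ENNReal.ofReal_mul (by positivity)]
        congr 1
        rw [div_mul_eq_mul_div, ← Real.rpow_add h0]
        congr 2; ring
      have e2 : ∫⁻ t in Ioi (0 : ℝ), G t x = ENNReal.ofReal (‖z x‖ ^ c / (c - b)) := by
        have : ∀ t, G t x = (if t < ‖z x‖ then ENNReal.ofReal (t ^ (c - 1 - b)) else 0) *
            ENNReal.ofReal (‖z x‖ ^ b) := by
          intro t; simp only [hG]; split_ifs <;> simp
        simp_rw [this]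
        rw [lintegral_mul_const' _ _ ENNReal.ofReal_ne_top, int_lower hbc h0.le,
          ← ENNReal.ofReal_mul (by positivity)]
        congr 1
        rw [div_mul_eq_mul_div, ← Real.rpow_add h0]
        congr 2; ring
      rw [e1, e2, ← ENNReal.ofReal_add (by positivity) (by positivity),
        ← ENNReal.ofReal_mul (by positivity)]
      apply le_of_eq
      congr 1
      ring
  calc ENNReal.ofReal c * ∫⁻ t in Ioi (0 : ℝ), μ {x | t < ‖w x‖ / (2 * M)} *
        ENNReal.ofReal (t ^ (c - 1))
      ≤ ENNReal.ofReal c * ∫⁻ x, ENNReal.ofReal (1 / (a - c) + 1 / (c - b)) *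
          ENNReal.ofReal (‖z x‖ ^ c) ∂μ := by
        refine mul_le_mul_right ((step1.trans_eq step2).trans (lintegral_mono step3)) _
    _ = ENNReal.ofReal (c / (a - c) + c / (c - b)) * ∫⁻ x, ENNReal.ofReal (‖z x‖ ^ c) ∂μ := by
        rw [lintegral_const_mul' _ _ ENNReal.ofReal_ne_top, ← mul_assoc,
          ← ENNReal.ofReal_mul hc.le]
        congr 2
        ring

end Pool.Agent.H799R2.Marcin
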