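import Mathlib

set_option autoImplicit false

open Filter Topology Set

namespace Pool.Agent.H799R2.Union

/-- bounded real functions -/
def Bd {V : Type} (f : V → ℝ) : Prop := ∃ C : ℝ, ∀ v, |f v| ≤ C

lemma Bd.add {V : Type} {f g : V → ℝ} (hf : Bd f) (hg : Bd g) : Bd (fun v => f v + g v) := by
  obtain ⟨C, hC⟩ := hf
  obtain ⟨D, hD⟩ := hg
  exact ⟨C + D, fun v => (abs_add_le _ _).trans (add_le_add (hC v) (hD v))⟩

lemma Bd.smul {V : Type} {f : V → ℝ} (hf : Bd f) (c : ℝ) : Bd (fun v => c * f v) := by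
  obtain ⟨C, hC⟩ := hf
  exact ⟨|c| * C, fun v => by rw [abs_mul]; exact mul_le_mul_of_nonneg_left (hC v) (abs_nonneg _)⟩

lemma Bd.comp {V W : Type} {f : V → ℝ} (hf : Bd f) (g : W → V) : Bd (fun w => f (g w)) := by
  obtain ⟨C, hC⟩ := hf
  exact ⟨C, fun v => hC _⟩

/-- ultralimit of a sequence -/
lemma exists_ulim (u : ℕ → ℝ) (hu : Bd u) :
    ∃ x : ℝ, Tendsto u (hyperfilter ℕ : Filter ℕ) (𝓝 x) := by
  obtain ⟨C, hC⟩ := hu
  have h := (isCompact_Icc (a := -C) (b := C)).ultrafilter_le_nhds ((hyperfilter ℕ).map u) (by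
    rw [le_principal_iff]
    exact Filter.mem_map.2 (Filter.univ_mem' fun k => abs_le.1 (hC k)))
  obtain ⟨x, _, hx⟩ := h
  exact ⟨x, hx⟩

open Classical in
/-- ultralimit -/
noncomputable def ulim (u : ℕ → ℝ) : ℝ :=
  if h : ∃ x : ℝ, Tendsto u (hyperfilter ℕ : Filter ℕ) (𝓝 x) then h.choose else 0

lemma tendsto_ulim (u : ℕ → ℝ) (hu : Bd u) :
    Tendsto u (hyperfilter ℕ : Filter ℕ) (𝓝 (ulim u)) := by
  have h := exists_ulim u hu
  unfold ulim
  rw [dif_pos h]
  exact h.choose_spec

lemma ulim_eq {u : ℕ → ℝ} {x : ℝ} (h : Tendsto u (hyperfilter ℕ : Filter ℕ) (𝓝 x)) :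
    ulim u = x := by
  have h' : ∃ x : ℝ, Tendsto u (hyperfilter ℕ : Filter ℕ) (𝓝 x) := ⟨x, h⟩
  unfold ulim
  rw [dif_pos h']
  exact tendsto_nhds_unique h'.choose_spec h

lemma hyper_le : (hyperfilter ℕ : Filter ℕ) ≤ atTop := Nat.hyperfilter_le_atTop

/-- the box -/
noncomputable def box (ι : Type) [Fintype ι] [DecidableEq ι] (k : ℕ) : Finset (ι → ℤ) :=
  Fintype.piFinset fun _ => Finset.Ico (0 : ℤ) (k + 1)

/-- box average -/
noncomputable def bavg {ι : Type} [Fintype ι] [DecidableEq ι] (f : (ι → ℤ) → ℝ) (k : ℕ) : ℝ :=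
  (∑ z ∈ box ι k, f z) / ((k + 1 : ℝ) ^ Fintype.card ι)

lemma box_card (ι : Type) [Fintype ι] [DecidableEq ι] (k : ℕ) :
    ((box ι k).card : ℝ) = (k + 1 : ℝ) ^ Fintype.card ι := by
  unfold box
  rw [Fintype.card_piFinset]
  simp

lemma bavg_le {ι : Type} [Fintype ι] [DecidableEq ι] (f : (ι → ℤ) → ℝ) (k : ℕ) (C : ℝ)
    (h : ∀ z, f z ≤ C) : bavg f k ≤ C := by
  unfold bavg
  rw [div_le_iff₀ (by positivity), ← box_card]
  calc ∑ z ∈ box ι k, f z ≤ ∑ _z ∈ box ι k, C := Finset.sum_le_sum fun z _ => h z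
    _ = C * (box ι k).card := by rw [Finset.sum_const, nsmul_eq_mul, mul_comm]

lemma bavg_abs {ι : Type} [Fintype ι] [DecidableEq ι] (f : (ι → ℤ) → ℝ) (k : ℕ) (C : ℝ)
    (h : ∀ z, |f z| ≤ C) : |bavg f k| ≤ C := by
  rw [abs_le]
  constructor
  · have := bavg_le (fun z => - f z) k C (fun z => (neg_le_abs _).trans (h z))
    have e : bavg (fun z => - f z) k = - bavg f k := by
      unfold bavg; rw [Finset.sum_neg_distrib, neg_div]
    rw [e] at this; linarith
  · exact bavg_le f k C fun z => (le_abs_self _).trans (h z)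

lemma bavg_shift {ι : Type} [Fintype ι] [DecidableEq ι] (f : (ι → ℤ) → ℝ) (hf : Bd f)
    (w : ι → ℤ) :
    Tendsto (fun k => bavg (fun z => f (z + w)) k - bavg f k) atTop (𝓝 0) := by
  obtain ⟨C, hC⟩ := hf
  have hC0 : 0 ≤ C := (abs_nonneg _).trans (hC 0)
  -- card of the intersection
  let I : ℕ → Finset (ι → ℤ) := fun k => box ι k ∩ (box ι k).map (addRightEmbedding w)
  have hI : ∀ k, I k = Fintype.piFinset fun i => Finset.Ico (max 0 (w i)) (min (k + 1) (k + 1 + w i)) := by
    intro k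
    ext z
    simp only [I, box, Finset.mem_inter, Fintype.mem_piFinset, Finset.mem_Ico, Finset.mem_map,
      addRightEmbedding_apply]
    constructor
    · rintro ⟨h1, y, hy, rfl⟩ i
      have a := h1 i
      have b := hy i
      simp only [Pi.add_apply] at a ⊢
      omega
    · intro h
      refine ⟨fun i => ?_, z - w, fun i => ?_, by simp⟩
      · have := h i; omega
      · have := h i; simp only [Pi.sub_apply]; omega
  have hIc : ∀ k, ((I k).card : ℝ) = ∏ i, ((((k : ℤ) + 1 - |w i|).toNat : ℕ) : ℝ) := by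
    intro k
    rw [hI, Fintype.card_piFinset]
    push_cast
    refine Finset.prod_congr rfl fun i _ => ?_
    rw [Int.card_Ico]
    congr 2
    rcases abs_cases (w i) with ⟨h, h'⟩ | ⟨h, h'⟩ <;> rw [h] <;> omega
  have hratio : Tendsto (fun k => ((I k).card : ℝ) / ((k + 1 : ℝ) ^ Fintype.card ι)) atTop
      (𝓝 1) := by
    have h1 : ∀ k : ℕ, ((I k).card : ℝ) / ((k + 1 : ℝ) ^ Fintype.card ι) =
        ∏ i, (((((k : ℤ) + 1 - |w i|).toNat : ℕ) : ℝ) / (k + 1)) := by
      intro k
      rw [hIc, Finset.prod_div_distrib, Finset.prod_const, Finset.card_univ]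
    simp_rw [h1]
    have h2 : ∀ i : ι, Tendsto (fun k : ℕ => ((((k : ℤ) + 1 - |w i|).toNat : ℕ) : ℝ) / (k + 1))
        atTop (𝓝 1) := by
      intro i
      have h3 : Tendsto (fun k : ℕ => 1 - ((|w i| : ℤ) : ℝ) / ((k : ℝ) + 1)) atTop (𝓝 (1 - 0)) := by
        apply Tendsto.const_sub
        exact (tendsto_const_div_atTop_nhds_zero_nat ((|w i| : ℤ) : ℝ)).comp
          (tendsto_add_atTop_nat 1) |>.congr (by intro k; simp)
      rw [sub_zero] at h3
      refine h3.congr' ?_
      filter_upwards [eventually_ge_atTop (|w i|).toNat] with k hk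
      have hk' : |w i| ≤ k := by
        have := Int.toNat_of_nonneg (abs_nonneg (w i))
        omega
      have : ((((k : ℤ) + 1 - |w i|).toNat : ℕ) : ℤ) = (k : ℤ) + 1 - |w i| :=
        Int.toNat_of_nonneg (by omega)
      have h4 : ((((k : ℤ) + 1 - |w i|).toNat : ℕ) : ℝ) = (k : ℝ) + 1 - ((|w i| : ℤ) : ℝ) := by
        have := congrArg (fun m : ℤ => (m : ℝ)) this
        push_cast at this ⊢
        exact this
      rw [h4]
      have : (k : ℝ) + 1 ≠ 0 := by positivity
      field_simp
    simpa using tendsto_finsetProd Finset.univ (fun i _ => h2 i)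
  have hbound : ∀ k, |bavg (fun z => f (z + w)) k - bavg f k| ≤
      2 * C * (1 - ((I k).card : ℝ) / ((k + 1 : ℝ) ^ Fintype.card ι)) := by
    intro k
    have hpos : (0 : ℝ) < (k + 1 : ℝ) ^ Fintype.card ι := by positivity
    have e1 : ∑ z ∈ box ι k, f (z + w) = ∑ z ∈ (box ι k).map (addRightEmbedding w), f z := by
      rw [Finset.sum_map]; rfl
    unfold bavg
    rw [e1, ← sub_div, abs_div, abs_of_pos hpos, div_le_iff₀ hpos]
    have e2 : ∑ z ∈ (box ι k).map (addRightEmbedding w), f z =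
        ∑ z ∈ (box ι k).map (addRightEmbedding w) \ (I k), f z + ∑ z ∈ I k, f z := by
      rw [Finset.sum_sdiff]; exact Finset.inter_subset_right
    have e3 : ∑ z ∈ box ι k, f z = ∑ z ∈ box ι k \ (I k), f z + ∑ z ∈ I k, f z := by
      rw [Finset.sum_sdiff]; exact Finset.inter_subset_left
    have e4 : ∀ A : Finset (ι → ℤ), |∑ z ∈ A, f z| ≤ C * A.card := by
      intro A
      refine (Finset.abs_sum_le_sum_abs _ _).trans ?_
      refine (Finset.sum_le_sum fun z _ => hC z).trans ?_
      rw [Finset.sum_const, nsmul_eq_mul, mul_comm]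
    have c1 : (((box ι k).map (addRightEmbedding w) \ (I k)).card : ℝ) =
        (k + 1 : ℝ) ^ Fintype.card ι - (I k).card := by
      rw [Finset.card_sdiff_of_subset Finset.inter_subset_right, Finset.card_map,
        Nat.cast_sub, box_card]
      exact Finset.card_le_card Finset.inter_subset_left
    have c2 : ((box ι k \ (I k)).card : ℝ) = (k + 1 : ℝ) ^ Fintype.card ι - (I k).card := by
      rw [Finset.card_sdiff_of_subset Finset.inter_subset_left,
        Nat.cast_sub, box_card]
      exact Finset.card_le_card Finset.inter_subset_left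
    have h1 := e4 ((box ι k).map (addRightEmbedding w) \ (I k))
    have h2 := e4 (box ι k \ (I k))
    rw [c1] at h1; rw [c2] at h2
    rw [e2, e3]
    have e5 : 2 * C * (1 - ((I k).card : ℝ) / ((k + 1 : ℝ) ^ Fintype.card ι)) *
        (k + 1 : ℝ) ^ Fintype.card ι = 2 * C * ((k + 1 : ℝ) ^ Fintype.card ι - (I k).card) := by
      field_simp
    rw [e5]
    have := abs_le.1 h1
    have := abs_le.1 h2
    rw [abs_le]
    constructor <;> linarith
  have hz : Tendsto (fun k : ℕ => 2 * C * (1 - ((I k).card : ℝ) / ((k + 1 : ℝ) ^ Fintype.card ι)))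
      atTop (𝓝 0) := by
    have := (hratio.const_sub 1).const_mul (2 * C)
    simpa using this
  exact squeeze_zero_norm (fun k => by rw [Real.norm_eq_abs]; exact hbound k) hz

/-- invariant mean on `ι → ℤ` -/
noncomputable def mean {ι : Type} [Fintype ι] [DecidableEq ι] (f : (ι → ℤ) → ℝ) : ℝ :=
  ulim (bavg f)

lemma bd_bavg {ι : Type} [Fintype ι] [DecidableEq ι] {f : (ι → ℤ) → ℝ} (hf : Bd f) :
    Bd (bavg f) := by
  obtain ⟨C, hC⟩ := hf
  exact ⟨C, fun k => bavg_abs f k C hC⟩

lemma mean_add {ι : Type} [Fintype ι] [DecidableEq ι] {f g : (ι → ℤ) → ℝ} (hf : Bd f)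
    (hg : Bd g) : mean (fun z => f z + g z) = mean f + mean g := by
  apply ulim_eq
  have := (tendsto_ulim _ (bd_bavg hf)).add (tendsto_ulim _ (bd_bavg hg))
  refine this.congr fun k => ?_
  unfold bavg
  rw [Finset.sum_add_distrib, add_div]

lemma mean_smul {ι : Type} [Fintype ι] [DecidableEq ι] {f : (ι → ℤ) → ℝ} (hf : Bd f) (c : ℝ) :
    mean (fun z => c * f z) = c * mean f := by
  apply ulim_eq
  have := (tendsto_ulim _ (bd_bavg hf)).const_mul c
  refine this.congr fun k => ?_
  unfold bavg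
  rw [← Finset.mul_sum, mul_div_assoc]

lemma mean_le {ι : Type} [Fintype ι] [DecidableEq ι] {f : (ι → ℤ) → ℝ} (hf : Bd f) (C : ℝ)
    (h : ∀ z, f z ≤ C) : mean f ≤ C :=
  le_of_tendsto' (tendsto_ulim _ (bd_bavg hf)) fun k => bavg_le f k C h

lemma mean_neg {ι : Type} [Fintype ι] [DecidableEq ι] {f : (ι → ℤ) → ℝ} (hf : Bd f) :
    mean (fun z => - f z) = - mean f := by
  have := mean_smul hf (-1)
  simpa using this

lemma Bd.neg {V : Type} {f : V → ℝ} (hf : Bd f) : Bd (fun v => - f v) := by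
  simpa using hf.smul (-1)

lemma Bd.sub {V : Type} {f g : V → ℝ} (hf : Bd f) (hg : Bd g) : Bd (fun v => f v - g v) := by
  simpa [sub_eq_add_neg] using hf.add hg.neg

lemma mean_sub {ι : Type} [Fintype ι] [DecidableEq ι] {f g : (ι → ℤ) → ℝ} (hf : Bd f)
    (hg : Bd g) : mean (fun z => f z - g z) = mean f - mean g := by
  simp only [sub_eq_add_neg]
  rw [mean_add hf hg.neg, mean_neg hg]

lemma mean_const {ι : Type} [Fintype ι] [DecidableEq ι] (c : ℝ) :
    mean (fun _ : ι → ℤ => c) = c := by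
  apply ulim_eq
  refine tendsto_const_nhds.congr fun k => ?_
  unfold bavg
  rw [Finset.sum_const, nsmul_eq_mul, box_card, mul_comm, mul_div_assoc, div_self (by positivity),
    mul_one]

lemma mean_abs {ι : Type} [Fintype ι] [DecidableEq ι] {f : (ι → ℤ) → ℝ} (C : ℝ)
    (h : ∀ z, |f z| ≤ C) : |mean f| ≤ C := by
  have hf : Bd f := ⟨C, h⟩
  rw [abs_le]
  constructor
  · have := mean_le hf.neg C (fun z => (neg_le_abs _).trans (h z))
    rw [mean_neg hf] at this; linarith
  · exact mean_le hf C fun z => (le_abs_self _).trans (h z)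

lemma mean_shift {ι : Type} [Fintype ι] [DecidableEq ι] {f : (ι → ℤ) → ℝ} (hf : Bd f)
    (w : ι → ℤ) : mean (fun z => f (z + w)) = mean f := by
  apply ulim_eq
  have h1 := (bavg_shift f hf w).mono_left hyper_le
  have h2 := h1.add (tendsto_ulim _ (bd_bavg hf))
  rw [zero_add] at h2
  refine h2.congr fun k => ?_
  ring

lemma Bd.sum {V E : Type} (s : Finset E) {f : E → V → ℝ} (hf : ∀ e, Bd (f e)) :
    Bd (fun v => ∑ e ∈ s, f e v) := by
  classical
  induction s using Finset.induction_on with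
  | empty => exact ⟨0, by simp⟩
  | insert a s ha ih =>
    simp only [Finset.sum_insert ha]
    exact (hf a).add ih

lemma mean_sum {ι E : Type} [Fintype ι] [DecidableEq ι] (s : Finset E)
    {f : E → (ι → ℤ) → ℝ} (hf : ∀ e, Bd (f e)) :
    mean (fun z => ∑ e ∈ s, f e z) = ∑ e ∈ s, mean (f e) := by
  classical
  induction s using Finset.induction_on with
  | empty => simpa using mean_const (ι := ι) 0
  | insert a s ha ih =>
    simp only [Finset.sum_insert ha]
    rw [mean_add (hf a) (Bd.sum s hf), ih]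

/-- **Extension lemma**: a family `D` of additive functions on `ℤ^N` which has a Lipschitz extension
to `ℤ^Γ` has an additive extension with the same bound. -/
theorem extend {N Γ E : Type} [Fintype N] [DecidableEq N] [Fintype Γ] [DecidableEq Γ] [Fintype E]
    (i : (N → ℤ) →+ (Γ → ℤ)) (U : E → (Γ → ℤ) → ℝ) (nm : (Γ → ℤ) → ℝ)
    (hU : ∀ a a', ∑ e, |U e a - U e a'| ≤ nm (a - a'))
    (D : E → (N → ℤ) →+ ℝ) (hD : ∀ e y, U e (i y) = D e y) :
    ∃ T : E → (Γ → ℤ) →+ ℝ, (∀ e y, T e (i y) = D e y) ∧ ∀ a, ∑ e, |T e a| ≤ nm a := by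
  classical
  have hU1 : ∀ e a a', |U e a - U e a'| ≤ nm (a - a') := by
    intro e a a'
    refine le_trans ?_ (hU a a')
    exact Finset.single_le_sum (f := fun e => |U e a - U e a'|) (fun _ _ => abs_nonneg _)
      (Finset.mem_univ e)
  -- first average
  let Q : E → (Γ → ℤ) → (Γ → ℤ) → (N → ℤ) → ℝ := fun e a w w' =>
    U e (a + w + i w') - U e (w + i w')
  have hQ : ∀ e a w w', |Q e a w w'| ≤ nm a := by
    intro e a w w'
    have := hU1 e (a + w + i w') (w + i w')
    have e1 : a + w + i w' - (w + i w') = a := by abel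
    rwa [e1] at this
  have hQb : ∀ e a w, Bd (Q e a w) := fun e a w => ⟨_, hQ e a w⟩
  let G : E → (Γ → ℤ) → (Γ → ℤ) → ℝ := fun e a w => mean (Q e a w)
  have hG : ∀ e a w, |G e a w| ≤ nm a := fun e a w => mean_abs _ (hQ e a w)
  have hGb : ∀ e a, Bd (G e a) := fun e a => ⟨_, hG e a⟩
  have hGadd : ∀ e a a' w, G e (a + a') w = G e a (w + a') + G e a' w := by
    intro e a a' w
    change mean _ = mean _ + mean _
    rw [← mean_add (hQb e a (w + a')) (hQb e a' w)]
    congr 1
    funext w'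
    simp only [Q]
    have e1 : a + a' + w + i w' = a + (w + a') + i w' := by abel
    have e2 : a' + w + i w' = w + a' + i w' := by abel
    rw [e1, e2]; ring
  have hGi : ∀ e y w, G e (i y) w = D e y := by
    intro e y w
    let q : (N → ℤ) → ℝ := fun w' => U e (w + i w') - U e (i w')
    have hq : Bd q := by
      refine ⟨nm w, fun w' => ?_⟩
      have := hU1 e (w + i w') (i w')
      rwa [add_sub_cancel_right] at this
    have e1 : Q e (i y) w = fun w' => (q (w' + y) - q w') + D e y := by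
      funext w'
      simp only [Q, q, hD, map_add]
      have : i y + w + i w' = w + (i w' + i y) := by abel
      rw [this]; ring
    change mean (Q e (i y) w) = _
    have hq2 : Bd fun w' => q (w' + y) := hq.comp (fun w' => w' + y)
    rw [e1, mean_add (hq2.sub hq) ⟨|D e y|, fun _ => le_rfl⟩,
      mean_sub hq2 hq, mean_shift hq, mean_const]
    ring
  let T0 : E → (Γ → ℤ) → ℝ := fun e a => mean (G e a)
  have hT0 : ∀ e a a', T0 e (a + a') = T0 e a + T0 e a' := by
    intro e a a'
    change mean _ = mean _ + mean _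
    have e1 : G e (a + a') = fun w => G e a (w + a') + G e a' w := funext (hGadd e a a')
    rw [e1, mean_add ((hGb e a).comp fun w => w + a') (hGb e a'), mean_shift (hGb e a)]
  refine ⟨fun e => AddMonoidHom.mk' (T0 e) (hT0 e), ?_, ?_⟩
  · intro e y
    change mean (G e (i y)) = _
    have : G e (i y) = fun _ => D e y := funext (hGi e y)
    rw [this, mean_const]
  · intro a
    change ∑ e, |T0 e a| ≤ nm a
    let s : E → ℝ := fun e => if 0 ≤ T0 e a then 1 else -1
    have hs : ∀ e, |T0 e a| = s e * T0 e a := by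
      intro e
      simp only [s]
      split_ifs with h
      · rw [abs_of_nonneg h, one_mul]
      · rw [abs_of_neg (not_le.1 h)]; ring
    have hs1 : ∀ e, |s e| = 1 := by
      intro e; simp only [s]; split_ifs <;> simp
    simp_rw [hs]
    have e1 : ∑ e, s e * T0 e a = mean (fun w => ∑ e, s e * G e a w) := by
      rw [mean_sum Finset.univ (fun e => (hGb e a).smul (s e))]
      exact Finset.sum_congr rfl fun e _ => (mean_smul (hGb e a) (s e)).symm
    rw [e1]
    refine mean_le (Bd.sum Finset.univ fun e => (hGb e a).smul (s e)) _ fun w => ?_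
    have e2 : ∑ e, s e * G e a w = mean (fun w' => ∑ e, s e * Q e a w w') := by
      rw [mean_sum Finset.univ (fun e => (hQb e a w).smul (s e))]
      exact Finset.sum_congr rfl fun e _ => (mean_smul (hQb e a w) (s e)).symm
    rw [e2]
    refine mean_le (Bd.sum Finset.univ fun e => (hQb e a w).smul (s e)) _ fun w' => ?_
    have e3 : a + w + i w' - (w + i w') = a := by abel
    have := hU (a + w + i w') (w + i w')
    rw [e3] at this
    refine le_trans (Finset.sum_le_sum fun e _ => ?_) this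
    calc s e * Q e a w w' ≤ |s e * Q e a w w'| := le_abs_self _
      _ = |U e (a + w + i w') - U e (w + i w')| := by rw [abs_mul, hs1, one_mul]

end Pool.Agent.H799R2.Union
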