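import Pool.Agent.H799R2.UPoint
import Pool.Agent.H799R2.UMean

set_option autoImplicit false

open MeasureTheory Filter Topology Set
open scoped NNReal ENNReal

namespace Pool.Agent.H799R2.Union

variable {Ω : Type} [MeasurableSpace Ω] {μ : Measure Ω}

/-- the real map given by an integer matrix -/
def mr {N Γ : Type} [Fintype N] (g : Γ → N → ℤ) (y : N → ℝ) : Γ → ℝ :=
  fun c => ∑ x, (g c x : ℝ) * y x

lemma mr_add {N Γ : Type} [Fintype N] (g : Γ → N → ℤ) (y y' : N → ℝ) :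
    mr g (y + y') = mr g y + mr g y' := by
  funext c
  simp [mr, mul_add, Finset.sum_add_distrib]

lemma mr_smul {N Γ : Type} [Fintype N] (g : Γ → N → ℤ) (r : ℝ) (y : N → ℝ) :
    mr g (r • y) = r • mr g y := by
  funext c
  simp only [mr, Pi.smul_apply, smul_eq_mul, Finset.mul_sum]
  exact Finset.sum_congr rfl fun x _ => by ring

/-- the integer map given by an integer matrix -/
def mz {N Γ : Type} [Fintype N] (g : Γ → N → ℤ) : (N → ℤ) →+ (Γ → ℤ) :=
  AddMonoidHom.mk' (fun y c => ∑ x, g c x * y x) (by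
    intro y y'
    funext c
    simp [mul_add, Finset.sum_add_distrib])

lemma mr_cast {N Γ : Type} [Fintype N] (g : Γ → N → ℤ) (y : N → ℤ) :
    mr g (fun x => (y x : ℝ)) = fun c => ((mz g y c : ℤ) : ℝ) := by
  funext c
  simp [mr, mz]

/-- One side of the argument: blow-up and linear extension. -/
lemma side {N Γ : Type} [Fintype N] [DecidableEq N] [Fintype Γ] [DecidableEq Γ]
    (g : Γ → N → ℤ) (C : ℝ) (F : (Γ → ℝ) → Lp ℝ 1 μ)
    (hF : ∀ a a', ‖F a - F a'‖ ≤ C * ∑ c, |a c - a' c|)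
    (t : Ω → (N → Bool)) (ht : Measurable t) (z : N → ℝ)
    (hd : ∀ e, DifferentiableAt ℝ (fun y => AI μ (t ⁻¹' {e}) (F (mr g y))) z) :
    ∃ φ : (N → Bool) → Γ → ℝ,
      (∀ e x, fderiv ℝ (fun y => AI μ (t ⁻¹' {e}) (F (mr g y))) z (Pi.single x (1 : ℝ)) =
        ∑ c, (g c x : ℝ) * φ e c) ∧
      ∀ c, ∑ e, |φ e c| ≤ C := by
  classical
  -- blow-up sequence
  let B : (N → Bool) → (Γ → ℤ) → ℕ → ℝ := fun e a k =>
    ((k : ℝ) + 1) * (AI μ (t ⁻¹' {e}) (F (mr g z + ((k : ℝ) + 1)⁻¹ • fun c => (a c : ℝ))) -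
      AI μ (t ⁻¹' {e}) (F (mr g z)))
  have hB : ∀ a a' k, ∑ e, |B e a k - B e a' k| ≤ C * ∑ c, |((a - a') c : ℝ)| := by
    intro a a' k
    have hk : (0 : ℝ) < (k : ℝ) + 1 := by positivity
    have e1 : ∀ e, |B e a k - B e a' k| = ((k : ℝ) + 1) * |AI μ (t ⁻¹' {e})
        (F (mr g z + ((k : ℝ) + 1)⁻¹ • fun c => (a c : ℝ)) -
          F (mr g z + ((k : ℝ) + 1)⁻¹ • fun c => (a' c : ℝ)))| := by
      intro e
      rw [AI_sub]
      have : B e a k - B e a' k = ((k : ℝ) + 1) * (AI μ (t ⁻¹' {e})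
        (F (mr g z + ((k : ℝ) + 1)⁻¹ • fun c => (a c : ℝ))) - AI μ (t ⁻¹' {e})
          (F (mr g z + ((k : ℝ) + 1)⁻¹ • fun c => (a' c : ℝ)))) := by simp only [B]; ring
      rw [this, abs_mul, abs_of_pos hk]
    simp_rw [e1]
    rw [← Finset.mul_sum]
    have h1 := sum_AI_le t ht (F (mr g z + ((k : ℝ) + 1)⁻¹ • fun c => (a c : ℝ)) -
          F (mr g z + ((k : ℝ) + 1)⁻¹ • fun c => (a' c : ℝ)))
    have h2 := h1.trans (hF _ _)
    have e2 : ∀ c, |(mr g z + ((k : ℝ) + 1)⁻¹ • fun c => (a c : ℝ)) c -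
        (mr g z + ((k : ℝ) + 1)⁻¹ • fun c => (a' c : ℝ)) c| =
        ((k : ℝ) + 1)⁻¹ * |((a - a') c : ℝ)| := by
      intro c
      simp only [Pi.add_apply, Pi.smul_apply, smul_eq_mul, Pi.sub_apply, Int.cast_sub]
      rw [add_sub_add_left_eq_sub, ← mul_sub, abs_mul, abs_of_pos (inv_pos.2 hk)]
    simp_rw [e2] at h2
    rw [← Finset.mul_sum] at h2
    calc ((k : ℝ) + 1) * _ ≤ ((k : ℝ) + 1) * (C * (((k : ℝ) + 1)⁻¹ * ∑ c, |((a - a') c : ℝ)|)) :=
          mul_le_mul_of_nonneg_left h2 hk.le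
      _ = C * ∑ c, |((a - a') c : ℝ)| := by field_simp
  have hB0 : ∀ e k, B e 0 k = 0 := by
    intro e k
    have : (((k : ℝ) + 1)⁻¹ • fun c : Γ => (((0 : Γ → ℤ) c : ℤ) : ℝ)) = 0 := by
      funext c; simp
    simp only [B]
    rw [this, add_zero, sub_self, mul_zero]
  have hBb : ∀ e a, Bd (B e a) := by
    intro e a
    refine ⟨C * ∑ c, |(a c : ℝ)|, fun k => ?_⟩
    have h1 := hB a 0 k
    have h2 : |B e a k - B e 0 k| ≤ ∑ e, |B e a k - B e 0 k| :=
      Finset.single_le_sum (f := fun e => |B e a k - B e 0 k|) (fun _ _ => abs_nonneg _)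
        (Finset.mem_univ e)
    rw [hB0, sub_zero] at h2
    simp only [sub_zero] at h1
    exact h2.trans h1
  let U : (N → Bool) → (Γ → ℤ) → ℝ := fun e a => ulim (B e a)
  have hU : ∀ a a', ∑ e, |U e a - U e a'| ≤ C * ∑ c, |((a - a') c : ℝ)| := by
    intro a a'
    have h1 : Tendsto (fun k => ∑ e, |B e a k - B e a' k|) (hyperfilter ℕ : Filter ℕ)
        (𝓝 (∑ e, |U e a - U e a'|)) := by
      apply tendsto_finsetSum
      intro e _
      exact ((tendsto_ulim _ (hBb e a)).sub (tendsto_ulim _ (hBb e a'))).abs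
    exact le_of_tendsto' h1 (hB a a')
  let D : (N → Bool) → (N → ℤ) →+ ℝ := fun e => AddMonoidHom.mk'
    (fun y => fderiv ℝ (fun y => AI μ (t ⁻¹' {e}) (F (mr g y))) z (fun x => (y x : ℝ))) (by
      intro y y'
      rw [← map_add]
      congr 1
      funext x
      simp)
  have hD : ∀ e y, U e (mz g y) = D e y := by
    intro e y
    apply ulim_eq
    have h1 := (hd e).hasFDerivAt.lim (fun x => (y x : ℝ)) (l := (hyperfilter ℕ : Filter ℕ))
      (c := fun k : ℕ => (k : ℝ) + 1) (by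
        have : Tendsto (fun k : ℕ => (k : ℝ) + 1) atTop atTop :=
          tendsto_atTop_add_const_right _ _ tendsto_natCast_atTop_atTop
        exact (tendsto_norm_atTop_atTop.comp this).mono_left hyper_le)
    refine h1.congr fun k => ?_
    simp only [B, smul_eq_mul]
    rw [mr_add, mr_smul, mr_cast]
  obtain ⟨T, hT1, hT2⟩ := extend (mz g) U (fun a => C * ∑ c, |(a c : ℝ)|) hU D hD
  refine ⟨fun e c => T e (Pi.single c 1), ?_, ?_⟩
  · intro e x
    have h1 : D e (Pi.single x 1) =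
        fderiv ℝ (fun y => AI μ (t ⁻¹' {e}) (F (mr g y))) z (Pi.single x (1 : ℝ)) := by
      change fderiv ℝ (fun y => AI μ (t ⁻¹' {e}) (F (mr g y))) z
        (fun x' => ((Pi.single x 1 : N → ℤ) x' : ℝ)) = _
      congr 1
      funext x'
      by_cases h : x' = x
      · subst h; simp
      · simp [Pi.single_eq_of_ne h]
    rw [← h1, ← hT1]
    have h2 := LinearMap.pi_apply_eq_sum_univ (T e).toIntLinearMap (mz g (Pi.single x 1))
    simp only [AddMonoidHom.coe_toIntLinearMap] at h2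
    rw [h2]
    refine Finset.sum_congr rfl fun c _ => ?_
    have e1 : mz g (Pi.single x 1) c = g c x := by
      simp [mz, Pi.single_apply]
    have e2 : (fun j => if c = j then (1 : ℤ) else 0) = Pi.single c 1 := by
      funext j
      by_cases h : c = j
      · subst h; simp
      · simp [h, Pi.single_eq_of_ne (Ne.symm h)]
    rw [e1, e2, zsmul_eq_mul]
  · intro c
    refine (hT2 (Pi.single c 1)).trans ?_
    have : ∑ c', |((Pi.single c 1 : Γ → ℤ) c' : ℝ)| = 1 := by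
      rw [Finset.sum_eq_single c]
      · simp
      · intro b _ hb; simp [Pi.single_eq_of_ne hb]
      · simp
    rw [this, mul_one]

/-- Cauchy-Schwarz type estimate for a vector with two incoherent representations. -/
lemma incoherent {N Γ₁ Γ₂ : Type} [Fintype N] [Fintype Γ₁] [Fintype Γ₂]
    (g : Γ₁ → N → ℤ) (h : Γ₂ → N → ℤ) (κ : ℝ) (hκ0 : 0 ≤ κ)
    (hκ : ∀ a b, |∑ x, (g a x : ℝ) * (h b x : ℝ)| ≤ κ)
    (φ : Γ₁ → ℝ) (ψ : Γ₂ → ℝ) (Θ : N → ℝ)
    (h1 : ∀ x, Θ x = ∑ c, (g c x : ℝ) * φ c) (h2 : ∀ x, Θ x = ∑ c, (h c x : ℝ) * ψ c) :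
    ∑ x, |Θ x| ≤ √(Fintype.card N) * √κ * ((∑ c, |φ c| + ∑ c, |ψ c|) / 2) := by
  have hsq : ∑ x, Θ x ^ 2 ≤ κ * ((∑ c, |φ c|) * (∑ c, |ψ c|)) := by
    have e1 : ∑ x, Θ x ^ 2 = ∑ a, ∑ b, φ a * ψ b * ∑ x, (g a x : ℝ) * (h b x : ℝ) := by
      have : ∀ x, Θ x ^ 2 = ∑ a, ∑ b, φ a * ψ b * ((g a x : ℝ) * (h b x : ℝ)) := by
        intro x
        rw [sq]
        nth_rewrite 1 [h1 x]
        rw [h2 x, Finset.sum_mul_sum]
        refine Finset.sum_congr rfl fun a _ => Finset.sum_congr rfl fun b _ => ?_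
        ring
      simp_rw [this, Finset.mul_sum]
      rw [Finset.sum_comm]
      refine Finset.sum_congr rfl fun a _ => ?_
      rw [Finset.sum_comm]
    rw [e1, Finset.sum_mul_sum, Finset.mul_sum]
    refine Finset.sum_le_sum fun a _ => ?_
    rw [Finset.mul_sum]
    refine Finset.sum_le_sum fun b _ => ?_
    refine (le_abs_self _).trans ?_
    rw [abs_mul, abs_mul]
    calc |φ a| * |ψ b| * |∑ x, (g a x : ℝ) * (h b x : ℝ)| ≤ |φ a| * |ψ b| * κ :=
          mul_le_mul_of_nonneg_left (hκ a b) (by positivity)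
      _ = κ * (|φ a| * |ψ b|) := by ring
  have hcs : (∑ x, |Θ x|) ^ 2 ≤ Fintype.card N * ∑ x, Θ x ^ 2 := by
    have := Finset.sum_mul_sq_le_sq_mul_sq Finset.univ (fun _ : N => (1 : ℝ)) (fun x => |Θ x|)
    simpa using this
  set α := ∑ c, |φ c| with hα
  set β := ∑ c, |ψ c| with hβ
  have hα0 : 0 ≤ α := Finset.sum_nonneg fun _ _ => abs_nonneg _
  have hβ0 : 0 ≤ β := Finset.sum_nonneg fun _ _ => abs_nonneg _
  have hn0 : (0 : ℝ) ≤ Fintype.card N := by positivity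
  have hfin : (∑ x, |Θ x|) ^ 2 ≤ (√(Fintype.card N) * √κ * ((α + β) / 2)) ^ 2 := by
    refine hcs.trans ?_
    rw [mul_pow, mul_pow, Real.sq_sqrt hn0, Real.sq_sqrt hκ0, mul_assoc]
    refine mul_le_mul_of_nonneg_left (hsq.trans ?_) hn0
    refine mul_le_mul_of_nonneg_left ?_ hκ0
    nlinarith [sq_nonneg (α - β)]
  exact abs_le_of_sq_le_sq' hfin (by positivity) |>.2

/-- **Core inequality.** -/
theorem core {N Γ₁ Γ₂ : Type} [Fintype N] [DecidableEq N] [Fintype Γ₁] [DecidableEq Γ₁]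
    [Fintype Γ₂] [DecidableEq Γ₂]
    (g : Γ₁ → N → ℤ) (h : Γ₂ → N → ℤ) (κ : ℝ) (hκ0 : 0 ≤ κ)
    (hκ : ∀ a b, |∑ x, (g a x : ℝ) * (h b x : ℝ)| ≤ κ)
    (C : ℝ) (hC : 0 ≤ C) (FA : (Γ₁ → ℝ) → Lp ℝ 1 μ) (FB : (Γ₂ → ℝ) → Lp ℝ 1 μ)
    (hA : ∀ a a', ‖FA a - FA a'‖ ≤ C * ∑ c, |a c - a' c|)
    (hB : ∀ a a', ‖FB a - FB a'‖ ≤ C * ∑ c, |a c - a' c|)
    (hAB : ∀ y, FA (mr g y) = FB (mr h y))
    (δ δ' : ℝ) (hδ : δ' < δ)
    (hlow : ∀ (y : N → ℝ) (x : N) (t : ℝ), 0 < t →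
      δ * t ≤ ‖FA (mr g (y + t • Pi.single x (1 : ℝ))) - FA (mr g y)‖) :
    Fintype.card N * δ' ≤
      √(Fintype.card N) * √κ * ((C * Fintype.card Γ₁ + C * Fintype.card Γ₂) / 2) := by
  classical
  -- Lipschitz constant of the restriction to the common part
  let L : ℝ≥0 := (C * ∑ c, ∑ x, |(g c x : ℝ)|).toNNReal
  have hL : (L : ℝ) = C * ∑ c, ∑ x, |(g c x : ℝ)| := Real.coe_toNNReal _ (by positivity)
  have hlip : LipschitzWith L (fun y => FA (mr g y)) := by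
    refine LipschitzWith.of_dist_le_mul fun y y' => ?_
    rw [dist_eq_norm, hL]
    refine (hA _ _).trans ?_
    rw [mul_assoc]
    refine mul_le_mul_of_nonneg_left ?_ hC
    rw [Finset.sum_mul]
    refine Finset.sum_le_sum fun c _ => ?_
    have : mr g y c - mr g y' c = ∑ x, (g c x : ℝ) * (y x - y' x) := by
      simp [mr, mul_sub]
    rw [this]
    refine (Finset.abs_sum_le_sum_abs _ _).trans ?_
    rw [Finset.sum_mul]
    refine Finset.sum_le_sum fun x _ => ?_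
    rw [abs_mul]
    refine mul_le_mul_of_nonneg_left ?_ (abs_nonneg _)
    have := dist_le_pi_dist y y' x
    rwa [Real.dist_eq] at this
  obtain ⟨t, z, ht, hd, hsum⟩ := good_point (fun y => FA (mr g y)) L hlip δ δ' hδ hlow
  obtain ⟨φ, hφ1, hφ2⟩ := side g C FA hA t ht z hd
  have hfun : ∀ e, (fun y => AI μ (t ⁻¹' {e}) (FA (mr g y))) =
      fun y => AI μ (t ⁻¹' {e}) (FB (mr h y)) := by
    intro e; funext y; rw [hAB]
  have hd2 : ∀ e, DifferentiableAt ℝ (fun y => AI μ (t ⁻¹' {e}) (FB (mr h y))) z := by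
    intro e; rw [← hfun]; exact hd e
  obtain ⟨ψ, hψ1, hψ2⟩ := side h C FB hB t ht z hd2
  let Θ : (N → Bool) → N → ℝ := fun e x =>
    fderiv ℝ (fun y => AI μ (t ⁻¹' {e}) (FA (mr g y))) z (Pi.single x (1 : ℝ))
  have hΘ2 : ∀ e x, Θ e x = ∑ c, (h c x : ℝ) * ψ e c := by
    intro e x
    rw [← hψ1 e x]
    simp only [Θ, hfun]
  have hinc : ∀ e, ∑ x, |Θ e x| ≤
      √(Fintype.card N) * √κ * ((∑ c, |φ e c| + ∑ c, |ψ e c|) / 2) := fun e =>
    incoherent g h κ hκ0 hκ (φ e) (ψ e) (Θ e) (hφ1 e) (hΘ2 e)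
  calc Fintype.card N * δ' = ∑ _x : N, δ' := by rw [Finset.sum_const, nsmul_eq_mul, Finset.card_univ]
    _ ≤ ∑ x, ∑ e, sg (e x) * Θ e x := Finset.sum_le_sum fun x _ => hsum x
    _ = ∑ e, ∑ x, sg (e x) * Θ e x := Finset.sum_comm
    _ ≤ ∑ e, ∑ x, |Θ e x| := by
        refine Finset.sum_le_sum fun e _ => Finset.sum_le_sum fun x _ => ?_
        refine (le_abs_self _).trans ?_
        rw [abs_mul]
        have : |sg (e x)| = 1 := by unfold sg; split_ifs <;> simp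
        rw [this, one_mul]
    _ ≤ ∑ e, √(Fintype.card N) * √κ * ((∑ c, |φ e c| + ∑ c, |ψ e c|) / 2) :=
        Finset.sum_le_sum fun e _ => hinc e
    _ = √(Fintype.card N) * √κ * ((∑ c, ∑ e, |φ e c| + ∑ c, ∑ e, |ψ e c|) / 2) := by
        rw [← Finset.mul_sum, ← Finset.sum_div, Finset.sum_add_distrib, Finset.sum_comm (γ := Γ₁),
          Finset.sum_comm (γ := Γ₂)]
    _ ≤ √(Fintype.card N) * √κ * ((C * Fintype.card Γ₁ + C * Fintype.card Γ₂) / 2) := by
        gcongr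
        · refine (Finset.sum_le_sum fun c _ => hφ2 c).trans ?_
          rw [Finset.sum_const, nsmul_eq_mul, Finset.card_univ, mul_comm]
        · refine (Finset.sum_le_sum fun c _ => hψ2 c).trans ?_
          rw [Finset.sum_const, nsmul_eq_mul, Finset.card_univ, mul_comm]

end Pool.Agent.H799R2.Union
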