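import Mathlib

/-! # A differentiation lemma for Lipschitz maps into `L₁(μ)`

If `f : ℝ^N → L₁(μ)` is Lipschitz and expands every coordinate direction by at least `δ`, then for
`δ' < δ` there are a finite measurable partition of the measure space and a point `z` such that the
vector of integrals of `f` over the pieces is differentiable at `z`, and the derivative in each
coordinate direction has `ℓ₁`-norm at least `δ'`. -/

set_option autoImplicit false

open MeasureTheory Filter Topology Set
open scoped NNReal ENNReal

namespace Pool.Agent.H799R2.Union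

/-- One-dimensional differentiation lemma. -/
lemma line_ae {J : Type} [Countable J] (g : J → ℝ → ℝ) (L : ℝ≥0)
    (hg : ∀ j, LipschitzWith L (g j)) (δ δ' : ℝ) (hδ : δ' < δ)
    (h : ∀ a b, a < b → ∀ η > 0, ∃ j, δ * (b - a) - η ≤ g j b - g j a) :
    ∀ᵐ r ∂(volume : Measure ℝ), ∃ j, δ' < deriv (g j) r := by
  classical
  set B : Set ℝ := {r | ∀ j, deriv (g j) r ≤ δ'} with hB
  have hBm : MeasurableSet B := by
    have : B = ⋂ j, {r | deriv (g j) r ≤ δ'} := by ext r; simp [hB]
    rw [this]
    exact MeasurableSet.iInter fun j => measurableSet_le (measurable_deriv _) measurable_const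
  have hd := Besicovitch.ae_tendsto_measure_inter_div_of_measurableSet (volume : Measure ℝ) hBm
  filter_upwards [hd] with x hx
  by_contra hcon
  have hxB : x ∈ B := by
    intro j
    by_contra hj
    exact hcon ⟨j, not_le.1 hj⟩
  rw [Set.indicator_of_mem hxB] at hx
  -- the real valued ratio
  have hreal : Tendsto (fun r : ℝ => (volume (B ∩ Metric.closedBall x r)).toReal / (2 * r))
      (𝓝[>] 0) (𝓝 1) := by
    have h1 := (ENNReal.tendsto_toReal (by simp : (1 : ℝ≥0∞) ≠ ⊤)).comp hx
    refine (h1.congr' ?_)
    filter_upwards [self_mem_nhdsWithin] with r hr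
    have hr' : (0 : ℝ) < r := hr
    simp only [Function.comp_apply, ENNReal.toReal_div, Real.volume_closedBall]
    rw [ENNReal.toReal_ofReal (by positivity)]
  have key : ∀ r : ℝ, 0 < r →
      δ ≤ L + (δ' - L) * ((volume (B ∩ Metric.closedBall x r)).toReal / (2 * r)) := by
    intro r hr
    set m : ℝ := (volume (B ∩ Metric.closedBall x r)).toReal with hm
    have hmain : ∀ j, g j (x + r) - g j (x - r) ≤ 2 * r * L + (δ' - L) * m := by
      intro j
      have hftc := (LipschitzOnWith.absolutelyContinuousOnInterval
        ((hg j).lipschitzOnWith (s := uIcc (x - r) (x + r)))).integral_deriv_eq_sub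
      rw [← hftc]
      have hle : x - r ≤ x + r := by linarith
      have hbd : ∀ s, deriv (g j) s ≤ L + (B.indicator (fun _ => δ' - L) s) := by
        intro s
        by_cases hs : s ∈ B
        · rw [Set.indicator_of_mem hs]
          have := hs j
          linarith
        · rw [Set.indicator_of_notMem hs]
          have := norm_deriv_le_of_lipschitz (hg j) (x₀ := s)
          rw [Real.norm_eq_abs] at this
          linarith [le_abs_self (deriv (g j) s)]
      have hint1 : IntervalIntegrable (deriv (g j)) volume (x - r) (x + r) :=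
        (LipschitzOnWith.absolutelyContinuousOnInterval
          ((hg j).lipschitzOnWith (s := uIcc (x - r) (x + r)))).intervalIntegrable_deriv
      have hint2 : IntervalIntegrable (B.indicator (fun _ => δ' - L)) volume (x - r) (x + r) := by
        rw [intervalIntegrable_iff]
        exact (integrableOn_const (by simp) (by simp)).indicator hBm
      have hint3 : IntervalIntegrable (fun s => (L : ℝ) + (B.indicator (fun _ => δ' - L) s))
          volume (x - r) (x + r) := intervalIntegrable_const.add hint2
      refine (intervalIntegral.integral_mono_on hle hint1 hint3 (fun s _ => hbd s)).trans ?_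
      rw [intervalIntegral.integral_add intervalIntegrable_const hint2]
      rw [intervalIntegral.integral_const, intervalIntegral.integral_of_le hle,
        integral_indicator hBm, Measure.restrict_restrict hBm, setIntegral_const]
      have hvol : (volume.real (B ∩ Ioc (x - r) (x + r))) = m := by
        rw [hm, Measure.real]
        congr 1
        rw [Real.closedBall_eq_Icc]
        apply measure_congr
        exact (ae_eq_refl B).inter Ioc_ae_eq_Icc
      rw [hvol]
      simp only [smul_eq_mul]
      apply le_of_eq; ring
    have h2 : δ * (2 * r) ≤ 2 * r * L + (δ' - L) * m := by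
      apply le_of_forall_pos_sub_le
      intro η hη
      obtain ⟨j, hj⟩ := h (x - r) (x + r) (by linarith) η hη
      have := hmain j
      have e : x + r - (x - r) = 2 * r := by ring
      rw [e] at hj
      linarith
    have h3 : δ ≤ (2 * r * L + (δ' - L) * m) / (2 * r) := by
      rw [le_div_iff₀ (by linarith)]
      exact h2
    calc δ ≤ (2 * r * L + (δ' - L) * m) / (2 * r) := h3
      _ = L + (δ' - L) * (m / (2 * r)) := by field_simp
  have hlim : Tendsto (fun r : ℝ => (L : ℝ) + (δ' - L) *
      ((volume (B ∩ Metric.closedBall x r)).toReal / (2 * r))) (𝓝[>] 0)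
      (𝓝 (L + (δ' - L) * 1)) := (hreal.const_mul _).const_add _
  have : δ ≤ L + (δ' - L) * 1 := by
    refine ge_of_tendsto hlim ?_
    filter_upwards [self_mem_nhdsWithin] with r hr using key r hr
  linarith

/-- Differentiation lemma in a given direction `v` of `ℝ^N`. -/
lemma multi_ae {N J : Type} [Fintype N] [Countable J] (g : J → (N → ℝ) → ℝ) (L : ℝ≥0)
    (hg : ∀ j, LipschitzWith L (g j)) (δ δ' : ℝ) (hδ : δ' < δ) (v : N → ℝ)
    (h : ∀ z a b, a < b → ∀ η > 0, ∃ j, δ * (b - a) - η ≤ g j (z + b • v) - g j (z + a • v)) :
    ∀ᵐ z ∂(volume : Measure (N → ℝ)), ∃ j, δ' < lineDeriv ℝ (g j) z v := by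
  let T : ℝ →L[ℝ] (N → ℝ) := ContinuousLinearMap.smulRight (1 : ℝ →L[ℝ] ℝ) v
  have hm : MeasurableSet {z | ∃ j, δ' < lineDeriv ℝ (g j) z v} := by
    have : {z | ∃ j, δ' < lineDeriv ℝ (g j) z v} = ⋃ j, {z | δ' < lineDeriv ℝ (g j) z v} := by
      ext z; simp
    rw [this]
    exact MeasurableSet.iUnion fun j =>
      measurableSet_lt measurable_const (measurable_lineDeriv (hg j).continuous)
  refine ae_mem_of_ae_add_linearMap_mem T.toLinearMap (volume : Measure ℝ) volume hm ?_
  intro z
  have hlip : ∀ j, LipschitzWith (L * ‖v‖₊) (fun r : ℝ => g j (z + r • v)) := by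
    intro j
    refine (hg j).comp ?_
    refine LipschitzWith.of_dist_le_mul fun a b => ?_
    rw [dist_add_left, dist_eq_norm, ← sub_smul, norm_smul, Real.dist_eq, mul_comm, coe_nnnorm,
      Real.norm_eq_abs]
  have := line_ae (fun j (r : ℝ) => g j (z + r • v)) (L * ‖v‖₊) hlip δ δ' hδ
    (fun a b hab η hη => h z a b hab η hη)
  filter_upwards [this] with r hr
  obtain ⟨j, hj⟩ := hr
  refine ⟨j, ?_⟩
  have e : lineDeriv ℝ (g j) (z + T r) v = deriv (fun s : ℝ => g j (z + s • v)) r := by
    unfold lineDeriv
    have : (fun t : ℝ => g j (z + T r + t • v)) = fun t : ℝ => (fun s : ℝ => g j (z + s • v)) (r + t) := by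
      ext t
      simp only [T, ContinuousLinearMap.smulRight_apply, one_apply_eq_self, add_smul,
        add_assoc]
    rw [this, deriv_comp_const_add (f := fun s : ℝ => g j (z + s • v))]
    simp
  exact e ▸ hj

end Pool.Agent.H799R2.Union
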