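import Pool.Agent.H799R2.UCore

set_option autoImplicit false

open Filter Topology Set

namespace Pool.Agent.H799R2.Union

/-- the sign character of `ZMod 2` -/
def sgz (a : ZMod 2) : ℤ := if a = 0 then 1 else -1

lemma sgz_add : ∀ a b : ZMod 2, sgz (a + b) = sgz a * sgz b := by decide

lemma sgz_abs : ∀ a : ZMod 2, |sgz a| = 1 := by decide

lemma sgz_ne : ∀ a : ZMod 2, a ≠ 0 → sgz a = -1 := by decide

section field

variable {K : Type} [Field K] [Fintype K] [DecidableEq K] [Algebra (ZMod 2) K] [CharP K 2]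

/-- the sign character of `K` -/
noncomputable def psi (x : K) : ℤ := sgz (Algebra.trace (ZMod 2) K x)

omit [Fintype K] [DecidableEq K] [CharP K 2] in
lemma psi_add (x y : K) : psi (x + y) = psi x * psi y := by
  unfold psi; rw [map_add, sgz_add]

omit [Fintype K] [DecidableEq K] [CharP K 2] in
lemma psi_abs (x : K) : |psi x| = 1 := sgz_abs _

omit [Fintype K] [DecidableEq K] [CharP K 2] in
lemma psi_absR (x : K) : |(psi x : ℝ)| = 1 := by
  rw [← Int.cast_abs, psi_abs]; simp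

omit [Fintype K] [DecidableEq K] [CharP K 2] in
lemma psi_zero : psi (0 : K) = 1 := by
  unfold psi; rw [map_zero]; rfl

omit [DecidableEq K] [CharP K 2] in
lemma psi_sq (x : K) : psi (x ^ 2) = psi x := by
  unfold psi
  congr 1
  have h := Algebra.trace_eq_of_algEquiv (FiniteField.frobeniusAlgEquivOfAlgebraic (ZMod 2) K) x
  rw [FiniteField.coe_frobeniusAlgEquivOfAlgebraic] at h
  simpa [ZMod.card] using h

omit [DecidableEq K] [CharP K 2] in
lemma psi_pow4 (x : K) : psi (x ^ 4) = psi x := by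
  have : x ^ 4 = (x ^ 2) ^ 2 := by ring
  rw [this, psi_sq, psi_sq]

omit [DecidableEq K] [CharP K 2] in
lemma exists_psi {c : K} (hc : c ≠ 0) : ∃ b, psi (c * b) = -1 := by
  have htr := (traceForm_nondegenerate (ZMod 2) K).1 c
  simp_rw [Algebra.traceForm_apply] at htr
  by_contra! hf
  refine hc (htr fun b => ?_)
  by_contra hb
  exact hf b (sgz_ne _ hb)

omit [CharP K 2] in
lemma sum_psi (c : K) : ∑ x, (psi (c * x) : ℝ) = if c = 0 then (Fintype.card K : ℝ) else 0 := by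
  split_ifs with h
  · subst h
    simp [psi_zero]
  · obtain ⟨b, hb⟩ := exists_psi h
    have h1 : ∑ x, (psi (c * x) : ℝ) = ∑ x, (psi (c * (x + b)) : ℝ) :=
      (Equiv.sum_comp (Equiv.addRight b) (fun x => (psi (c * x) : ℝ))).symm
    have h2 : ∑ x, (psi (c * (x + b)) : ℝ) = - ∑ x, (psi (c * x) : ℝ) := by
      rw [← Finset.sum_neg_distrib]
      refine Finset.sum_congr rfl fun x _ => ?_
      rw [mul_add, psi_add, hb]; push_cast; ring
    linarith

/-- general exponential sum -/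
noncomputable def SS {T : Type} [Fintype T] (c : T → ℝ) (p q : T → K) (a b : K) : ℝ :=
  ∑ t, c t * ((psi (p t * a) : ℝ) * (psi (q t * b) : ℝ))

omit [Fintype K] [DecidableEq K] [CharP K 2] in
lemma SS_sq {T : Type} [Fintype T] (c : T → ℝ) (p q : T → K) (a b : K) :
    SS c p q a b ^ 2 = SS (T := T × T) (fun t => c t.1 * c t.2) (fun t => p t.1 + p t.2)
      (fun t => q t.1 + q t.2) a b := by
  unfold SS
  rw [sq, Finset.sum_mul_sum, Fintype.sum_prod_type]
  refine Finset.sum_congr rfl fun s _ => Finset.sum_congr rfl fun t _ => ?_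
  rw [add_mul, add_mul, psi_add, psi_add]
  push_cast
  ring

omit [CharP K 2] in
lemma SS_sum {T : Type} [Fintype T] (c : T → ℝ) (p q : T → K) :
    ∑ a, ∑ b, SS c p q a b =
      ∑ t, c t * ((if p t = 0 then (Fintype.card K : ℝ) else 0) *
        (if q t = 0 then (Fintype.card K : ℝ) else 0)) := by
  unfold SS
  have h1 : ∀ a : K, ∑ b : K, ∑ t, c t * ((psi (p t * a) : ℝ) * (psi (q t * b) : ℝ)) =
      ∑ t, c t * ((psi (p t * a) : ℝ) * (if q t = 0 then (Fintype.card K : ℝ) else 0)) := by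
    intro a
    rw [Finset.sum_comm]
    refine Finset.sum_congr rfl fun t _ => ?_
    rw [← Finset.mul_sum, ← Finset.mul_sum, sum_psi]
  simp_rw [h1]
  rw [Finset.sum_comm]
  refine Finset.sum_congr rfl fun t _ => ?_
  rw [← Finset.mul_sum, ← Finset.sum_mul, sum_psi]

/-- `W y a b = ∑ x, y x ψ(a x³ + b x)` -/
noncomputable def W (y : K → ℝ) (a b : K) : ℝ := SS y (fun x => x ^ 3) (fun x => x) a b

lemma moment2 (y : K → ℝ) :
    ∑ a, ∑ b, W y a b ^ 2 = (Fintype.card K : ℝ) ^ 2 * ∑ x, y x ^ 2 := by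
  unfold W
  simp_rw [SS_sq]
  rw [SS_sum, Fintype.sum_prod_type, Finset.mul_sum]
  refine Finset.sum_congr rfl fun x _ => ?_
  simp only
  rw [Finset.sum_eq_single x]
  · rw [CharTwo.add_self_eq_zero, CharTwo.add_self_eq_zero, if_pos rfl]
    ring
  · intro u _ hu
    have : x + u ≠ 0 := fun h => hu (CharTwo.add_eq_zero.1 h).symm
    rw [if_neg this]; ring
  · simp

omit [Fintype K] [DecidableEq K] [Algebra (ZMod 2) K] in
lemma quad (a b c d : K) (h1 : a + b + (c + d) = 0) (h3 : a ^ 3 + b ^ 3 + (c ^ 3 + d ^ 3) = 0) :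
    (a = b ∧ c = d) ∨ (b = c ∧ a = d) ∨ (a = c ∧ b = d) := by
  have h2 : (2 : K) = 0 := CharTwo.two_eq_zero
  have hd : d = a + b + c := by linear_combination h1 - (a + b + c) * h2
  have hprod : (a + b) * ((b + c) * (a + c)) = 0 := by
    subst hd
    linear_combination -h3 + (a ^ 3 + b ^ 3 + c ^ 3 + 2 * a ^ 2 * b + 2 * a * b ^ 2 + 2 * b ^ 2 * c
      + 2 * b * c ^ 2 + 2 * a ^ 2 * c + 2 * a * c ^ 2 + 4 * a * b * c) * h2
  rcases mul_eq_zero.1 hprod with h | h
  · left
    have := CharTwo.add_eq_zero.1 h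
    subst this
    refine ⟨rfl, ?_⟩
    rw [hd, CharTwo.add_self_eq_zero, zero_add]
  · rcases mul_eq_zero.1 h with h | h
    · right; left
      have := CharTwo.add_eq_zero.1 h
      subst this
      refine ⟨rfl, ?_⟩
      rw [hd, add_assoc, CharTwo.add_self_eq_zero, add_zero]
    · right; right
      have := CharTwo.add_eq_zero.1 h
      subst this
      refine ⟨rfl, ?_⟩
      rw [hd, add_comm a b, add_assoc, CharTwo.add_self_eq_zero, add_zero]

omit [Field K] [Algebra (ZMod 2) K] [CharP K 2] in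
lemma pair_sums (A : K → ℝ) :
    (∑ a, ∑ b, ∑ c, ∑ d, A a * A b * (A c * A d) *
      ((if a = b then 1 else 0) * (if c = d then 1 else 0)) = (∑ x, A x ^ 2) ^ 2) ∧
    (∑ a, ∑ b, ∑ c, ∑ d, A a * A b * (A c * A d) *
      ((if b = c then 1 else 0) * (if a = d then 1 else 0)) = (∑ x, A x ^ 2) ^ 2) ∧
    (∑ a, ∑ b, ∑ c, ∑ d, A a * A b * (A c * A d) *
      ((if a = c then 1 else 0) * (if b = d then 1 else 0)) = (∑ x, A x ^ 2) ^ 2) := by
  refine ⟨?_, ?_, ?_⟩
  · simp only [mul_ite, mul_one, mul_zero, Finset.sum_ite_eq, Finset.mem_univ, if_true]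
    rw [sq, Finset.sum_mul_sum]
    refine Finset.sum_congr rfl fun a _ => ?_
    simp only [Finset.sum_ite_irrel, Finset.sum_const_zero, Finset.sum_ite_eq, Finset.mem_univ,
      if_true]
    exact Finset.sum_congr rfl fun c _ => by ring
  · simp only [mul_ite, mul_one, mul_zero, Finset.sum_ite_eq, Finset.mem_univ, if_true]
    rw [sq, Finset.sum_mul_sum]
    refine Finset.sum_congr rfl fun a _ => Finset.sum_congr rfl fun b _ => by ring
  · simp only [mul_ite, mul_one, mul_zero, Finset.sum_ite_eq, Finset.mem_univ, if_true]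
    rw [sq, Finset.sum_mul_sum]
    refine Finset.sum_congr rfl fun a _ => Finset.sum_congr rfl fun b _ => by ring

lemma moment4 (y : K → ℝ) :
    ∑ a, ∑ b, W y a b ^ 4 ≤ 3 * (Fintype.card K : ℝ) ^ 2 * (∑ x, y x ^ 2) ^ 2 := by
  have h4 : ∀ a b, W y a b ^ 4 = (W y a b ^ 2) ^ 2 := fun a b => by ring
  simp_rw [h4]
  unfold W
  simp_rw [SS_sq]
  rw [SS_sum, Fintype.sum_prod_type, Fintype.sum_prod_type]
  simp_rw [Fintype.sum_prod_type]
  obtain ⟨p1, p2, p3⟩ := pair_sums (fun x => |y x|)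
  simp only [sq_abs] at p1 p2 p3
  have hterm : ∀ a b c d : K, y a * y b * (y c * y d) *
      ((if a ^ 3 + b ^ 3 + (c ^ 3 + d ^ 3) = 0 then (Fintype.card K : ℝ) else 0) *
        (if a + b + (c + d) = 0 then (Fintype.card K : ℝ) else 0)) ≤
      (Fintype.card K : ℝ) ^ 2 * (|y a| * |y b| * (|y c| * |y d|) *
        ((if a = b then 1 else 0) * (if c = d then 1 else 0)) +
        |y a| * |y b| * (|y c| * |y d|) *
        ((if b = c then 1 else 0) * (if a = d then 1 else 0)) +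
        |y a| * |y b| * (|y c| * |y d|) *
        ((if a = c then 1 else 0) * (if b = d then 1 else 0))) := by
    intro a b c d
    have hM : 0 ≤ |y a| * |y b| * (|y c| * |y d|) := by positivity
    have hle : y a * y b * (y c * y d) ≤ |y a| * |y b| * (|y c| * |y d|) := by
      rw [← abs_mul, ← abs_mul, ← abs_mul]; exact le_abs_self _
    have hnn : ∀ P : Prop, ∀ [Decidable P], (0 : ℝ) ≤ if P then 1 else 0 := by
      intro P _; split_ifs <;> norm_num
    set M := |y a| * |y b| * (|y c| * |y d|)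
    have hn0 : (0 : ℝ) ≤ (Fintype.card K : ℝ) ^ 2 := by positivity
    have i1 := mul_nonneg (hnn (a = b)) (hnn (c = d))
    have i2 := mul_nonneg (hnn (b = c)) (hnn (a = d))
    have i3 := mul_nonneg (hnn (a = c)) (hnn (b = d))
    by_cases hs : a + b + (c + d) = 0 ∧ a ^ 3 + b ^ 3 + (c ^ 3 + d ^ 3) = 0
    · rw [if_pos hs.1, if_pos hs.2]
      have hone : (1 : ℝ) ≤ ((if a = b then 1 else 0) * (if c = d then 1 else 0)) +
          ((if b = c then 1 else 0) * (if a = d then 1 else 0)) +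
          ((if a = c then 1 else 0) * (if b = d then 1 else 0)) := by
        rcases quad a b c d hs.1 hs.2 with ⟨e1, e2⟩ | ⟨e1, e2⟩ | ⟨e1, e2⟩
        · rw [if_pos e1, if_pos e2]; linarith
        · rw [if_pos e1, if_pos e2]; linarith
        · rw [if_pos e1, if_pos e2]; linarith
      calc y a * y b * (y c * y d) * ((Fintype.card K : ℝ) * (Fintype.card K : ℝ))
          ≤ M * ((Fintype.card K : ℝ) * (Fintype.card K : ℝ)) :=
            mul_le_mul_of_nonneg_right hle (by positivity)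
        _ = (Fintype.card K : ℝ) ^ 2 * (M * 1) := by ring
        _ ≤ (Fintype.card K : ℝ) ^ 2 * (M * _) :=
            mul_le_mul_of_nonneg_left (mul_le_mul_of_nonneg_left hone hM) hn0
        _ = _ := by ring
    · have : (if a ^ 3 + b ^ 3 + (c ^ 3 + d ^ 3) = 0 then (Fintype.card K : ℝ) else 0) *
          (if a + b + (c + d) = 0 then (Fintype.card K : ℝ) else 0) = 0 := by
        by_cases h1 : a + b + (c + d) = 0
        · have : ¬ a ^ 3 + b ^ 3 + (c ^ 3 + d ^ 3) = 0 := fun h => hs ⟨h1, h⟩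
          rw [if_neg this, zero_mul]
        · rw [if_neg h1, mul_zero]
      rw [this, mul_zero]
      have := mul_nonneg hM i1
      have := mul_nonneg hM i2
      have := mul_nonneg hM i3
      positivity
  refine (Finset.sum_le_sum fun a _ => Finset.sum_le_sum fun b _ => Finset.sum_le_sum fun c _ =>
    Finset.sum_le_sum fun d _ => hterm a b c d).trans ?_
  simp_rw [← Finset.mul_sum, Finset.sum_add_distrib]
  rw [p1, p2, p3]
  apply le_of_eq; ring

/-- `ℓ₁` bounds for the family. -/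
lemma W_upper (y : K → ℝ) :
    ∑ a, ∑ b, |W y a b| ≤ (Fintype.card K : ℝ) ^ 2 * √(∑ x, y x ^ 2) := by
  set s := ∑ x, y x ^ 2 with hs
  have hs0 : 0 ≤ s := Finset.sum_nonneg fun _ _ => sq_nonneg _
  have h1 : (∑ t : K × K, 1 * |W y t.1 t.2|) ^ 2 ≤
      (∑ _t : K × K, (1 : ℝ) ^ 2) * ∑ t : K × K, |W y t.1 t.2| ^ 2 :=
    Finset.sum_mul_sq_le_sq_mul_sq _ _ _
  simp only [one_mul, sq_abs, one_pow, Finset.sum_const, Finset.card_univ, Fintype.card_prod,
    nsmul_eq_mul, mul_one] at h1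
  rw [Fintype.sum_prod_type, Fintype.sum_prod_type, moment2] at h1
  have h2 : (∑ a, ∑ b, |W y a b|) ^ 2 ≤ ((Fintype.card K : ℝ) ^ 2 * √s) ^ 2 := by
    refine h1.trans (le_of_eq ?_)
    rw [mul_pow, Real.sq_sqrt hs0]
    push_cast; ring
  exact (abs_le_of_sq_le_sq' h2 (by positivity)).2

lemma W_lower (y : K → ℝ) :
    4 / 9 * ((Fintype.card K : ℝ) ^ 2 * √(∑ x, y x ^ 2)) ≤ ∑ a, ∑ b, |W y a b| := by
  set s := ∑ x, y x ^ 2 with hs
  have hs0 : 0 ≤ s := Finset.sum_nonneg fun _ _ => sq_nonneg _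
  rcases hs0.eq_or_lt with h | h
  · rw [← h]
    simp only [Real.sqrt_zero, mul_zero]
    exact Finset.sum_nonneg fun _ _ => Finset.sum_nonneg fun _ _ => abs_nonneg _
  · set r := √s with hr
    have hr0 : 0 < r := Real.sqrt_pos.2 h
    have hrs : r ^ 2 = s := Real.sq_sqrt hs0
    have hpt : ∀ w : ℝ, 2 * (w ^ 2 / (3 * r) - w ^ 4 / (3 * r) ^ 3) ≤ |w| := by
      intro w
      set u := |w| / (3 * r) with hu
      have hu0 : 0 ≤ u := by positivity
      have hw : |w| = 3 * r * u := by rw [hu]; field_simp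
      have e1 : w ^ 2 = (3 * r * u) ^ 2 := by rw [← hw, sq_abs]
      have e2 : w ^ 4 = (3 * r * u) ^ 4 := by
        rw [← hw]; rw [show |w| ^ 4 = (|w| ^ 2) ^ 2 by ring, sq_abs]; ring
      rw [e1, e2, hw]
      have e3 : 2 * ((3 * r * u) ^ 2 / (3 * r) - (3 * r * u) ^ 4 / (3 * r) ^ 3) =
          3 * r * (2 * (u ^ 2 - u ^ 4)) := by field_simp
      rw [e3]
      refine mul_le_mul_of_nonneg_left ?_ (by positivity)
      nlinarith [mul_nonneg hu0 (sq_nonneg (u ^ 2 - 1 / 2)), mul_nonneg hu0 (sq_nonneg (u - 1)),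
        mul_nonneg hu0 (sq_nonneg (2 * u ^ 2 + 2 * u - 1)), mul_nonneg hu0 (sq_nonneg (u - 1 / 2)),
        mul_nonneg hu0 (sq_nonneg (u + 1))]
    have hsum : ∑ a, ∑ b, 2 * (W y a b ^ 2 / (3 * r) - W y a b ^ 4 / (3 * r) ^ 3) ≤
        ∑ a, ∑ b, |W y a b| :=
      Finset.sum_le_sum fun a _ => Finset.sum_le_sum fun b _ => hpt _
    refine le_trans ?_ hsum
    simp_rw [← Finset.mul_sum, Finset.sum_sub_distrib, ← Finset.sum_div]
    rw [moment2]
    have h4 := moment4 y
    have h5 : (∑ a, ∑ b, W y a b ^ 4) / (3 * r) ^ 3 ≤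
        3 * (Fintype.card K : ℝ) ^ 2 * s ^ 2 / (3 * r) ^ 3 :=
      div_le_div_of_nonneg_right h4 (by positivity)
    rw [← hs]
    have e1 : (Fintype.card K : ℝ) ^ 2 * s / (3 * r) = (Fintype.card K : ℝ) ^ 2 * r / 3 := by
      rw [← hrs]; field_simp
    have e2 : 3 * (Fintype.card K : ℝ) ^ 2 * s ^ 2 / (3 * r) ^ 3 =
        (Fintype.card K : ℝ) ^ 2 * r / 9 := by
      rw [← hrs]; field_simp; ring
    rw [e2] at h5
    rw [e1]
    linarith

/-- first sign matrix -/
noncomputable def gm (c : K × K) (x : K) : ℤ := psi (c.1 * x ^ 3 + c.2 * x)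

/-- second sign matrix -/
noncomputable def hm (c : K × K) (x : K) : ℤ := psi (c.1 * x ^ 3 + c.2 * x + x ^ 5)

omit [DecidableEq K] [CharP K 2] in
lemma mr_gm (y : K → ℝ) (c : K × K) : mr gm y c = W y c.1 c.2 := by
  unfold mr gm W SS
  refine Finset.sum_congr rfl fun x _ => ?_
  rw [psi_add, mul_comm c.1, mul_comm c.2]
  push_cast; ring

omit [DecidableEq K] [CharP K 2] in
lemma mr_hm (y : K → ℝ) (c : K × K) :
    mr hm y c = W (fun x => (psi (x ^ 5) : ℝ) * y x) c.1 c.2 := by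
  unfold mr hm W SS
  refine Finset.sum_congr rfl fun x _ => ?_
  rw [psi_add, psi_add, mul_comm c.1, mul_comm c.2]
  push_cast; ring

lemma gm_upper (y : K → ℝ) :
    ∑ c, |mr gm y c| ≤ (Fintype.card K : ℝ) ^ 2 * √(∑ x, y x ^ 2) := by
  simp_rw [mr_gm]
  rw [Fintype.sum_prod_type]
  exact W_upper y

lemma gm_lower (y : K → ℝ) :
    4 / 9 * ((Fintype.card K : ℝ) ^ 2 * √(∑ x, y x ^ 2)) ≤ ∑ c, |mr gm y c| := by
  simp_rw [mr_gm]
  rw [Fintype.sum_prod_type]
  exact W_lower y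

omit [DecidableEq K] [CharP K 2] in
lemma sq_twist (y : K → ℝ) : ∑ x, ((psi (x ^ 5) : ℝ) * y x) ^ 2 = ∑ x, y x ^ 2 := by
  refine Finset.sum_congr rfl fun x _ => ?_
  rw [← sq_abs, abs_mul, psi_absR, one_mul, sq_abs]

lemma hm_upper (y : K → ℝ) :
    ∑ c, |mr hm y c| ≤ (Fintype.card K : ℝ) ^ 2 * √(∑ x, y x ^ 2) := by
  simp_rw [mr_hm]
  rw [Fintype.sum_prod_type, ← sq_twist]
  exact W_upper _

lemma hm_lower (y : K → ℝ) :
    4 / 9 * ((Fintype.card K : ℝ) ^ 2 * √(∑ x, y x ^ 2)) ≤ ∑ c, |mr hm y c| := by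
  simp_rw [mr_hm]
  rw [Fintype.sum_prod_type, ← sq_twist]
  exact W_lower _

lemma gm_le_hm (y : K → ℝ) : 4 / 9 * ∑ c, |mr gm y c| ≤ ∑ c, |mr hm y c| :=
  (mul_le_mul_of_nonneg_left (gm_upper y) (by norm_num)).trans (hm_lower y)

lemma hm_le_gm (y : K → ℝ) : 4 / 9 * ∑ c, |mr hm y c| ≤ ∑ c, |mr gm y c| :=
  (mul_le_mul_of_nonneg_left (hm_upper y) (by norm_num)).trans (gm_lower y)

open Polynomial in
omit [Fintype K] [Algebra (ZMod 2) K] [CharP K 2] in
lemma roots_le [Fintype K] (α : K) :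
    (Finset.univ.filter fun h : K => h + h ^ 16 + α ^ 2 * h ^ 2 + α ^ 4 * h ^ 8 = 0).card ≤ 16 := by
  let p : K[X] := X ^ 16 + (C (α ^ 4) * X ^ 8 + C (α ^ 2) * X ^ 2 + X)
  have hdeg : p.natDegree = 16 := by
    simp only [p]
    compute_degree!
  have hp : p ≠ 0 := by
    intro h
    rw [h] at hdeg
    simp at hdeg
  calc (Finset.univ.filter fun h : K => h + h ^ 16 + α ^ 2 * h ^ 2 + α ^ 4 * h ^ 8 = 0).card
      ≤ p.roots.toFinset.card := by
        apply Finset.card_le_card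
        intro h hh
        rw [Finset.mem_filter] at hh
        rw [Multiset.mem_toFinset, mem_roots hp, IsRoot.def]
        simp only [p, eval_add, eval_pow, eval_X, eval_mul, eval_C]
        linear_combination hh.2
    _ ≤ p.roots.card := Multiset.toFinset_card_le _
    _ ≤ p.natDegree := card_roots' p
    _ = 16 := hdeg

/-- cross coherence -/
lemma coherence (c d : K × K) :
    |∑ x, (gm c x : ℝ) * (hm d x : ℝ)| ≤ 4 * √(Fintype.card K : ℝ) := by
  have h2 : (2 : K) = 0 := CharTwo.two_eq_zero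
  set α := c.1 + d.1 with hα
  set β := c.2 + d.2 with hβ
  let f : K → ℝ := fun x => (psi (x ^ 5 + α * x ^ 3 + β * x) : ℝ)
  have hS : ∑ x, (gm c x : ℝ) * (hm d x : ℝ) = ∑ x, f x := by
    refine Finset.sum_congr rfl fun x _ => ?_
    simp only [f, gm, hm]
    rw [← Int.cast_mul, ← psi_add]
    congr 2
    rw [hα, hβ]; ring
  rw [hS]
  have hff : ∀ x h, f x * f (x + h) = (psi (h ^ 5 + α * h ^ 3 + β * h) : ℝ) *
      (psi ((h + h ^ 16 + α ^ 2 * h ^ 2 + α ^ 4 * h ^ 8) * x ^ 4) : ℝ) := by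
    intro x h
    simp only [f]
    rw [← Int.cast_mul, ← psi_add]
    have e1 : x ^ 5 + α * x ^ 3 + β * x + ((x + h) ^ 5 + α * (x + h) ^ 3 + β * (x + h)) =
        (h ^ 5 + α * h ^ 3 + β * h) +
        (x ^ 4 * h + x * h ^ 4 + α * x ^ 2 * h + α * x * h ^ 2) := by
      linear_combination (x ^ 5 + 2 * x ^ 4 * h + 5 * x ^ 3 * h ^ 2 + 5 * x ^ 2 * h ^ 3 +
        2 * x * h ^ 4 + α * (x ^ 3 + x ^ 2 * h + x * h ^ 2) + β * x) * h2
    rw [e1, psi_add, Int.cast_mul]
    congr 1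
    rw [psi_add, psi_add, psi_add, ← psi_pow4 (x * h ^ 4), ← psi_sq (α * x ^ 2 * h),
      ← psi_pow4 (α * x * h ^ 2)]
    rw [← psi_add, ← psi_add, ← psi_add]
    congr 2
    ring
  have hbij : Function.Bijective (fun x : K => x ^ 4) := by
    have : (fun x : K => x ^ 4) = fun x => (iterateFrobenius K 2 2) x := by
      funext x; rw [iterateFrobenius_def]; norm_num
    rw [this]
    rw [Fintype.bijective_iff_injective_and_card]
    exact ⟨(iterateFrobenius K 2 2).injective, rfl⟩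
  have hin : ∀ h : K, ∑ x, (psi ((h + h ^ 16 + α ^ 2 * h ^ 2 + α ^ 4 * h ^ 8) * x ^ 4) : ℝ) =
      if h + h ^ 16 + α ^ 2 * h ^ 2 + α ^ 4 * h ^ 8 = 0 then (Fintype.card K : ℝ) else 0 := by
    intro h
    rw [← sum_psi]
    exact Function.Bijective.sum_comp hbij (fun x => (psi ((h + h ^ 16 + α ^ 2 * h ^ 2 +
      α ^ 4 * h ^ 8) * x) : ℝ))
  have hsq : (∑ x, f x) ^ 2 ≤ 16 * Fintype.card K := by
    have e1 : (∑ x, f x) ^ 2 = ∑ h, ∑ x, f x * f (x + h) := by
      rw [sq, Finset.sum_mul_sum, Finset.sum_comm (γ := K) (α := K) (s := Finset.univ)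
        (t := Finset.univ) (f := fun h x => f x * f (x + h))]
      refine Finset.sum_congr rfl fun x _ => ?_
      exact (Equiv.sum_comp (Equiv.addLeft x) (fun u => f x * f u)).symm
    rw [e1]
    simp_rw [hff, ← Finset.mul_sum, hin]
    calc ∑ h : K, (psi (h ^ 5 + α * h ^ 3 + β * h) : ℝ) *
          (if h + h ^ 16 + α ^ 2 * h ^ 2 + α ^ 4 * h ^ 8 = 0 then (Fintype.card K : ℝ) else 0)
        ≤ ∑ h : K, (if h + h ^ 16 + α ^ 2 * h ^ 2 + α ^ 4 * h ^ 8 = 0
            then (Fintype.card K : ℝ) else 0) := by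
          refine Finset.sum_le_sum fun h _ => ?_
          refine (le_abs_self _).trans ?_
          rw [abs_mul, psi_absR, one_mul]
          split_ifs <;> simp
      _ = (Finset.univ.filter fun h : K =>
            h + h ^ 16 + α ^ 2 * h ^ 2 + α ^ 4 * h ^ 8 = 0).card * (Fintype.card K : ℝ) := by
          rw [← Finset.sum_filter, Finset.sum_const, nsmul_eq_mul]
      _ ≤ 16 * Fintype.card K := by
          refine mul_le_mul_of_nonneg_right ?_ (by positivity)
          exact_mod_cast roots_le α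
  apply abs_le_of_sq_le_sq
  · rw [mul_pow, Real.sq_sqrt (by positivity)]
    norm_num
    exact hsq
  · positivity

end field

end Pool.Agent.H799R2.Union
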