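import Pool.Agent.H799R2.UDiff

set_option autoImplicit false

open MeasureTheory Filter Topology Set
open scoped NNReal ENNReal

namespace Pool.Agent.H799R2.Union

variable {Ω : Type} [MeasurableSpace Ω] {μ : Measure Ω}

/-- Integral of an `L₁` function over a set. -/
noncomputable def AI (μ : Measure Ω) (S : Set Ω) (u : Lp ℝ 1 μ) : ℝ := ∫ ω in S, (u : Ω → ℝ) ω ∂μ

lemma integ (u : Lp ℝ 1 μ) : Integrable (u : Ω → ℝ) μ := L1.integrable_coeFn u

lemma AI_sub (S : Set Ω) (u v : Lp ℝ 1 μ) : AI μ S (u - v) = AI μ S u - AI μ S v := by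
  unfold AI
  rw [← integral_sub (integ u).integrableOn (integ v).integrableOn]
  exact integral_congr_ae (ae_restrict_of_ae (Lp.coeFn_sub u v))

lemma norm_eq (u : Lp ℝ 1 μ) : ‖u‖ = ∫ ω, |(u : Ω → ℝ) ω| ∂μ := by
  rw [L1.norm_eq_integral_norm]
  rfl

/-- the finite partition inequality -/
lemma sum_AI_le {ι : Type} [Fintype ι] [DecidableEq ι] [MeasurableSpace ι]
    [MeasurableSingletonClass ι] (t : Ω → ι) (ht : Measurable t) (u : Lp ℝ 1 μ) :
    ∑ e, |AI μ (t ⁻¹' {e}) u| ≤ ‖u‖ := by
  have h1 : ∀ e, |AI μ (t ⁻¹' {e}) u| ≤ ∫ ω in t ⁻¹' {e}, |(u : Ω → ℝ) ω| ∂μ := by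
    intro e
    unfold AI
    exact abs_integral_le_integral_abs
  refine (Finset.sum_le_sum fun e _ => h1 e).trans ?_
  rw [norm_eq]
  have h2 : ∀ e, ∫ ω in t ⁻¹' {e}, |(u : Ω → ℝ) ω| ∂μ =
      ∫ ω, (t ⁻¹' {e}).indicator (fun ω => |(u : Ω → ℝ) ω|) ω ∂μ := fun e =>
    (integral_indicator (ht (measurableSet_singleton e))).symm
  simp_rw [h2]
  rw [← integral_finsetSum]
  · apply le_of_eq
    apply integral_congr_ae
    filter_upwards with ω
    rw [Finset.sum_eq_single (t ω)]
    · rw [Set.indicator_of_mem]; simp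
    · intro e _ he
      rw [Set.indicator_of_notMem]
      simpa using fun h => he h.symm
    · simp
  · intro e _
    exact (integ u).abs.indicator (ht (measurableSet_singleton e))

lemma AI_le (S : Set Ω) (u : Lp ℝ 1 μ) : |AI μ S u| ≤ ‖u‖ := by
  unfold AI
  refine abs_integral_le_integral_abs.trans ?_
  rw [norm_eq]
  exact setIntegral_le_integral (integ u).abs (ae_of_all _ fun ω => abs_nonneg _)

lemma AI_lip {E : Type} [PseudoEMetricSpace E] (S : Set Ω) (f : E → Lp ℝ 1 μ) (L : ℝ≥0)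
    (hf : LipschitzWith L f) : LipschitzWith L (fun y => AI μ S (f y)) := by
  have h1 : LipschitzWith 1 (fun u : Lp ℝ 1 μ => AI μ S u) := by
    refine LipschitzWith.of_dist_le_mul fun u v => ?_
    rw [Real.dist_eq, ← AI_sub, dist_eq_norm]
    simpa using AI_le S (u - v)
  have h2 := h1.comp hf
  rw [one_mul] at h2
  exact h2

/-- signed integral -/
noncomputable def SI (μ : Measure Ω) (S : Set Ω) (u : Lp ℝ 1 μ) : ℝ := AI μ S u - AI μ Sᶜ u

lemma SI_sub (S : Set Ω) (u v : Lp ℝ 1 μ) : SI μ S (u - v) = SI μ S u - SI μ S v := by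
  unfold SI; rw [AI_sub, AI_sub]; ring

lemma SI_le {S : Set Ω} (hS : MeasurableSet S) (u : Lp ℝ 1 μ) : |SI μ S u| ≤ ‖u‖ := by
  classical
  have := sum_AI_le (ι := Bool) (fun ω => decide (ω ∈ S)) (measurable_to_bool (by
    have : (fun ω => decide (ω ∈ S)) ⁻¹' {true} = S := by ext ω; simp
    rw [this]; exact hS)) u
  rw [Fintype.sum_bool] at this
  have e1 : (fun ω => decide (ω ∈ S)) ⁻¹' {true} = S := by ext ω; simp
  have e2 : (fun ω => decide (ω ∈ S)) ⁻¹' {false} = Sᶜ := by ext ω; simp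
  rw [e1, e2] at this
  unfold SI
  exact (abs_sub _ _).trans this

/-- the positivity set of an `L₁` function -/
def PosSet (u : Lp ℝ 1 μ) : Set Ω := {ω | 0 ≤ (u : Ω → ℝ) ω}

lemma PosSet_meas (u : Lp ℝ 1 μ) : MeasurableSet (PosSet u) :=
  measurableSet_le measurable_const (Lp.stronglyMeasurable u).measurable

lemma SI_PosSet (u : Lp ℝ 1 μ) : SI μ (PosSet u) u = ‖u‖ := by
  rw [norm_eq, ← integral_add_compl (PosSet_meas u) (integ u).abs]
  unfold SI AI
  rw [sub_eq_add_neg, ← integral_neg]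
  congr 1
  · apply setIntegral_congr_fun (PosSet_meas u)
    intro ω hω
    exact (abs_of_nonneg hω).symm
  · apply setIntegral_congr_fun (PosSet_meas u).compl
    intro ω hω
    have : ¬ 0 ≤ (u : Ω → ℝ) ω := hω
    exact (abs_of_nonpos (le_of_lt (not_le.1 this))).symm

/-- sign of a Boolean -/
def sg (b : Bool) : ℝ := if b then 1 else -1

/-- **Good point lemma.** -/
theorem good_point {N : Type} [Fintype N] [DecidableEq N]
    (f : (N → ℝ) → Lp ℝ 1 μ) (L : ℝ≥0) (hf : LipschitzWith L f) (δ δ' : ℝ) (hδ : δ' < δ)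
    (hlow : ∀ (y : N → ℝ) (x : N) (t : ℝ), 0 < t →
      δ * t ≤ ‖f (y + t • Pi.single x (1 : ℝ)) - f y‖) :
    ∃ (t : Ω → (N → Bool)) (z : N → ℝ), Measurable t ∧
      (∀ e, DifferentiableAt ℝ (fun y => AI μ (t ⁻¹' {e}) (f y)) z) ∧
      ∀ x, δ' ≤ ∑ e, sg (e x) *
        fderiv ℝ (fun y => AI μ (t ⁻¹' {e}) (f y)) z (Pi.single x (1 : ℝ)) := by
  classical
  -- countable family of sign sets
  let D := TopologicalSpace.denseSeq (N → ℝ)
  have hD : DenseRange D := TopologicalSpace.denseRange_denseSeq _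
  let P : ℕ × ℕ → Set Ω := fun j => PosSet (f (D j.1) - f (D j.2))
  have hP : ∀ j, MeasurableSet (P j) := fun j => PosSet_meas _
  let g : ℕ × ℕ → (N → ℝ) → ℝ := fun j y => SI μ (P j) (f y)
  have hg : ∀ j, LipschitzWith L (g j) := by
    intro j
    have h1 : LipschitzWith 1 (fun u : Lp ℝ 1 μ => SI μ (P j) u) := by
      refine LipschitzWith.of_dist_le_mul fun u v => ?_
      rw [Real.dist_eq, ← SI_sub, dist_eq_norm]
      simpa using SI_le (hP j) (u - v)
    have h2 := h1.comp hf
    rw [one_mul] at h2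
    exact h2
  have hnorming : ∀ p q : N → ℝ, ∀ η > 0, ∃ j, ‖f p - f q‖ - η ≤ g j p - g j q := by
    intro p q η hη
    have hη4 : 0 < η / (4 * (L + 1)) := by positivity
    obtain ⟨k, hk⟩ := hD.exists_dist_lt p hη4
    obtain ⟨l, hl⟩ := hD.exists_dist_lt q hη4
    have hk' : ‖f p - f (D k)‖ ≤ η / 4 := by
      rw [← dist_eq_norm]
      refine (hf.dist_le_mul _ _).trans ?_
      calc (L : ℝ) * dist p (D k) ≤ (L + 1) * (η / (4 * (L + 1))) :=
            mul_le_mul (by linarith) hk.le dist_nonneg (by positivity)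
        _ = η / 4 := by field_simp
    have hl' : ‖f q - f (D l)‖ ≤ η / 4 := by
      rw [← dist_eq_norm]
      refine (hf.dist_le_mul _ _).trans ?_
      calc (L : ℝ) * dist q (D l) ≤ (L + 1) * (η / (4 * (L + 1))) :=
            mul_le_mul (by linarith) hl.le dist_nonneg (by positivity)
        _ = η / 4 := by field_simp
    refine ⟨(k, l), ?_⟩
    have e1 : g (k, l) p - g (k, l) q = SI μ (P (k, l)) (f p - f q) := (SI_sub _ _ _).symm
    have e2 : f p - f q = (f (D k) - f (D l)) + ((f p - f (D k)) - (f q - f (D l))) := by abel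
    have e3 : SI μ (P (k, l)) (f p - f q) = SI μ (P (k, l)) (f (D k) - f (D l)) +
        (SI μ (P (k, l)) (f p - f (D k)) - SI μ (P (k, l)) (f q - f (D l))) := by
      simp only [SI_sub]; ring
    have e4 : SI μ (P (k, l)) (f (D k) - f (D l)) = ‖f (D k) - f (D l)‖ := SI_PosSet _
    have e5 := SI_le (hP (k, l)) (f p - f (D k))
    have e6 := SI_le (hP (k, l)) (f q - f (D l))
    have e7 : ‖f p - f q‖ ≤ ‖f (D k) - f (D l)‖ + (‖f p - f (D k)‖ + ‖f q - f (D l)‖) := by
      conv_lhs => rw [e2]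
      exact (norm_add_le _ _).trans (by gcongr; exact norm_sub_le _ _)
    rw [e1, e3, e4]
    have := abs_le.1 e5
    have := abs_le.1 e6
    linarith
  -- a.e. large directional derivatives
  have hdir : ∀ x : N, ∀ᵐ z ∂(volume : Measure (N → ℝ)),
      ∃ j, δ' < lineDeriv ℝ (g j) z (Pi.single x (1 : ℝ)) := by
    intro x
    apply multi_ae g L hg δ δ' hδ
    intro z a b hab η hη
    obtain ⟨j, hj⟩ := hnorming (z + b • Pi.single x (1 : ℝ)) (z + a • Pi.single x (1 : ℝ)) η hη
    refine ⟨j, le_trans ?_ hj⟩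
    have := hlow (z + a • Pi.single x (1 : ℝ)) x (b - a) (by linarith)
    have e : z + a • Pi.single x (1 : ℝ) + (b - a) • Pi.single x (1 : ℝ) =
        z + b • Pi.single x (1 : ℝ) := by
      rw [add_assoc, ← add_smul]; congr 2; ring
    rw [e] at this
    linarith
  -- a.e. differentiability of everything
  let t : (N → ℕ × ℕ) → Ω → (N → Bool) := fun j ω x => decide (ω ∈ P (j x))
  have ht : ∀ j, Measurable (t j) := by
    intro j
    rw [measurable_pi_iff]
    intro x
    apply measurable_to_bool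
    have : (fun ω => t j ω x) ⁻¹' {true} = P (j x) := by ext ω; simp [t]
    rw [this]; exact hP _
  have hdiff : ∀ᵐ z ∂(volume : Measure (N → ℝ)), ∀ (j : N → ℕ × ℕ) (e : N → Bool),
      DifferentiableAt ℝ (fun y => AI μ (t j ⁻¹' {e}) (f y)) z := by
    rw [ae_all_iff]; intro j
    rw [ae_all_iff]; intro e
    exact (AI_lip (t j ⁻¹' {e}) f L hf).ae_differentiableAt
  obtain ⟨z, hz1, hz2⟩ := ((ae_all_iff.2 hdir).and hdiff).exists
  choose j hj using hz1
  refine ⟨t j, z, ht j, hz2 j, ?_⟩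
  intro x
  -- decomposition of `g (j x)`
  have hdec : ∀ y, g (j x) y = ∑ e, sg (e x) * AI μ (t j ⁻¹' {e}) (f y) := by
    intro y
    have h0 : ∀ e : N → Bool, sg (e x) * AI μ (t j ⁻¹' {e}) (f y) =
        ∫ ω, (t j ⁻¹' {e}).indicator (fun ω => sg (e x) * (f y : Ω → ℝ) ω) ω ∂μ := by
      intro e
      rw [integral_indicator (ht j (measurableSet_singleton e)), integral_const_mul]
      rfl
    simp_rw [h0]
    rw [← integral_finsetSum]
    · have h1 : ∀ ω, ∑ e, (t j ⁻¹' {e}).indicator (fun ω => sg (e x) * (f y : Ω → ℝ) ω) ω =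
          sg (t j ω x) * (f y : Ω → ℝ) ω := by
        intro ω
        rw [Finset.sum_eq_single (t j ω)]
        · rw [Set.indicator_of_mem]; simp
        · intro e _ he
          rw [Set.indicator_of_notMem]
          simpa using fun h => he h.symm
        · simp
      simp_rw [h1]
      have hi : Integrable (fun ω => sg (t j ω x) * (f y : Ω → ℝ) ω) μ := by
        refine (integ (f y)).bdd_mul (c := 1) ?_ ?_
        · have : Measurable (fun ω => sg (t j ω x)) :=
            (measurable_of_countable sg).comp ((measurable_pi_apply x).comp (ht j))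
          exact this.aestronglyMeasurable
        · refine ae_of_all _ fun ω => ?_
          unfold sg; split_ifs <;> simp
      rw [← integral_add_compl (hP (j x)) hi]
      change SI μ (P (j x)) (f y) = _
      unfold SI AI
      rw [sub_eq_add_neg, ← integral_neg]
      congr 1
      · apply setIntegral_congr_fun (hP (j x))
        intro ω hω
        have : t j ω x = true := by simpa [t] using hω
        simp [this, sg]
      · apply setIntegral_congr_fun (hP (j x)).compl
        intro ω hω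
        have : t j ω x = false := by simpa [t] using hω
        simp [this, sg]
    · intro e _
      exact ((integ (f y)).const_mul _).indicator (ht j (measurableSet_singleton e))
  have hfun : g (j x) = fun y => ∑ e, sg (e x) * AI μ (t j ⁻¹' {e}) (f y) := funext hdec
  have hder : HasFDerivAt (g (j x))
      (∑ e, sg (e x) • fderiv ℝ (fun y => AI μ (t j ⁻¹' {e}) (f y)) z) z := by
    rw [hfun]
    refine HasFDerivAt.fun_sum fun e _ => ?_
    exact ((hz2 j e).hasFDerivAt).const_mul (sg (e x))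
  have hl : lineDeriv ℝ (g (j x)) z (Pi.single x (1 : ℝ)) =
      ∑ e, sg (e x) * fderiv ℝ (fun y => AI μ (t j ⁻¹' {e}) (f y)) z (Pi.single x (1 : ℝ)) := by
    rw [(hder.hasLineDerivAt _).lineDeriv]
    simp
  rw [← hl]
  exact (hj x).le

end Pool.Agent.H799R2.Union
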