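import Pool.Agent.H799R2.UField

set_option autoImplicit false

open MeasureTheory Filter Topology Set
open scoped NNReal ENNReal

namespace Pool.Agent.H799R2.Union

/-- the fields -/
abbrev KK (m : ℕ) : Type := GaloisField 2 (m + 1)

noncomputable instance instFintypeKK (m : ℕ) : Fintype (KK m) := Fintype.ofFinite _

noncomputable instance instDecEqKK (m : ℕ) : DecidableEq (KK m) := Classical.decEq _

lemma card_KK (m : ℕ) : Fintype.card (KK m) = 2 ^ (m + 1) := by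
  rw [← Nat.card_eq_fintype_card]
  exact GaloisField.card 2 (m + 1) (by omega)

/-- the index set -/
def Wp : Type := Σ m : ℕ, KK m × KK m

/-- points of the index set -/
def wk (m : ℕ) (c : KK m × KK m) : Wp := ⟨m, c⟩

instance : MeasurableSpace Wp := ⊤

instance : MeasurableSingletonClass Wp := ⟨fun _ => trivial⟩

/-- the `ℓ₁` space -/
abbrev EE : Type := Lp ℝ 1 (Measure.count : Measure Wp)

lemma enorm_EE (u : EE) : ‖u‖ₑ = ∑' m : ℕ, ∑ c : KK m × KK m, ‖(u : Wp → ℝ) (wk m c)‖ₑ := by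
  rw [Lp.enorm_def, eLpNorm_one_eq_lintegral_enorm, lintegral_count]
  have := ENNReal.tsum_sigma' (β := fun m : ℕ => KK m × KK m)
    (fun w : (Σ m : ℕ, KK m × KK m) => ‖(u : Wp → ℝ) w‖ₑ)
  refine this.trans ?_
  congr 1
  funext m
  exact tsum_fintype _

lemma coe_sub_EE (u v : EE) (w : Wp) : ((u - v : EE) : Wp → ℝ) w = (u : Wp → ℝ) w - (v : Wp → ℝ) w :=
  Measure.ae_count_iff.1 (Lp.coeFn_sub u v) w

lemma coe_add_EE (u v : EE) (w : Wp) : ((u + v : EE) : Wp → ℝ) w = (u : Wp → ℝ) w + (v : Wp → ℝ) w :=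
  Measure.ae_count_iff.1 (Lp.coeFn_add u v) w

lemma coe_neg_EE (u : EE) (w : Wp) : ((-u : EE) : Wp → ℝ) w = -(u : Wp → ℝ) w :=
  Measure.ae_count_iff.1 (Lp.coeFn_neg u) w

lemma coe_zero_EE (w : Wp) : ((0 : EE) : Wp → ℝ) w = 0 :=
  Measure.ae_count_iff.1 (Lp.coeFn_zero ℝ 1 (Measure.count : Measure Wp)) w

open Classical in
/-- extension by zero -/
noncomputable def ext0 (m : ℕ) (a : KK m × KK m → ℝ) : Wp → ℝ := fun w =>
  if h : w.1 = m then a (h ▸ w.2) else 0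

lemma ext0_same (m : ℕ) (a : KK m × KK m → ℝ) (c : KK m × KK m) : ext0 m a (wk m c) = a c := by
  simp [ext0, wk]

lemma ext0_ne (m m' : ℕ) (h : m' ≠ m) (a : KK m × KK m → ℝ) (c : KK m' × KK m') :
    ext0 m a (wk m' c) = 0 := by
  simp [ext0, wk, h]

lemma tsum_ext0 (m : ℕ) (a : KK m × KK m → ℝ) :
    ∑' m' : ℕ, ∑ c : KK m' × KK m', ‖ext0 m a (wk m' c)‖ₑ = ∑ c, ‖a c‖ₑ := by
  rw [tsum_eq_single m]
  · simp_rw [ext0_same]
  · intro m' hm'
    simp_rw [ext0_ne m m' hm']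
    simp

lemma memLp_ext0 (m : ℕ) (a : KK m × KK m → ℝ) :
    MemLp (ext0 m a) 1 (Measure.count : Measure Wp) := by
  refine ⟨(measurable_of_countable' a).aestronglyMeasurable, ?_⟩
  rw [eLpNorm_one_eq_lintegral_enorm, lintegral_count]
  have := ENNReal.tsum_sigma' (β := fun m : ℕ => KK m × KK m)
    (fun w : (Σ m : ℕ, KK m × KK m) => ‖ext0 m a w‖ₑ)
  rw [show (∑' w : Wp, ‖ext0 m a w‖ₑ) = ∑' m' : ℕ, ∑' c : KK m' × KK m', ‖ext0 m a (wk m' c)‖ₑ from this]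
  simp_rw [tsum_fintype]
  rw [tsum_ext0]
  exact ENNReal.sum_lt_top.2 fun c _ => enorm_lt_top
where
  measurable_of_countable' (a : KK m × KK m → ℝ) : Measurable (ext0 m a) := fun _ _ => trivial

/-- the embedding of a block -/
noncomputable def emb (m : ℕ) (a : KK m × KK m → ℝ) : EE := (memLp_ext0 m a).toLp (ext0 m a)

lemma emb_coe (m : ℕ) (a : KK m × KK m → ℝ) (w : Wp) : (emb m a : Wp → ℝ) w = ext0 m a w :=
  Measure.ae_count_iff.1 (MemLp.coeFn_toLp (memLp_ext0 m a)) w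

lemma norm_emb_sub (m : ℕ) (a b : KK m × KK m → ℝ) :
    ‖emb m a - emb m b‖ = ∑ c, |a c - b c| := by
  have h : ‖emb m a - emb m b‖ₑ = ∑ c, ‖a c - b c‖ₑ := by
    rw [enorm_EE, tsum_eq_single m]
    · simp_rw [coe_sub_EE, emb_coe, ext0_same]
    · intro m' hm'
      simp_rw [coe_sub_EE, emb_coe, ext0_ne m m' hm']
      simp
  have h2 : ‖emb m a - emb m b‖ = (‖emb m a - emb m b‖ₑ).toReal := (toReal_enorm _).symm
  rw [h2, h, ENNReal.toReal_sum fun c _ => enorm_ne_top]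
  refine Finset.sum_congr rfl fun c _ => ?_
  rw [toReal_enorm, Real.norm_eq_abs]

/-- the gluing subgroup -/
def SG : AddSubgroup (EE × EE) where
  carrier := {p | ∃ y : ∀ m, KK m → ℝ, ∀ m c,
    (p.1 : Wp → ℝ) (wk m c) = mr gm (y m) c ∧ (p.2 : Wp → ℝ) (wk m c) = - mr hm (y m) c}
  zero_mem' := by
    refine ⟨fun m => 0, fun m c => ?_⟩
    have h1 : mr gm (0 : KK m → ℝ) c = 0 := by simp [mr]
    have h2 : mr hm (0 : KK m → ℝ) c = 0 := by simp [mr]
    rw [h1, h2, neg_zero]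
    exact ⟨coe_zero_EE _, coe_zero_EE _⟩
  add_mem' := by
    rintro p q ⟨y, hy⟩ ⟨y', hy'⟩
    refine ⟨fun m => y m + y' m, fun m c => ?_⟩
    rw [mr_add, mr_add]
    constructor
    · change ((p.1 + q.1 : EE) : Wp → ℝ) _ = _
      rw [coe_add_EE, (hy m c).1, (hy' m c).1]; rfl
    · change ((p.2 + q.2 : EE) : Wp → ℝ) _ = _
      rw [coe_add_EE, (hy m c).2, (hy' m c).2]
      simp only [Pi.add_apply]; ring
  neg_mem' := by
    rintro p ⟨y, hy⟩
    refine ⟨fun m => (-1 : ℝ) • y m, fun m c => ?_⟩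
    rw [mr_smul, mr_smul]
    constructor
    · change ((-p.1 : EE) : Wp → ℝ) _ = _
      rw [coe_neg_EE, (hy m c).1]; simp
    · change ((-p.2 : EE) : Wp → ℝ) _ = _
      rw [coe_neg_EE, (hy m c).2]; simp

lemma enorm_ineq (k : ℝ) (hk : 0 ≤ k) (u v : EE)
    (h : ∀ m : ℕ, k * ∑ c : KK m × KK m, |(u : Wp → ℝ) (wk m c)| ≤
      ∑ c : KK m × KK m, |(v : Wp → ℝ) (wk m c)|) : k * ‖u‖ ≤ ‖v‖ := by
  have h1 : ENNReal.ofReal k * ‖u‖ₑ ≤ ‖v‖ₑ := by
    rw [enorm_EE, enorm_EE, ← ENNReal.tsum_mul_left]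
    refine ENNReal.tsum_le_tsum fun m => ?_
    have e : ∀ w : EE, ∑ c : KK m × KK m, ‖(w : Wp → ℝ) (wk m c)‖ₑ =
        ENNReal.ofReal (∑ c : KK m × KK m, |(w : Wp → ℝ) (wk m c)|) := by
      intro w
      rw [ENNReal.ofReal_sum_of_nonneg fun _ _ => abs_nonneg _]
      refine Finset.sum_congr rfl fun c _ => ?_
      rw [← Real.norm_eq_abs, ofReal_norm]
    rw [e, e, ← ENNReal.ofReal_mul hk]
    exact ENNReal.ofReal_le_ofReal (h m)
  have h2 := ENNReal.toReal_mono (enorm_ne_top (x := v)) h1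
  rwa [ENNReal.toReal_mul, ENNReal.toReal_ofReal hk, toReal_enorm, toReal_enorm] at h2

lemma SG_ineq (p : EE × EE) (hp : p ∈ SG) :
    4 / 9 * ‖p.1‖ ≤ ‖p.2‖ ∧ 4 / 9 * ‖p.2‖ ≤ ‖p.1‖ := by
  obtain ⟨y, hy⟩ := hp
  constructor
  · apply enorm_ineq _ (by norm_num)
    intro m
    simp_rw [(hy m _).1, (hy m _).2, abs_neg]
    exact gm_le_hm (y m)
  · apply enorm_ineq _ (by norm_num)
    intro m
    simp_rw [(hy m _).1, (hy m _).2, abs_neg]
    exact hm_le_gm (y m)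

/-- closure of the gluing subgroup -/
noncomputable def SC : AddSubgroup (EE × EE) := SG.topologicalClosure

instance isClosed_SC : IsClosed (SC : Set (EE × EE)) := AddSubgroup.isClosed_topologicalClosure SG

lemma SC_ineq (p : EE × EE) (hp : p ∈ SC) :
    4 / 9 * ‖p.1‖ ≤ ‖p.2‖ ∧ 4 / 9 * ‖p.2‖ ≤ ‖p.1‖ := by
  have hcl : IsClosed {p : EE × EE | 4 / 9 * ‖p.1‖ ≤ ‖p.2‖ ∧ 4 / 9 * ‖p.2‖ ≤ ‖p.1‖} := by
    apply IsClosed.inter
    · exact isClosed_le (f := fun p : EE × EE => 4 / 9 * ‖p.1‖) (g := fun p : EE × EE => ‖p.2‖)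
        (by fun_prop) (by fun_prop)
    · exact isClosed_le (f := fun p : EE × EE => 4 / 9 * ‖p.2‖) (g := fun p : EE × EE => ‖p.1‖)
        (by fun_prop) (by fun_prop)
  exact closure_minimal (fun p hp => SG_ineq p hp) hcl hp

lemma SG_le_SC {p : EE × EE} (hp : p ∈ SG) : p ∈ SC := subset_closure hp

/-- the metric space -/
abbrev XX : Type := (EE × EE) ⧸ SC

/-- the two inclusions -/
noncomputable def jA (a : EE) : XX := QuotientAddGroup.mk (a, 0)

/-- the second inclusion -/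
noncomputable def jB (b : EE) : XX := QuotientAddGroup.mk (0, b)

lemma jA_sub (a b : EE) : jA a - jA b = jA (a - b) := by
  unfold jA
  rw [← QuotientAddGroup.mk_sub]
  simp

lemma jB_sub (a b : EE) : jB a - jB b = jB (a - b) := by
  unfold jB
  rw [← QuotientAddGroup.mk_sub]
  simp

lemma jA_le (a : EE) : ‖jA a‖ ≤ ‖a‖ := by
  refine (QuotientAddGroup.norm_mk_le_norm).trans ?_
  simp [Prod.norm_def]

lemma jB_le (a : EE) : ‖jB a‖ ≤ ‖a‖ := by
  refine (QuotientAddGroup.norm_mk_le_norm).trans ?_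
  simp [Prod.norm_def]

lemma jA_ge (a : EE) : 4 / 13 * ‖a‖ ≤ ‖jA a‖ := by
  rw [QuotientAddGroup.le_norm_iff]
  intro m hm
  have h1 : -m + (a, 0) ∈ SC := QuotientAddGroup.eq.1 hm
  have h2 := (SC_ineq _ h1).1
  have e1 : (-m + (a, 0)).1 = a - m.1 := by simp; abel
  have e2 : (-m + (a, 0)).2 = -m.2 := by simp
  rw [e1, e2, norm_neg] at h2
  have h3 : ‖a‖ ≤ ‖m.1‖ + ‖a - m.1‖ := by
    have := norm_add_le m.1 (a - m.1)
    rwa [add_sub_cancel] at this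
  have h4 : ‖m.1‖ ≤ ‖m‖ := norm_fst_le m
  have h5 : ‖m.2‖ ≤ ‖m‖ := norm_snd_le m
  linarith

lemma jB_ge (a : EE) : 4 / 13 * ‖a‖ ≤ ‖jB a‖ := by
  rw [QuotientAddGroup.le_norm_iff]
  intro m hm
  have h1 : -m + (0, a) ∈ SC := QuotientAddGroup.eq.1 hm
  have h2 := (SC_ineq _ h1).2
  have e1 : (-m + (0, a)).1 = -m.1 := by simp
  have e2 : (-m + (0, a)).2 = a - m.2 := by simp; abel
  rw [e1, e2, norm_neg] at h2
  have h3 : ‖a‖ ≤ ‖m.2‖ + ‖a - m.2‖ := by
    have := norm_add_le m.2 (a - m.2)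
    rwa [add_sub_cancel] at this
  have h4 : ‖m.1‖ ≤ ‖m‖ := norm_fst_le m
  have h5 : ‖m.2‖ ≤ ‖m‖ := norm_snd_le m
  linarith

lemma glue (m : ℕ) (y : KK m → ℝ) : jA (emb m (mr gm y)) = jB (emb m (mr hm y)) := by
  unfold jA jB
  rw [QuotientAddGroup.eq]
  apply SG_le_SC
  refine ⟨Function.update (fun _ => 0) m ((-1 : ℝ) • y), fun m' c => ?_⟩
  have e1 : (-((emb m (mr gm y), 0) : EE × EE) + (0, emb m (mr hm y))).1 = - emb m (mr gm y) := by
    simp
  have e2 : (-((emb m (mr gm y), 0) : EE × EE) + (0, emb m (mr hm y))).2 = emb m (mr hm y) := by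
    simp
  rw [e1, e2, coe_neg_EE, emb_coe, emb_coe]
  by_cases h : m' = m
  · subst h
    rw [Function.update_self, ext0_same, ext0_same, mr_smul, mr_smul]
    simp
  · rw [Function.update_of_ne h, ext0_ne m m' h, ext0_ne m m' h]
    simp [mr]

end Pool.Agent.H799R2.Union
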