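import Pool.Agent.H799R2.CutMain

set_option autoImplicit false
set_option linter.unusedSectionVars false

namespace Pool.Agent.H799R2.Wass

open Finset MeasureTheory
open scoped ENNReal

section W1

variable {M : Type} [Fintype M]

/-- `π` is a coupling of `μ` and `ν`. -/
def IsCoupling (μ ν : M → ℝ) (π : M → M → ℝ) : Prop :=
  (∀ x y, 0 ≤ π x y) ∧ (∀ x, ∑ y, π x y = μ x) ∧ ∀ y, ∑ x, π x y = ν y

/-- The Wasserstein-1 distance for the ground distance `ρ`. -/
noncomputable def W1 (ρ : M → M → ℝ) (μ ν : M → ℝ) : ℝ :=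
  sInf {t : ℝ | ∃ π : M → M → ℝ, IsCoupling μ ν π ∧ t = ∑ x, ∑ y, π x y * ρ x y}

/-- The uniform probability measure on the points of `S`. -/
noncomputable def unif [DecidableEq M] (S : Finset M) : M → ℝ :=
  fun x => if x ∈ S then 1 / (S.card : ℝ) else 0

variable [DecidableEq M]

theorem sum_count_fst (P : Multiset (M × M)) (x : M) :
    ∑ y, (P.count (x, y) : ℝ) = (P.map Prod.fst).count x := by
  induction P using Multiset.induction_on with
  | empty => simp
  | cons p P ih =>
    rw [Multiset.map_cons, Multiset.count_cons, Nat.cast_add, ← ih]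
    have : ∀ y, ((p ::ₘ P).count (x, y) : ℝ) = P.count (x, y) +
        (if (x, y) = p then 1 else 0) := by
      intro y; rw [Multiset.count_cons]; push_cast; rfl
    simp_rw [this]
    rw [Finset.sum_add_distrib]
    congr 1
    obtain ⟨a, b⟩ := p
    by_cases h : x = a
    · subst h; simp
    · simp [h]

theorem sum_count_snd (P : Multiset (M × M)) (y : M) :
    ∑ x, (P.count (x, y) : ℝ) = (P.map Prod.snd).count y := by
  induction P using Multiset.induction_on with
  | empty => simp
  | cons p P ih =>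
    rw [Multiset.map_cons, Multiset.count_cons, Nat.cast_add, ← ih]
    have : ∀ x, ((p ::ₘ P).count (x, y) : ℝ) = P.count (x, y) +
        (if (x, y) = p then 1 else 0) := by
      intro y; rw [Multiset.count_cons]; push_cast; rfl
    simp_rw [this]
    rw [Finset.sum_add_distrib]
    congr 1
    obtain ⟨a, b⟩ := p
    by_cases h : y = b
    · subst h; simp
    · simp [h]

theorem sum_count_mul (ρ : M → M → ℝ) (P : Multiset (M × M)) :
    ∑ x, ∑ y, (P.count (x, y) : ℝ) * ρ x y = (P.map fun p => ρ p.1 p.2).sum := by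
  induction P using Multiset.induction_on with
  | empty => simp
  | cons p P ih =>
    rw [Multiset.map_cons, Multiset.sum_cons, ← ih]
    have : ∀ x y, ((p ::ₘ P).count (x, y) : ℝ) * ρ x y = (if (x, y) = p then ρ x y else 0) +
        P.count (x, y) * ρ x y := by
      intro x y; rw [Multiset.count_cons]; push_cast
      split_ifs <;> ring
    simp_rw [this, Finset.sum_add_distrib]
    congr 1
    obtain ⟨a, b⟩ := p
    rw [Finset.sum_eq_single a, Finset.sum_eq_single b]
    · simp
    · intro y _ hy; simp [hy]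
    · simp
    · intro x _ hx; simp [hx]
    · simp

theorem coupling_of_matching {S T : Finset M} {s : ℕ} (hs : 0 < s) (hS : S.card = s)
    (hT : T.card = s) {P : Multiset (M × M)} (h1 : P.map Prod.fst = S.val)
    (h2 : P.map Prod.snd = T.val) :
    IsCoupling (unif S) (unif T) fun x y => (P.count (x, y) : ℝ) / s := by
  refine ⟨fun x y => by positivity, fun x => ?_, fun y => ?_⟩
  · rw [← Finset.sum_div, sum_count_fst, h1, unif, hS]
    rw [Multiset.count_eq_of_nodup S.nodup]
    by_cases hx : x ∈ S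
    · rw [if_pos hx, if_pos (by exact hx)]; simp
    · rw [if_neg hx, if_neg (by exact hx)]; simp
  · rw [← Finset.sum_div, sum_count_snd, h2, unif, hT]
    rw [Multiset.count_eq_of_nodup T.nodup]
    by_cases hx : y ∈ T
    · rw [if_pos hx, if_pos (by exact hx)]; simp
    · rw [if_neg hx, if_neg (by exact hx)]; simp

theorem W1_le {ρ : M → M → ℝ} (hρ : ∀ x y, 0 ≤ ρ x y) {S T : Finset M} {s : ℕ} (hs : 0 < s)
    (hS : S.card = s) (hT : T.card = s) {P : Multiset (M × M)} (h1 : P.map Prod.fst = S.val)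
    (h2 : P.map Prod.snd = T.val) :
    s * W1 ρ (unif S) (unif T) ≤ (P.map fun p => ρ p.1 p.2).sum := by
  have hs' : (0 : ℝ) < s := by exact_mod_cast hs
  have h3 : W1 ρ (unif S) (unif T) ≤ (P.map fun p => ρ p.1 p.2).sum / s := by
    refine csInf_le ⟨0, ?_⟩ ⟨_, coupling_of_matching hs hS hT h1 h2, ?_⟩
    · rintro t ⟨π, hπ, rfl⟩
      exact Finset.sum_nonneg fun x _ => Finset.sum_nonneg fun y _ => mul_nonneg (hπ.1 x y) (hρ x y)
    · rw [← sum_count_mul, Finset.sum_div]
      refine Finset.sum_congr rfl fun x _ => ?_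
      rw [Finset.sum_div]
      exact Finset.sum_congr rfl fun y _ => by ring
  rw [le_div_iff₀ hs'] at h3
  linarith

/-- Birkhoff: every coupling is at least as expensive as some matching. -/
theorem exists_matching_of_coupling {ρ : M → M → ℝ} {S T : Finset M} {s : ℕ} (hs : 0 < s)
    (hS : S.card = s) (hT : T.card = s) {π : M → M → ℝ} (hπ : IsCoupling (unif S) (unif T) π) :
    ∃ P : Multiset (M × M), P.map Prod.fst = S.val ∧ P.map Prod.snd = T.val ∧
      (P.map fun p => ρ p.1 p.2).sum ≤ s * ∑ x, ∑ y, π x y * ρ x y := by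
  obtain ⟨hπ0, hπ1, hπ2⟩ := hπ
  have hs' : (0 : ℝ) < s := by exact_mod_cast hs
  have eS : Fin s ≃ S := (S.equivFinOfCardEq hS).symm
  have eT : Fin s ≃ T := (T.equivFinOfCardEq hT).symm
  -- `π` is supported on `S × T`
  have hz1 : ∀ x y, x ∉ S → π x y = 0 := by
    intro x y hx
    have h := hπ1 x
    rw [unif, if_neg hx] at h
    exact (Finset.sum_eq_zero_iff_of_nonneg fun y _ => hπ0 x y).1 h y (Finset.mem_univ y)
  have hz2 : ∀ x y, y ∉ T → π x y = 0 := by
    intro x y hy
    have h := hπ2 y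
    rw [unif, if_neg hy] at h
    exact (Finset.sum_eq_zero_iff_of_nonneg fun x _ => hπ0 x y).1 h x (Finset.mem_univ x)
  have hsumS : ∀ f : M → ℝ, (∀ x, x ∉ S → f x = 0) → ∑ i, f (eS i) = ∑ x, f x := by
    intro f hf
    rw [Equiv.sum_comp eS (fun x : S => f x), Finset.sum_coe_sort S f]
    exact Finset.sum_subset (Finset.subset_univ _) fun x _ hx => hf x hx
  have hsumT : ∀ f : M → ℝ, (∀ x, x ∉ T → f x = 0) → ∑ i, f (eT i) = ∑ x, f x := by
    intro f hf
    rw [Equiv.sum_comp eT (fun x : T => f x), Finset.sum_coe_sort T f]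
    exact Finset.sum_subset (Finset.subset_univ _) fun x _ hx => hf x hx
  set Mt : Matrix (Fin s) (Fin s) ℝ := fun i j => s * π (eS i) (eT j) with hMt
  have hds : Mt ∈ doublyStochastic ℝ (Fin s) := by
    rw [mem_doublyStochastic_iff_sum]
    refine ⟨fun i j => mul_nonneg hs'.le (hπ0 _ _), fun i => ?_, fun j => ?_⟩
    · simp only [hMt]
      rw [← Finset.mul_sum, hsumT (fun y => π (eS i) y) (fun y hy => hz2 _ y hy), hπ1, unif,
        if_pos (eS i).2, hS]
      field_simp
    · simp only [hMt]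
      rw [← Finset.mul_sum, hsumS (fun x => π x (eT j)) (fun x hx => hz1 x _ hx), hπ2, unif,
        if_pos (eT j).2, hT]
      field_simp
  obtain ⟨lam, hl0, hl1, hl2⟩ := exists_eq_sum_perm_of_mem_doublyStochastic hds
  -- total cost as an average
  have htot : s * ∑ x, ∑ y, π x y * ρ x y = ∑ σ, lam σ * ∑ i, ρ (eS i) (eT (σ i)) := by
    have h1 : ∑ x, ∑ y, π x y * ρ x y = ∑ i, ∑ j, π (eS i) (eT j) * ρ (eS i) (eT j) := by
      rw [← hsumS (fun x => ∑ y, π x y * ρ x y)]
      · refine Finset.sum_congr rfl fun i _ => ?_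
        rw [← hsumT (fun y => π (eS i) y * ρ (eS i) y)]
        intro y hy; rw [hz2 _ y hy, zero_mul]
      · intro x hx
        exact Finset.sum_eq_zero fun y _ => by rw [hz1 x y hx, zero_mul]
    have h2 : s * ∑ i, ∑ j, π (eS i) (eT j) * ρ (eS i) (eT j) =
        ∑ i, ∑ j, Mt i j * ρ (eS i) (eT j) := by
      rw [Finset.mul_sum]
      refine Finset.sum_congr rfl fun i _ => ?_
      rw [Finset.mul_sum]
      refine Finset.sum_congr rfl fun j _ => ?_
      simp only [hMt]; ring
    have h3 : ∀ i j, Mt i j = ∑ σ, lam σ * (if σ i = j then 1 else 0) := by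
      intro i j
      rw [← hl2, Matrix.sum_apply]
      refine Finset.sum_congr rfl fun σ _ => ?_
      rw [Matrix.smul_apply, smul_eq_mul]
      congr 1
      simp [Equiv.Perm.permMatrix, PEquiv.toMatrix_apply, Equiv.toPEquiv_apply, eq_comm]
    rw [h1, h2]
    simp_rw [h3, Finset.sum_mul]
    calc ∑ i, ∑ j, ∑ σ, lam σ * (if σ i = j then 1 else 0) * ρ (eS i) (eT j)
        = ∑ i, ∑ σ, ∑ j, lam σ * (if σ i = j then 1 else 0) * ρ (eS i) (eT j) :=
          Finset.sum_congr rfl fun i _ => Finset.sum_comm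
      _ = ∑ i, ∑ σ, lam σ * ρ (eS i) (eT (σ i)) := by
          refine Finset.sum_congr rfl fun i _ => Finset.sum_congr rfl fun σ _ => ?_
          rw [Finset.sum_eq_single (σ i)]
          · simp
          · intro j _ hj; rw [if_neg (Ne.symm hj)]; ring
          · simp
      _ = ∑ σ, ∑ i, lam σ * ρ (eS i) (eT (σ i)) := Finset.sum_comm
      _ = _ := Finset.sum_congr rfl fun σ _ => by rw [Finset.mul_sum]
  obtain ⟨σ, hσ⟩ : ∃ σ : Equiv.Perm (Fin s),
      ∑ i, ρ (eS i) (eT (σ i)) ≤ s * ∑ x, ∑ y, π x y * ρ x y := by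
    by_contra hcon
    push Not at hcon
    set c0 := s * ∑ x, ∑ y, π x y * ρ x y with hc0
    have h4 : c0 * 1 < c0 * 1 := by
      nth_rw 1 [← hl1]
      rw [Finset.mul_sum, mul_one]
      conv_rhs => rw [htot]
      obtain ⟨σ0, -, hσ0⟩ : ∃ σ ∈ (Finset.univ : Finset (Equiv.Perm (Fin s))), 0 < lam σ := by
        refine Finset.exists_lt_of_sum_lt (f := fun _ => (0 : ℝ)) ?_
        rw [hl1]; simp
      refine Finset.sum_lt_sum (fun σ _ => ?_) ⟨σ0, Finset.mem_univ _, ?_⟩
      · rw [mul_comm]; exact mul_le_mul_of_nonneg_left (hcon σ).le (hl0 σ)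
      · rw [mul_comm]; exact mul_lt_mul_of_pos_left (hcon σ0) hσ0
    exact lt_irrefl _ h4
  refine ⟨(Finset.univ : Finset (Fin s)).val.map fun i => ((eS i : M), (eT (σ i) : M)), ?_, ?_, ?_⟩
  · rw [Multiset.map_map]
    have : (Finset.univ : Finset (Fin s)).val.map (Prod.fst ∘ fun i => ((eS i : M), (eT (σ i) : M)))
        = ((Finset.univ : Finset (Fin s)).map
          (eS.toEmbedding.trans (Function.Embedding.subtype _))).val := rfl
    rw [this]
    congr 1
    ext x
    simp only [Finset.mem_map, Finset.mem_univ, true_and, Function.Embedding.trans_apply,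
      Equiv.coe_toEmbedding, Function.Embedding.coe_subtype]
    constructor
    · rintro ⟨i, rfl⟩; exact (eS i).2
    · intro hx; exact ⟨eS.symm ⟨x, hx⟩, by simp⟩
  · rw [Multiset.map_map]
    have : (Finset.univ : Finset (Fin s)).val.map (Prod.snd ∘ fun i => ((eS i : M), (eT (σ i) : M)))
        = ((Finset.univ : Finset (Fin s)).map
          ((σ.trans eT).toEmbedding.trans (Function.Embedding.subtype _))).val := rfl
    rw [this]
    congr 1
    ext x
    simp only [Finset.mem_map, Finset.mem_univ, true_and, Function.Embedding.trans_apply,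
      Equiv.coe_toEmbedding, Function.Embedding.coe_subtype]
    constructor
    · rintro ⟨i, rfl⟩; exact ((σ.trans eT) i).2
    · intro hx; exact ⟨(σ.trans eT).symm ⟨x, hx⟩, by simp⟩
  · rw [Multiset.map_map]
    exact hσ

theorem le_W1 {ρ : M → M → ℝ} {S T : Finset M} {s : ℕ} (hs : 0 < s)
    (hS : S.card = s) (hT : T.card = s) {b : ℝ}
    (hb : ∀ P : Multiset (M × M), P.map Prod.fst = S.val → P.map Prod.snd = T.val →
      b ≤ (P.map fun p => ρ p.1 p.2).sum) :
    b ≤ s * W1 ρ (unif S) (unif T) := by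
  have hs' : (0 : ℝ) < s := by exact_mod_cast hs
  have : b / s ≤ W1 ρ (unif S) (unif T) := by
    refine le_csInf ?_ ?_
    · obtain ⟨P, h1, h2⟩ := Cuts.exists_matching S.val T.val (by
        rw [Finset.card_val, Finset.card_val, hS, hT])
      exact ⟨_, _, coupling_of_matching hs hS hT h1 h2, rfl⟩
    · rintro t ⟨π, hπ, rfl⟩
      obtain ⟨P, h1, h2, h3⟩ := exists_matching_of_coupling (ρ := ρ) hs hS hT hπ
      rw [div_le_iff₀ hs', mul_comm]
      exact (hb P h1 h2).trans h3
  rw [div_le_iff₀ hs'] at this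
  linarith

end W1

end Pool.Agent.H799R2.Wass
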